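import Pool.Agent.H913.AV.Main
import Pool.Agent.H913.AVP.Definitions
import Pool.Agent.H913.SGP.Bridge

/-! The final theorem for MP_d9e438_al, from the bundled version to the definitions of
`SGP.Definitions` and `AVP.Definitions`. -/

open Matrix NormedSpace Filter Topology
open scoped Matrix

universe u

namespace Pool.Agent.H913.AVP

open Pool.Agent.H913.SGP

section

variable {n : ℕ} {G : Type} [Group G] [TopologicalSpace G] {GR : Subgroup (GL (Fin n) ℝ)}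
  {ρ : G →* GL (Fin n) ℝ} {V : Type u} [AddCommGroup V] [Module ℂ V]

theorem toValue (h : IsRealReductive GR ρ) (Mo : HCModule GR ρ V) (w : G → ℝ) (p : V → ℝ)
    (T : Module.End ℂ V) (g : G) (v : V) (c : ℝ) :
    IsValue Mo w p T g v c ↔ AV.IsVal (toMo h Mo) w p T g v c := by
  constructor
  · rintro ⟨E, i1, i2, i3, ι, π, hG, hp, ⟨C, hC, hw⟩, y, hy, hc⟩
    exact ⟨E, i1, i2, i3, ι, π, hG.injective, hG.dense, hp, hG.continuous, hG.intertwines_K,
      fun X γ hγ v => hG.intertwines_lie (ofLie h X) γ hγ v, hG.K_finite, ⟨C, hC, hw⟩, y, hy, hc⟩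
  · rintro ⟨E, i1, i2, i3, ι, π, h1, h2, h3, h4, h5, h6, h7, ⟨C, hC, hw⟩, y, hy, hc⟩
    exact ⟨E, i1, i2, i3, ι, π, ⟨h1, h2, h4, h5,
      fun X γ hγ v => h6 (toLie h X) γ hγ v, h7⟩, h3, ⟨C, hC, hw⟩, y, hy, hc⟩

theorem toPow' (h : IsRealReductive GR ρ) (Mo : HCModule GR ρ V) {m : ℕ} {b : Fin m → LieAlg GR}
    (hb : IsInvBasis GR ρ b) (s : ℝ) (T : Module.End ℂ V) :
    IsSobolevPow Mo b s T ↔ SG.IsSobolevPow (toMo h Mo) (toB h hb) s T := Iff.rfl

theorem pow_iff (h : IsRealReductive GR ρ) (Mo : HCModule GR ρ V) {m : ℕ} {b : Fin m → LieAlg GR}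
    (hb : IsInvBasis GR ρ b) (s : ℝ) (T : Module.End ℂ V) :
    IsSobolevPow Mo b s T ↔
      AV.FC (SG.lap (toMo h Mo) (toB h hb)) (fun c => (1 + c) ^ (s / 2)) T := Iff.rfl

variable [IsTopologicalGroup G] [T2Space G] [SecondCountableTopology G]

theorem diag (h : IsRealReductive GR ρ) (Mo : HCModule GR ρ V) {m : ℕ} {b : Fin m → LieAlg GR}
    (hb : IsInvBasis GR ρ b) : AV.Diag (SG.lap (toMo h Mo) (toB h hb)) := by
  obtain ⟨P⟩ := SG.all_pack G (toR h)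
  exact SG.all_eigA G (toR h) P (toB h hb) V (toMo h Mo)

theorem pow_exists (h : IsRealReductive GR ρ) (Mo : HCModule GR ρ V) {m : ℕ}
    {b : Fin m → LieAlg GR} (hb : IsInvBasis GR ρ b) (s : ℝ) :
    ∃ T : Module.End ℂ V, IsSobolevPow Mo b s T :=
  (AV.m_fc V _ (diag h Mo hb)).1 _

theorem pow_unique (h : IsRealReductive GR ρ) (Mo : HCModule GR ρ V) {m : ℕ}
    {b : Fin m → LieAlg GR} (hb : IsInvBasis GR ρ b) {s : ℝ} {T T' : Module.End ℂ V}
    (hT : IsSobolevPow Mo b s T) (hT' : IsSobolevPow Mo b s T') : T = T' :=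
  (AV.m_fc V _ (diag h Mo hb)).2 _ _ T T' ((pow_iff h Mo hb s T).1 hT)
    ((pow_iff h Mo hb s T').1 hT') (fun _ _ => rfl)

theorem toDS (h : IsRealReductive GR ρ) (Mo : HCModule GR ρ V) {m : ℕ} {b : Fin m → LieAlg GR}
    (hb : IsInvBasis GR ρ b) (p q : V → ℝ) :
    dSet Mo b p q = AV.dS (toMo h Mo) (toB h hb) p q := rfl

theorem toAvg (h : IsRealReductive GR ρ) (Mo : HCModule GR ρ V) {m : ℕ} {b : Fin m → LieAlg GR}
    (hb : IsInvBasis GR ρ b) (w : G → ℝ) {s : ℝ} {T : Module.End ℂ V} (hT : IsSobolevPow Mo b s T)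
    (p : V → ℝ) : avg Mo b w s p = AV.avgN (toMo h Mo) w p T := by
  funext v
  unfold avg AV.avgN
  congr 1
  ext r
  constructor
  · rintro ⟨T', hT', k, g, u, c, h1, h2, h3⟩
    obtain rfl := pow_unique h Mo hb hT' hT
    exact ⟨k, g, u, c, h1, fun i => (toValue h Mo w p T' _ _ _).1 (h2 i), h3⟩
  · rintro ⟨k, g, u, c, h1, h2, h3⟩
    exact ⟨T, hT, k, g, u, c, h1, fun i => (toValue h Mo w p T _ _ _).2 (h2 i), h3⟩

theorem pow_add (h : IsRealReductive GR ρ) (Mo : HCModule GR ρ V) {m : ℕ} {b : Fin m → LieAlg GR}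
    (hb : IsInvBasis GR ρ b) {s t : ℝ} {S T : Module.End ℂ V} (hS : IsSobolevPow Mo b s S)
    (hT : IsSobolevPow Mo b t T) : IsSobolevPow Mo b (s + t) (S * T) := by
  intro c v hv
  by_cases h0 : v = 0
  · simp [h0]
  have hc : 0 ≤ c := (diag h Mo hb).1 c v h0 hv
  have h1 : T v = (((1 + c) ^ (t / 2) : ℝ) : ℂ) • v := hT c v hv
  have h2 : S v = (((1 + c) ^ (s / 2) : ℝ) : ℂ) • v := hS c v hv
  rw [Module.End.mul_apply, h1, map_smul, h2, smul_smul, ← Complex.ofReal_mul,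
    ← Real.rpow_add (by linarith)]
  congr 3
  ring

theorem pow_zero (Mo : HCModule GR ρ V) {m : ℕ} (b : Fin m → LieAlg GR) :
    IsSobolevPow Mo b 0 (1 : Module.End ℂ V) := by
  intro c v _
  simp

theorem nonneg_of_norm {Mo : HCModule GR ρ V} {w : G → ℝ} {p : V → ℝ} (hp : IsNormIn Mo w p)
    (v : V) : 0 ≤ p v := by
  obtain ⟨E, i1, i2, i3, ι, π, -, h, -⟩ := hp
  rw [h v]
  exact norm_nonneg _

theorem dSet_nonempty (h : IsRealReductive GR ρ) (Mo : HCModule GR ρ V) {m : ℕ}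
    {b : Fin m → LieAlg GR} (hb : IsInvBasis GR ρ b) {w : G → ℝ} (hw : IsWeight w)
    {p q : V → ℝ} (hp : IsNormIn Mo w p) (hq : IsNormIn Mo w q) : (dSet Mo b p q).Nonempty := by
  obtain ⟨S, hS, H⟩ := SGP.main.{u} h hb hw
  obtain ⟨-, -, T, hT, hle⟩ := H V Mo ⟨p, hp⟩
  exact ⟨S, hS, T, hT, hle q p hq hp⟩

theorem dSet_bdd (Mo : HCModule GR ρ V) {m : ℕ} (b : Fin m → LieAlg GR) (p q : V → ℝ) :
    BddBelow (dSet Mo b p q) := ⟨0, fun s hs => hs.1⟩

theorem normLE_trans {p q r : V → ℝ} (hp : NormLE p q) (hq : NormLE q r) (h0 : ∀ v, 0 ≤ r v)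
    (hq0 : ∀ v, 0 ≤ q v) : NormLE p r := by
  obtain ⟨C, hC⟩ := hp
  obtain ⟨D, hD⟩ := hq
  refine ⟨|C| * |D|, fun v => ?_⟩
  have h1 : p v ≤ |C| * q v := (hC v).trans (mul_le_mul_of_nonneg_right (le_abs_self C) (hq0 v))
  have h2 : q v ≤ |D| * r v := (hD v).trans (mul_le_mul_of_nonneg_right (le_abs_self D) (h0 v))
  calc p v ≤ |C| * q v := h1
    _ ≤ |C| * (|D| * r v) := mul_le_mul_of_nonneg_left h2 (abs_nonneg C)
    _ = |C| * |D| * r v := by ring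

theorem dSet_add (h : IsRealReductive GR ρ) (Mo : HCModule GR ρ V) {m : ℕ}
    {b : Fin m → LieAlg GR} (hb : IsInvBasis GR ρ b) {w : G → ℝ}
    {p q r : V → ℝ} (hq : IsNormIn Mo w q) (hr : IsNormIn Mo w r)
    {s t : ℝ} (hs : s ∈ dSet Mo b p q) (ht : t ∈ dSet Mo b q r) : s + t ∈ dSet Mo b p r := by
  obtain ⟨hs0, S, hS, hpq⟩ := hs
  obtain ⟨ht0, T, hT, hqr⟩ := ht
  refine ⟨add_nonneg hs0 ht0, T * S, ?_, ?_⟩
  · rw [add_comm]
    exact pow_add h Mo hb hT hS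
  · refine normLE_trans hpq (q := fun v => q (S v)) ?_ (fun v => nonneg_of_norm hr _)
      (fun v => nonneg_of_norm hq _)
    obtain ⟨C, hC⟩ := hqr
    exact ⟨C, fun v => hC (S v)⟩

theorem one_triangle (h : IsRealReductive GR ρ) (Mo : HCModule GR ρ V) {m : ℕ}
    {b : Fin m → LieAlg GR} (hb : IsInvBasis GR ρ b) {w : G → ℝ} (hw : IsWeight w)
    {p q r : V → ℝ} (hp : IsNormIn Mo w p) (hq : IsNormIn Mo w q) (hr : IsNormIn Mo w r) :
    sInf (dSet Mo b p r) ≤ sInf (dSet Mo b p q) + sInf (dSet Mo b q r) := by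
  refine le_of_forall_pos_le_add fun ε hε => ?_
  obtain ⟨s, hs, hs'⟩ := exists_lt_of_csInf_lt (dSet_nonempty h Mo hb hw hp hq)
    (lt_add_of_pos_right (sInf (dSet Mo b p q)) (half_pos hε))
  obtain ⟨t, ht, ht'⟩ := exists_lt_of_csInf_lt (dSet_nonempty h Mo hb hw hq hr)
    (lt_add_of_pos_right (sInf (dSet Mo b q r)) (half_pos hε))
  have h1 := csInf_le (dSet_bdd Mo b p r) (dSet_add h Mo hb hq hr hs ht)
  linarith

theorem sdist_self (Mo : HCModule GR ρ V) {m : ℕ} (b : Fin m → LieAlg GR) (p : V → ℝ) :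
    sdist Mo b p p = 0 := by
  have h0 : (0 : ℝ) ∈ dSet Mo b p p := ⟨le_rfl, 1, pow_zero Mo b, 1, fun v => by simp⟩
  have h1 : sInf (dSet Mo b p p) = 0 :=
    le_antisymm (csInf_le (dSet_bdd Mo b p p) h0) (le_csInf ⟨0, h0⟩ fun s hs => hs.1)
  unfold sdist
  rw [h1, max_self]

theorem sdist_triangle (h : IsRealReductive GR ρ) (Mo : HCModule GR ρ V) {m : ℕ}
    {b : Fin m → LieAlg GR} (hb : IsInvBasis GR ρ b) {w : G → ℝ} (hw : IsWeight w)
    {p q r : V → ℝ} (hp : IsNormIn Mo w p) (hq : IsNormIn Mo w q) (hr : IsNormIn Mo w r) :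
    sdist Mo b p r ≤ sdist Mo b p q + sdist Mo b q r := by
  unfold sdist
  refine max_le ?_ ?_
  · exact (one_triangle h Mo hb hw hp hq hr).trans
      (add_le_add (le_max_left _ _) (le_max_left _ _))
  · refine (one_triangle h Mo hb hw hr hq hp).trans ?_
    rw [add_comm]
    exact add_le_add (le_max_right _ _) (le_max_right _ _)

/-- The pseudometric space `Norm(V, w)` with the pseudometric `d`. -/
noncomputable abbrev pms (h : IsRealReductive GR ρ) (Mo : HCModule GR ρ V) {m : ℕ}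
    {b : Fin m → LieAlg GR} (hb : IsInvBasis GR ρ b) {w : G → ℝ} (hw : IsWeight w) :
    PseudoMetricSpace (NormIn Mo w) where
  dist := fun p q => sdist Mo b p.1 q.1
  dist_self := fun p => sdist_self Mo b p.1
  dist_comm := fun p q => max_comm _ _
  dist_triangle := fun p q r => sdist_triangle h Mo hb hw p.2 q.2 r.2

theorem avg_mem (h : IsRealReductive GR ρ) (Mo : HCModule GR ρ V) {m : ℕ}
    {b : Fin m → LieAlg GR} (hb : IsInvBasis GR ρ b) {w : G → ℝ} (hw : IsWeight w)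
    {p : V → ℝ} (hp : IsNormIn Mo w p) {s : ℝ} (hs : 0 ≤ s) :
    IsNormIn Mo w (avg Mo b w s p) := by
  obtain ⟨T, hT⟩ := pow_exists h Mo hb s
  rw [toAvg h Mo hb w hT]
  exact (toNorm h Mo w _).2 (AV.all_avgN G (toR h) (toB h hb) w (toWeight hw) V (toMo h Mo) p
    ((toNorm h Mo w p).1 hp) s hs T hT).2.1

theorem value_unique (h : IsRealReductive GR ρ) (Mo : HCModule GR ρ V) {m : ℕ}
    {b : Fin m → LieAlg GR} (hb : IsInvBasis GR ρ b) {w : G → ℝ} (hw : IsWeight w)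
    {p : V → ℝ} (hp : IsNormIn Mo w p) {s : ℝ} (hs : 0 ≤ s) {T : Module.End ℂ V}
    (hT : IsSobolevPow Mo b s T) (g : G) (v : V) : ∃! c, IsValue Mo w p T g v c := by
  obtain ⟨c, hc, hc'⟩ := (AV.all_avgN G (toR h) (toB h hb) w (toWeight hw) V (toMo h Mo) p
    ((toNorm h Mo w p).1 hp) s hs T hT).1 g v
  exact ⟨c, (toValue h Mo w p T g v c).2 hc, fun y hy => hc' y ((toValue h Mo w p T g v y).1 hy)⟩

theorem one_lip (h : IsRealReductive GR ρ) (Mo : HCModule GR ρ V) {m : ℕ}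
    {b : Fin m → LieAlg GR} (hb : IsInvBasis GR ρ b) {w : G → ℝ} (hw : IsWeight w)
    {p p' : V → ℝ} (hp : IsNormIn Mo w p) (hp' : IsNormIn Mo w p') {s s' : ℝ} (hs : 0 ≤ s)
    (hs' : 0 ≤ s') :
    sInf (dSet Mo b (avg Mo b w s p) (avg Mo b w s' p')) ≤ |s - s'| + sInf (dSet Mo b p p') := by
  obtain ⟨T, hT⟩ := pow_exists h Mo hb s
  obtain ⟨T', hT'⟩ := pow_exists h Mo hb s'
  refine le_of_forall_pos_le_add fun ε hε => ?_
  obtain ⟨t, ht, ht'⟩ := exists_lt_of_csInf_lt (dSet_nonempty h Mo hb hw hp hp')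
    (lt_add_of_pos_right (sInf (dSet Mo b p p')) (half_pos hε))
  have h1 := AV.all_lip1 G (toR h) (toB h hb) w (toWeight hw) V (toMo h Mo) p p'
    ((toNorm h Mo w p).1 hp) ((toNorm h Mo w p').1 hp') s s' hs hs' T T' hT hT' t ht (ε / 2)
    (half_pos hε)
  rw [← toAvg h Mo hb w hT, ← toAvg h Mo hb w hT', ← toDS] at h1
  have h2 := csInf_le (dSet_bdd Mo b _ _) h1
  linarith

theorem lip (h : IsRealReductive GR ρ) (Mo : HCModule GR ρ V) {m : ℕ}
    {b : Fin m → LieAlg GR} (hb : IsInvBasis GR ρ b) {w : G → ℝ} (hw : IsWeight w)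
    {p p' : V → ℝ} (hp : IsNormIn Mo w p) (hp' : IsNormIn Mo w p') {s s' : ℝ} (hs : 0 ≤ s)
    (hs' : 0 ≤ s') :
    sdist Mo b (avg Mo b w s p) (avg Mo b w s' p') ≤ |s - s'| + sdist Mo b p p' := by
  unfold sdist
  refine max_le ?_ ?_
  · exact (one_lip h Mo hb hw hp hp' hs hs').trans (by gcongr; exact le_max_left _ _)
  · refine (one_lip h Mo hb hw hp' hp hs' hs).trans ?_
    rw [abs_sub_comm]
    gcongr
    exact le_max_right _ _

theorem final (h : IsRealReductive GR ρ) (Mo : HCModule GR ρ V) {m : ℕ}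
    {b : Fin m → LieAlg GR} (hb : IsInvBasis GR ρ b) {w : G → ℝ} (hw : IsWeight w) :
    (∀ s : ℝ, ∃! T : Module.End ℂ V, IsSobolevPow Mo b s T) ∧
    (∀ p q, IsNormIn Mo w p → IsNormIn Mo w q → (dSet Mo b p q).Nonempty) ∧
    (∀ (p : V → ℝ) (s : ℝ) (T : Module.End ℂ V), IsNormIn Mo w p → 0 ≤ s →
      IsSobolevPow Mo b s T → ∀ g v, ∃! c, IsValue Mo w p T g v c) ∧
    ∃ M : PseudoMetricSpace (NormIn Mo w), (∀ p q, M.dist p q = sdist Mo b p.1 q.1) ∧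
      ∃ Φ : {s : ℝ // 0 ≤ s} × NormIn Mo w → NormIn Mo w,
        (∀ s p, (Φ (s, p)).1 = avg Mo b w s.1 p.1) ∧ Continuous Φ ∧
        ∀ s p s' p', dist (Φ (s, p)) (Φ (s', p')) ≤ dist s s' + dist p p' := by
  letI := pms h Mo hb hw
  have hlip : ∀ x y : {s : ℝ // 0 ≤ s} × NormIn Mo w,
      dist (⟨avg Mo b w x.1.1 x.2.1, avg_mem h Mo hb hw x.2.2 x.1.2⟩ : NormIn Mo w)
        ⟨avg Mo b w y.1.1 y.2.1, avg_mem h Mo hb hw y.2.2 y.1.2⟩ ≤
        dist x.1 y.1 + dist x.2 y.2 :=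
    fun x y => lip h Mo hb hw x.2.2 y.2.2 x.1.2 y.1.2
  refine ⟨fun s => ?_, fun p q hp hq => dSet_nonempty h Mo hb hw hp hq,
    fun p s T hp hs hT g v => value_unique h Mo hb hw hp hs hT g v, pms h Mo hb hw,
    fun _ _ => rfl, fun x => ⟨avg Mo b w x.1.1 x.2.1, avg_mem h Mo hb hw x.2.2 x.1.2⟩,
    fun _ _ => rfl, ?_, fun s p s' p' => hlip (s, p) (s', p')⟩
  · obtain ⟨T, hT⟩ := pow_exists h Mo hb s
    exact ⟨T, hT, fun T' hT' => pow_unique h Mo hb hT' hT⟩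
  · have hL : LipschitzWith 2 (fun x : {s : ℝ // 0 ≤ s} × NormIn Mo w =>
        (⟨avg Mo b w x.1.1 x.2.1, avg_mem h Mo hb hw x.2.2 x.1.2⟩ : NormIn Mo w)) := by
      refine LipschitzWith.of_dist_le_mul fun x y => ?_
      refine (hlip x y).trans ?_
      have h2 : dist x.1 y.1 ≤ dist x y := by rw [Prod.dist_eq]; exact le_max_left _ _
      have h3 : dist x.2 y.2 ≤ dist x y := by rw [Prod.dist_eq]; exact le_max_right _ _
      have h4 : ((2 : NNReal) : ℝ) = 2 := rfl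
      rw [h4]
      linarith
    exact hL.continuous

end

end Pool.Agent.H913.AVP
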