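import Pool.Agent.H913.AV.Stmts

open MeasureTheory Matrix NormedSpace Filter Topology
open scoped Matrix

universe u

namespace Pool.Agent.H913.AV

open Pool.Agent.H913.SG

/-- the exponential of a diagonalized symmetric matrix -/
theorem gA_exp {n : ℕ} (U : M n) (hU : U * Uᵀ = 1) (L : Fin n → ℝ) (t : ℝ) :
    exp (t • (U * diagonal L * Uᵀ)) = U * diagonal (fun i => Real.exp (t * L i)) * Uᵀ := by
  have hinv : U⁻¹ = Uᵀ := Matrix.inv_eq_right_inv hU
  have hu : IsUnit U := (Matrix.isUnit_iff_isUnit_det U).2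
    (IsUnit.of_mul_eq_one Uᵀ.det (by rw [← Matrix.det_mul, hU, Matrix.det_one]))
  have h1 : t • (U * diagonal L * Uᵀ) = U * diagonal (t • L) * U⁻¹ := by
    rw [hinv, ← Matrix.smul_mul, ← Matrix.mul_smul, ← Matrix.diagonal_smul]
  rw [h1, Matrix.exp_conj _ _ hu, Matrix.exp_diagonal, hinv]
  congr 2
  congr 1
  funext i
  rw [Pi.coe_exp, Real.exp_eq_exp_ℝ]
  rfl

/-- Evaluation of exponential sums. -/
noncomputable def gA_ev (t : ℝ) : AddMonoidAlgebra ℝ ℝ →ₐ[ℝ] ℝ :=
  AddMonoidAlgebra.lift ℝ ℝ ℝ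
    { toFun := fun c => Real.exp (t * c.toAdd)
      map_one' := by simp
      map_mul' := by
        intro a b
        rw [toAdd_mul, mul_add, Real.exp_add] }

theorem gA_ev_single (t c a : ℝ) :
    gA_ev t (AddMonoidAlgebra.single c a) = a * Real.exp (t * c) := by
  simp [gA_ev, AddMonoidAlgebra.lift_single]

theorem gA_ev_apply (t : ℝ) (q : AddMonoidAlgebra ℝ ℝ) :
    gA_ev t q = q.coeff.sum fun c a => a * Real.exp (t * c) := by
  simp [gA_ev, AddMonoidAlgebra.lift_apply]

/-- An exponential sum which vanishes at all natural numbers is zero. -/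
theorem gA_zero (q : AddMonoidAlgebra ℝ ℝ) (h : ∀ m : ℕ, gA_ev m q = 0) : q = 0 := by
  let χ : ℝ → (Multiplicative ℕ →* ℝ) := fun c =>
    { toFun := fun m => Real.exp (m.toAdd * c)
      map_one' := by simp
      map_mul' := by
        intro a b
        rw [toAdd_mul, Nat.cast_add, add_mul, Real.exp_add] }
  have hχ : Function.Injective χ := by
    intro c c' hc
    have h1 := DFunLike.congr_fun hc (Multiplicative.ofAdd 1)
    have h2 : Real.exp (((1 : ℕ) : ℝ) * c) = Real.exp (((1 : ℕ) : ℝ) * c') := h1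
    rw [Nat.cast_one, one_mul, one_mul] at h2
    exact Real.exp_injective h2
  have hli := (linearIndependent_monoidHom (Multiplicative ℕ) ℝ).comp χ hχ
  have hsum : Finsupp.linearCombination ℝ (fun c => ((χ c : Multiplicative ℕ →* ℝ) :
      Multiplicative ℕ → ℝ)) q.coeff = 0 := by
    funext m
    have h1 := h m.toAdd
    rw [gA_ev_apply] at h1
    rw [Finsupp.linearCombination_apply, Finsupp.sum, Finset.sum_apply]
    exact h1
  have h3 : q.coeff = 0 := (linearIndependent_iff.1 hli) q.coeff hsum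
  exact AddMonoidAlgebra.coeff_injective (by rw [h3]; rfl)

/-- The spectral theorem for real positive definite matrices, in terms of transposes. -/
theorem gA_spec {n : ℕ} (A : M n) (hA : A.PosDef) :
    ∃ (U : M n) (l : Fin n → ℝ), U * Uᵀ = 1 ∧ (∀ i, 0 < l i) ∧ A = U * diagonal l * Uᵀ := by
  have hH := hA.isHermitian
  refine ⟨(hH.eigenvectorUnitary : M n), hH.eigenvalues, ?_, hA.eigenvalues_pos, ?_⟩
  · have h1 := (Unitary.mem_iff.1 hH.eigenvectorUnitary.2).2
    rw [Matrix.star_eq_conjTranspose, Matrix.conjTranspose_eq_transpose_of_trivial] at h1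
    exact h1
  · have h1 := hH.spectral_theorem
    rw [Unitary.conjStarAlgAut_apply, Matrix.star_eq_conjTranspose,
      Matrix.conjTranspose_eq_transpose_of_trivial] at h1
    exact h1

/-- The matrices `exp (tY)` of a positive definite matrix `exp Y` of `GR` lie in `GR`. -/
theorem gA_lie {G : Type} [Group G] [TopologicalSpace G] (R : RealReductive G) (U : M R.n)
    (hU : U * Uᵀ = 1) (L : Fin R.n → ℝ)
    (h : ∀ m : ℕ, ∃ a ∈ R.GR, (a : M R.n) = exp ((m : ℝ) • (U * diagonal L * Uᵀ))) :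
    U * diagonal L * Uᵀ ∈ R.lie := by
  obtain ⟨S, hS⟩ := R.algebraic
  set Y : M R.n := U * diagonal L * Uᵀ with hY
  let E : Fin R.n × Fin R.n → AddMonoidAlgebra ℝ ℝ := fun ij =>
    ∑ k, AddMonoidAlgebra.single (L k) (U ij.1 k * U ij.2 k)
  have hE : ∀ (t : ℝ) (ij : Fin R.n × Fin R.n), gA_ev t (E ij) = (exp (t • Y)) ij.1 ij.2 := by
    intro t ij
    rw [hY, gA_exp U hU L t, map_sum]
    simp only [gA_ev_single]
    rw [Matrix.mul_apply]
    refine Finset.sum_congr rfl fun k _ => ?_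
    rw [Matrix.mul_diagonal, Matrix.transpose_apply]
    ring
  have hq : ∀ (t : ℝ) (f : MvPolynomial (Fin R.n × Fin R.n) ℝ),
      gA_ev t (MvPolynomial.aeval E f) =
        MvPolynomial.eval (fun ij => (exp (t • Y)) ij.1 ij.2) f := by
    intro t f
    have h1 : (gA_ev t).comp (MvPolynomial.aeval E) =
        MvPolynomial.aeval (fun ij : Fin R.n × Fin R.n => (exp (t • Y)) ij.1 ij.2) := by
      apply MvPolynomial.algHom_ext
      intro ij
      simp [hE]
    have h2 := DFunLike.congr_fun h1 f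
    rw [AlgHom.comp_apply] at h2
    rw [h2]
    exact DFunLike.congr_fun (MvPolynomial.coe_aeval_eq_eval _) f
  intro t
  refine ⟨⟨exp (t • Y), exp (-(t • Y)), ?_, ?_⟩, ?_, rfl⟩
  · rw [← Matrix.exp_add_of_commute (t • Y) (-(t • Y)) (Commute.neg_right (Commute.refl (t • Y)))]
    simp
  · rw [← Matrix.exp_add_of_commute (-(t • Y)) (t • Y) (Commute.neg_left (Commute.refl (t • Y)))]
    simp
  · rw [hS]
    intro f hf
    have h0 : MvPolynomial.aeval E f = 0 := by
      apply gA_zero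
      intro m
      rw [hq]
      obtain ⟨a, ha, hae⟩ := h m
      rw [← hae]
      exact (hS a).1 ha f hf
    have h1 := hq t f
    rw [h0, map_zero] at h1
    exact h1.symm

/-- TARGET -/
theorem g_polar : S_polar := by
  intro G _ _ _ _ _ R P g
  obtain ⟨a, ha, hag⟩ := R.transpose_mem (R.ρ g) (R.ρ_mem g)
  set A : M R.n := (R.ρ g : M R.n)ᵀ * (R.ρ g : M R.n) with hA
  have hAmem : ((a * R.ρ g : GL (Fin R.n) ℝ) : M R.n) = A := by
    rw [Units.val_mul, hag]
  have hinj : Function.Injective (R.ρ g : M R.n).mulVec :=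
    Matrix.mulVec_injective_of_isUnit (R.ρ g).isUnit
  have hpos : A.PosDef := by
    have h1 := Matrix.PosDef.conjTranspose_mul_self (R.ρ g : M R.n) hinj
    rw [Matrix.conjTranspose_eq_transpose_of_trivial] at h1
    exact h1
  obtain ⟨U, l, hU, hl, hAU⟩ := gA_spec A hpos
  let L : Fin R.n → ℝ := fun i => Real.log (l i)
  have hUT : Uᵀ * U = 1 := mul_eq_one_comm.1 hU
  have hexp1 : exp (U * diagonal L * Uᵀ) = A := by
    have h1 := gA_exp U hU L 1
    rw [one_smul] at h1
    rw [h1, hAU]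
    congr 3
    funext i
    rw [one_mul, Real.exp_log (hl i)]
  have hYm : U * diagonal L * Uᵀ ∈ R.lie := by
    apply gA_lie R U hU L
    intro m
    refine ⟨(a * R.ρ g) ^ m, R.GR.pow_mem (R.GR.mul_mem ha (R.ρ_mem g)) m, ?_⟩
    rw [Units.val_pow_eq_pow_val, hAmem, ← hexp1, ← Matrix.exp_nsmul, Nat.cast_smul_eq_nsmul]
  set Y : M R.n := U * diagonal L * Uᵀ with hY
  have hYT : Yᵀ = Y := by
    rw [hY, Matrix.transpose_mul, Matrix.transpose_mul, Matrix.transpose_transpose,
      Matrix.diagonal_transpose, Matrix.mul_assoc]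
  let X : R.lie := (1 / 2 : ℝ) • ⟨Y, hYm⟩
  have hX : X.1 = (1 / 2 : ℝ) • Y := rfl
  have hB : (R.ρ (P.gam X 1) : M R.n) = exp ((1 / 2 : ℝ) • Y) := by
    rw [(P.gam_spec X).2.2 1, one_smul, hX]
  have hBT : ((R.ρ (P.gam X 1) : M R.n))ᵀ = (R.ρ (P.gam X 1) : M R.n) := by
    rw [hB, ← Matrix.exp_transpose, Matrix.transpose_smul, hYT]
  have hBB : (R.ρ (P.gam X 1) : M R.n) * (R.ρ (P.gam X 1) : M R.n) = A := by
    rw [hB, ← Matrix.exp_add_of_commute _ _ (Commute.refl _), ← add_smul, ← hexp1]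
    congr 1
    norm_num
  refine ⟨g * (P.gam X 1)⁻¹, ?_, X, by group⟩
  show RealReductive.IsOrth (R.ρ (g * (P.gam X 1)⁻¹) : M R.n)
  have hk : (R.ρ (g * (P.gam X 1)⁻¹) : M R.n) * (R.ρ (P.gam X 1) : M R.n) = (R.ρ g : M R.n) := by
    rw [← Units.val_mul, ← map_mul]
    congr 2
    group
  set k : M R.n := (R.ρ (g * (P.gam X 1)⁻¹) : M R.n) with hkdef
  set B : M R.n := (R.ρ (P.gam X 1) : M R.n) with hBdef
  have hBu : IsUnit B := (R.ρ (P.gam X 1)).isUnit
  show kᵀ * k = 1
  have h1 : B * (kᵀ * k) * B = B * 1 * B := by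
    have h2 : Bᵀ * kᵀ * (k * B) = A := by
      rw [← Matrix.transpose_mul, hk]
    rw [hBT] at h2
    calc B * (kᵀ * k) * B = B * kᵀ * (k * B) := by simp only [Matrix.mul_assoc]
      _ = A := h2
      _ = B * 1 * B := by rw [Matrix.mul_one, hBB]
  exact hBu.mul_left_cancel (hBu.mul_right_cancel h1)

end Pool.Agent.H913.AV
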