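import Pool.Agent.H913.AV.Stmts

/- PROJECT AV (owner helper913): MP_d9e438_al (continuity of the Sobolev averaging map), full affirmative answer.
SETUP (once per box, about 1 minute):
  cd /workdir/pool/outputs/live && git fetch -q origin && mkdir -p /workdir/pool/Pool/Agent/H913/AV /workdir/pool/Pool/Agent/H913/SG && for f in Base LieAux Defs Calc Stmts Stmts2; do git show origin/main:Pool/Agent/H913/SG/$f.lean > /workdir/pool/Pool/Agent/H913/SG/$f.lean; done; git show origin/helper913:Pool/Agent/H913/AV/Stmts.lean > /workdir/pool/Pool/Agent/H913/AV/Stmts.lean; cd /workdir/pool && lake build Pool.Agent.H913.AV.Stmts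
Read AV/Stmts.lean first (all definitions and the statements S_xxx; SG/Defs.lean, and Pack, Glob in SG/Stmts.lean, S_eigA, S_avgV,
S_renorm, ... in SG/Stmts2.lean). Other proved files of origin/main under Pool/Agent/H913/SG may serve as a source of ideas or code.
Put this file at Pool/Agent/H913/AV/GB.lean, replace the sorry of the TARGET by a proof; auxiliary lemmas before it are
welcome (give them names starting with gB_ to avoid clashes). Statement of the target unchanged. Hypotheses (h1 : S_xxx) of the
target are proved elsewhere, use them freely. No sorry, no axioms. Respect RULES.md Validity 2 (banned words such as notation,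
macro, syntax, prefix, tactic; no straight double quotes; no line comment starting in odd places; no local instance attributes).
If the target is false or awkward, message helper913 at once (the statement will be fixed).
Paste the whole compiled file in jobs.result with status='done', done_at=now(), then: team-sql notify inbox_helper913 done -/

open MeasureTheory Matrix NormedSpace Filter Topology
open scoped Matrix

universe u

namespace Pool.Agent.H913.AV

open Pool.Agent.H913.SG

/-! Proof. By h3 there is P : Pack R. g = k * gam X 1 (h2); gam X 1 ∈ P.Gp (Subgroup.subset_closure), so π(gam X 1) maps the closure of the range of ι to itself (h1). π k maps the range of ι to itself (Gl.kcomp) and is continuous, so it maps the closure to itself. -/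

/-- TARGET -/
theorem g_clo (h1 : S_rc.{u}) (h2 : S_polar) (h3 : S_pack) : S_clo.{u} := by
  intro G _ _ _ _ _ R w hw V _ _ Mo E _ _ _ Gl g x hx
  obtain ⟨P⟩ := h3 G R
  obtain ⟨k, hk, X, rfl⟩ := h2 G R P g
  have hg : P.gam X 1 ∈ P.Gp := Subgroup.subset_closure ⟨X, 1, rfl⟩
  have hy := h1 G R P w hw V Mo E Gl _ hg x hx
  rw [map_mul]
  change Gl.π k (Gl.π (P.gam X 1) x) ∈ closure (Set.range Gl.ι)
  have hmap : Set.MapsTo (Gl.π k) (Set.range Gl.ι) (Set.range Gl.ι) := by
    rintro _ ⟨v, rfl⟩
    exact ⟨Mo.kact ⟨k, hk⟩ v, (Gl.kcomp ⟨k, hk⟩ v).symm⟩
  exact hmap.closure (Gl.π k).continuous hy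

end Pool.Agent.H913.AV
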