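import Pool.Agent.H913.AV.Stmts

/-! Smoothing operators. -/

open MeasureTheory Matrix NormedSpace Filter Topology
open scoped Matrix

universe u

namespace Pool.Agent.H913.AV

open Pool.Agent.H913.SG

section gCaux

variable {G : Type} [Group G] [TopologicalSpace G] {R : RealReductive G}
  {V : Type u} [AddCommGroup V] [Module ℂ V]

theorem gC_dist_cont (s : KRep R) : Continuous s.dist := by
  unfold KRep.dist fro
  refine Real.continuous_sqrt.comp ?_
  refine continuous_finsetSum _ fun i _ => continuous_finsetSum _ fun j _ => ?_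
  refine Continuous.pow ?_ 2
  simp only [Matrix.sub_apply]
  exact (s.cont.matrix_elem i j).sub continuous_const

theorem gC_dist_nonneg (s : KRep R) (k : R.K) : 0 ≤ s.dist k := Real.sqrt_nonneg _

theorem gC_dist_zero (s : KRep R) {k : R.K} (h : s.dist k = 0) : s.σ k = 1 := by
  unfold KRep.dist fro at h
  have h1 : ∑ i, ∑ j, ((s.σ k - 1) i j) ^ 2 = 0 :=
    (Real.sqrt_eq_zero (Finset.sum_nonneg fun i _ => Finset.sum_nonneg fun j _ => sq_nonneg _)).1 h
  have h2 := (Finset.sum_eq_zero_iff_of_nonneg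
    (fun i _ => Finset.sum_nonneg fun j _ => sq_nonneg _)).1 h1
  rw [← sub_eq_zero]
  ext i j
  have h3 := (Finset.sum_eq_zero_iff_of_nonneg (fun j _ => sq_nonneg _)).1
    (h2 i (Finset.mem_univ i)) j (Finset.mem_univ j)
  exact pow_eq_zero_iff (two_ne_zero) |>.1 h3

theorem gC_ext {x y : V} (h : ∀ φ : V →ₗ[ℂ] ℂ, φ x = φ y) : x = y := by
  have h1 : ∀ φ : Module.Dual ℂ V, φ (x - y) = 0 := fun φ => by rw [map_sub, h φ, sub_self]
  exact sub_eq_zero.1 ((Module.forall_dual_apply_eq_zero_iff ℂ _).1 h1)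

theorem gC_contW (s : KRep R) {N : ℕ} {F : R.K → ℂ} (hF : F ∈ s.W N) : Continuous F := by
  obtain ⟨p, _, hp'⟩ := hF
  have h : F = fun k : R.K =>
      MvPolynomial.eval (fun ij : Fin s.n' × Fin s.n' => ((s.σ k ij.1 ij.2 : ℝ) : ℂ)) p :=
    funext hp'
  rw [h]
  refine (MvPolynomial.continuous_eval p).comp (continuous_pi fun ij => ?_)
  exact Complex.continuous_ofReal.comp (s.cont.matrix_elem ij.1 ij.2)

end gCaux

section gCop

variable {K : Type} [TopologicalSpace K] [CompactSpace K] [MeasurableSpace K]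
  [OpensMeasurableSpace K] (μ : Measure K) [IsProbabilityMeasure μ]
  {E : Type u} [NormedAddCommGroup E] [NormedSpace ℂ E] [CompleteSpace E]
  (ρ : K → (E →L[ℂ] E)) (hρ : ∀ x, Continuous fun k => ρ k x)

include hρ in
theorem gC_op (f : K → ℝ) (hf : Continuous f) (hf0 : ∀ k, 0 ≤ f k) (hf1 : ∫ k, f k ∂μ = 1) :
    ∃ A : E →L[ℂ] E, ∀ x, A x = ∫ k, (f k : ℂ) • ρ k x ∂μ := by
  have hne : Nonempty K := by
    by_contra h
    rw [not_nonempty_iff] at h
    have := measure_univ (μ := μ)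
    rw [Set.univ_eq_empty_iff.2 h] at this
    simp at this
  obtain ⟨CK, hCK⟩ : ∃ C, ∀ k : K, ‖ρ k‖ ≤ C := by
    refine banach_steinhaus fun y => ?_
    obtain ⟨C, hC⟩ := isCompact_univ.exists_bound_of_continuousOn (hρ y).continuousOn
    exact ⟨C, fun k => hC k (Set.mem_univ _)⟩
  have hint : ∀ (g : K → E), Continuous g → Integrable g μ := fun g hg =>
    hg.integrable_of_hasCompactSupport (HasCompactSupport.of_compactSpace g)
  have hintR : ∀ (g : K → ℝ), Continuous g → Integrable g μ := fun g hg =>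
    hg.integrable_of_hasCompactSupport (HasCompactSupport.of_compactSpace g)
  have hfc : Continuous fun k => (f k : ℂ) := Complex.continuous_ofReal.comp hf
  have hc1 : ∀ x, Continuous fun k => (f k : ℂ) • ρ k x := fun x => hfc.smul (hρ x)
  have hnorm : ∀ x, ‖∫ k, (f k : ℂ) • ρ k x ∂μ‖ ≤ CK * ‖x‖ := by
    intro x
    have h1 : ‖∫ k, (f k : ℂ) • ρ k x ∂μ‖ ≤ ∫ k, f k * (CK * ‖x‖) ∂μ := by
      refine norm_integral_le_of_norm_le (hintR _ (hf.mul continuous_const)) ?_
      refine Filter.Eventually.of_forall fun k => ?_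
      rw [norm_smul, Complex.norm_real, Real.norm_of_nonneg (hf0 k)]
      exact mul_le_mul_of_nonneg_left (((ρ k).le_opNorm x).trans
        (mul_le_mul_of_nonneg_right (hCK k) (norm_nonneg x))) (hf0 k)
    rw [integral_mul_const, hf1, one_mul] at h1
    exact h1
  let A0 : E →ₗ[ℂ] E :=
    { toFun := fun x => ∫ k, (f k : ℂ) • ρ k x ∂μ
      map_add' := by
        intro x y
        have h : ∀ k, (f k : ℂ) • ρ k (x + y) = (f k : ℂ) • ρ k x + (f k : ℂ) • ρ k y := by
          intro k; rw [map_add, smul_add]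
        simp only [h]
        rw [integral_add (hint _ (hc1 x)) (hint _ (hc1 y))]
      map_smul' := by
        intro c x
        have h : ∀ k, (f k : ℂ) • ρ k (c • x) = c • ((f k : ℂ) • ρ k x) := by
          intro k; rw [map_smul, smul_comm]
        simp only [h, RingHom.id_apply]
        rw [integral_smul] }
  exact ⟨A0.mkContinuous CK hnorm, fun x => rfl⟩

include hρ in
/-- closed stable subspaces are stable under averages -/
theorem gC_stable (f : K → ℝ) (hf : Continuous f) (W : Submodule ℂ E) (hW : IsClosed (W : Set E))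
    (hs : ∀ k, ∀ x ∈ W, ρ k x ∈ W) (x : E) (hx : x ∈ W) : ∫ k, (f k : ℂ) • ρ k x ∂μ ∈ W := by
  have : CompleteSpace W := hW.completeSpace_coe
  have hfc : Continuous fun k => (f k : ℂ) := Complex.continuous_ofReal.comp hf
  have hmem : ∀ k, (f k : ℂ) • ρ k x ∈ W := fun k => W.smul_mem _ (hs k x hx)
  let g : K → W := fun k => ⟨(f k : ℂ) • ρ k x, hmem k⟩
  have hg : Continuous g := (hfc.smul (hρ x)).subtype_mk _
  have h1 := ContinuousLinearMap.integral_comp_comm (μ := μ) W.subtypeL (φ := g)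
    (hg.integrable_of_hasCompactSupport (HasCompactSupport.of_compactSpace g))
  have h2 : ∫ k, (f k : ℂ) • ρ k x ∂μ = W.subtypeL (∫ k, g k ∂μ) := h1
  rw [h2]
  exact (∫ k, g k ∂μ).2

/-- a continuous function vanishing where `d` vanishes is small up to a multiple of `d` -/
theorem gC_small {K : Type} [TopologicalSpace K] [CompactSpace K] (φ d : K → ℝ)
    (hφ : Continuous φ) (hd : Continuous d) (hd0 : ∀ k, 0 ≤ d k) (h : ∀ k, d k = 0 → φ k = 0)
    (ε : ℝ) (hε : 0 < ε) : ∃ M : ℝ, 0 ≤ M ∧ ∀ k, φ k ≤ ε + M * d k := by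
  obtain ⟨C, hC⟩ := isCompact_univ.exists_bound_of_continuousOn hφ.continuousOn
  have hS : IsCompact {k | ε ≤ φ k} := (isClosed_le continuous_const hφ).isCompact
  rcases Set.eq_empty_or_nonempty {k | ε ≤ φ k} with he | hne
  · refine ⟨0, le_rfl, fun k => ?_⟩
    have : k ∉ {k | ε ≤ φ k} := by rw [he]; exact Set.notMem_empty k
    have h1 : φ k < ε := not_le.1 this
    linarith
  · obtain ⟨k0, hk0, hmin⟩ := hS.exists_isMinOn hne hd.continuousOn
    have hk0' : ε ≤ φ k0 := hk0
    have hpos : 0 < d k0 := by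
      refine lt_of_le_of_ne (hd0 k0) fun h0 => ?_
      have := h k0 h0.symm
      linarith
    have hCk0 : φ k0 ≤ C := (le_abs_self _).trans (hC k0 (Set.mem_univ _))
    have hC0 : 0 ≤ C := by linarith
    refine ⟨C / d k0, by positivity, fun k => ?_⟩
    by_cases hk : ε ≤ φ k
    · have h1 : d k0 ≤ d k := hmin hk
      have h2 : φ k ≤ C := (le_abs_self _).trans (hC k (Set.mem_univ _))
      have h3 : C ≤ C / d k0 * d k := by
        rw [div_mul_eq_mul_div, le_div_iff₀ hpos]
        exact mul_le_mul_of_nonneg_left h1 hC0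
      linarith
    · have h1 : 0 ≤ C / d k0 * d k := mul_nonneg (by positivity) (hd0 k)
      linarith [not_le.1 hk]

include hρ in
theorem gC_tendsto (f : ℕ → K → ℝ) (hf : ∀ j, Continuous (f j)) (hf0 : ∀ j k, 0 ≤ f j k)
    (hf1 : ∀ j, ∫ k, f j k ∂μ = 1) (d : K → ℝ) (hd : Continuous d) (hd0 : ∀ k, 0 ≤ d k) (C : ℝ)
    (hfd : ∀ j : ℕ, ∫ k, f j k * d k ∂μ ≤ C / ((j : ℝ) + 1)) (x : E)
    (hx : ∀ k, d k = 0 → ρ k x = x) :
    Tendsto (fun j => ∫ k, (f j k : ℂ) • ρ k x ∂μ) atTop (𝓝 x) := by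
  have hint : ∀ (g : K → E), Continuous g → Integrable g μ := fun g hg =>
    hg.integrable_of_hasCompactSupport (HasCompactSupport.of_compactSpace g)
  have hintR : ∀ (g : K → ℝ), Continuous g → Integrable g μ := fun g hg =>
    hg.integrable_of_hasCompactSupport (HasCompactSupport.of_compactSpace g)
  have hφc : Continuous fun k => ‖ρ k x - x‖ := ((hρ x).sub continuous_const).norm
  have key : ∀ j, ‖(∫ k, (f j k : ℂ) • ρ k x ∂μ) - x‖ ≤ ∫ k, f j k * ‖ρ k x - x‖ ∂μ := by
    intro j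
    have hfc : Continuous fun k => (f j k : ℂ) := Complex.continuous_ofReal.comp (hf j)
    have e1 : (∫ k, (f j k : ℂ) • ρ k x ∂μ) - x = ∫ k, (f j k : ℂ) • (ρ k x - x) ∂μ := by
      have i1 : Integrable (fun k => (f j k : ℂ) • ρ k x) μ := hint _ (hfc.smul (hρ x))
      have i2 : Integrable (fun k => (f j k : ℂ) • x) μ := hint _ (hfc.smul continuous_const)
      simp only [smul_sub]
      rw [integral_sub i1 i2,
        integral_smul_const, integral_complex_ofReal, hf1, Complex.ofReal_one, one_smul]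
    rw [e1]
    refine norm_integral_le_of_norm_le (hintR _ ((hf j).mul hφc)) ?_
    refine Filter.Eventually.of_forall fun k => ?_
    rw [norm_smul, Complex.norm_real, Real.norm_of_nonneg (hf0 j k)]
  rw [Metric.tendsto_atTop]
  intro ε hε
  obtain ⟨M, hM0, hM⟩ := gC_small (fun k => ‖ρ k x - x‖) d hφc hd hd0
    (fun k hk => by simp [hx k hk]) (ε / 2) (by linarith)
  obtain ⟨J, hJ⟩ := exists_nat_gt (M * C / (ε / 2))
  refine ⟨J, fun j hj => ?_⟩
  rw [dist_eq_norm]
  have h1 : ∫ k, f j k * ‖ρ k x - x‖ ∂μ ≤ ∫ k, (f j k * (ε / 2) + M * (f j k * d k)) ∂μ := by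
    refine integral_mono (hintR _ ((hf j).mul hφc))
      (hintR _ (((hf j).mul continuous_const).add (continuous_const.mul ((hf j).mul hd))))
      fun k => ?_
    have := mul_le_mul_of_nonneg_left (hM k) (hf0 j k)
    simp only at this ⊢
    calc _ ≤ _ := this
      _ = _ := by ring
  have i1 : Integrable (fun k => f j k * (ε / 2)) μ := hintR _ ((hf j).mul continuous_const)
  have i2 : Integrable (fun k => M * (f j k * d k)) μ :=
    hintR _ (continuous_const.mul ((hf j).mul hd))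
  rw [integral_add i1 i2, integral_mul_const, hf1, one_mul, integral_const_mul] at h1
  have h2 : M * ∫ k, f j k * d k ∂μ ≤ M * (C / ((j : ℝ) + 1)) :=
    mul_le_mul_of_nonneg_left (hfd j) hM0
  have hj' : (J : ℝ) ≤ j := by exact_mod_cast hj
  have hj0 : (0 : ℝ) ≤ j := Nat.cast_nonneg j
  have h3 : M * (C / ((j : ℝ) + 1)) < ε / 2 := by
    rw [← mul_div_assoc, div_lt_iff₀ (by linarith)]
    rw [div_lt_iff₀ (by linarith)] at hJ
    nlinarith
  have h4 := key j
  linarith

end gCop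

/-- TARGET -/
theorem g_sm (h1 : S_pack) (h2 : S_krep.{u}) (h3 : S_kernel) (h4 : S_avgV.{u}) (h5 : S_Ufin.{u}) :
    S_sm.{u} := by
  intro G _ _ _ _ _ R V _ _ Mo
  obtain ⟨P⟩ := h1 G R
  obtain ⟨s, hs, -⟩ := h2 G R P V Mo
  have hcK : CompactSpace R.K := P.compactK
  let _ : MeasurableSpace R.K := borel R.K
  have : BorelSpace R.K := ⟨rfl⟩
  let μ : Measure R.K := Measure.haarMeasure ⊤
  have : IsProbabilityMeasure μ := ⟨by
    have := Measure.haarMeasure_self (G := R.K) (K₀ := ⊤)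
    simpa using this⟩
  obtain ⟨C₂, C₃, hC2, hC3, hker⟩ := h3 G R P s μ
  have hker' : ∀ j : ℕ, ∃ f : R.K → ℝ, (fun k => (f k : ℂ)) ∈ s.W (C₂ * (j + 1)) ∧
      (∀ k, 0 ≤ f k) ∧ ∫ k, f k ∂μ = 1 ∧ ∫ k, f k * s.dist k ∂μ ≤ C₃ / ((j : ℝ) + 1) := by
    intro j
    obtain ⟨f, a, b, c, d⟩ := hker (j + 1) (by omega)
    refine ⟨f, a, b, c, ?_⟩
    push_cast at d
    exact d
  choose f hfW hf0 hf1 hfd using hker'
  have hfc : ∀ j, Continuous fun k => (f j k : ℂ) := fun j => gC_contW s (hfW j)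
  have hfr : ∀ j, Continuous (f j) := fun j => by
    have := Complex.continuous_re.comp (hfc j)
    exact this
  obtain ⟨hA, hA'⟩ := h4 G R P s μ V Mo
  have hex : ∀ (j : ℕ) (v : V), ∃ x : V, ∀ φ : V →ₗ[ℂ] ℂ,
      φ x = ∫ k, (f j k : ℂ) * φ (Mo.kact k v) ∂μ := by
    intro j v
    obtain ⟨x, _, hx⟩ := hA _ (hfc j) v
    exact ⟨x, hx⟩
  choose A hAs using hex
  refine ⟨fun j => s.U Mo (C₂ * (j + 1)), A, fun j => (h5 G R P s V Mo hs).1 _,
    fun j v => hA' _ _ (hfW j) _ v (hAs j v), ?_, ?_⟩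
  · intro T hT j v
    refine gC_ext fun φ => ?_
    have e1 := hAs j (T v) φ
    have e2 := hAs j v (φ ∘ₗ T)
    rw [e1]
    rw [LinearMap.comp_apply] at e2
    rw [e2]
    refine integral_congr_ae (Filter.Eventually.of_forall fun k => ?_)
    have e3 : Mo.kact k (T v) = T (Mo.kact k v) := LinearMap.congr_fun (hT k) v
    simp only [e3, LinearMap.comp_apply]
  · intro w hw E _ _ _ Gl
    have horb : ∀ y : E, Continuous fun k : R.K => Gl.π k.1 y :=
      fun y => (Gl.cont y).comp continuous_subtype_val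
    have hop : ∀ j, ∃ A : E →L[ℂ] E, ∀ x, A x = ∫ k, (f j k : ℂ) • Gl.π k.1 x ∂μ := fun j =>
      gC_op μ (fun k : R.K => Gl.π k.1) horb (f j) (hfr j) (hf0 j) (hf1 j)
    choose Ah hAh using hop
    have hint : ∀ (j : ℕ) (y : E), Integrable (fun k : R.K => (f j k : ℂ) • Gl.π k.1 y) μ :=
      fun j y => ((hfc j).smul (horb y)).integrable_of_hasCompactSupport
        (HasCompactSupport.of_compactSpace _)
    refine ⟨Ah, ?_, ?_, ?_⟩
    · intro j v
      rw [SeparatingDual.eq_iff_forall_dual_eq (R := ℂ)]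
      intro ℓ
      have e1 := hAs j v (ℓ.toLinearMap ∘ₗ Gl.ι)
      simp only [LinearMap.comp_apply, ContinuousLinearMap.coe_coe] at e1
      rw [e1, hAh, ← ContinuousLinearMap.integral_comp_comm ℓ (hint j _)]
      refine integral_congr_ae (Filter.Eventually.of_forall fun k => ?_)
      simp only [map_smul, smul_eq_mul]
      rw [Gl.kcomp k v]
    · intro x hx
      simp only [hAh]
      refine gC_tendsto μ (fun k : R.K => Gl.π k.1) horb f hfr hf0 hf1 s.dist (gC_dist_cont s)
        (gC_dist_nonneg s) C₃ hfd x fun k hk => ?_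
      have hk1 : Mo.kact k = 1 := hs k (gC_dist_zero s hk)
      have hcl : IsClosed {y : E | Gl.π k.1 y = y} :=
        isClosed_eq (Gl.π k.1).continuous continuous_id
      have hsub : Set.range Gl.ι ⊆ {y : E | Gl.π k.1 y = y} := by
        rintro _ ⟨v, rfl⟩
        show Gl.π k.1 (Gl.ι v) = Gl.ι v
        rw [Gl.kcomp k v, hk1]
        rfl
      exact closure_minimal hsub hcl hx
    · intro j W hW hst x hx
      rw [hAh]
      exact gC_stable μ (fun k : R.K => Gl.π k.1) horb (f j) (hfr j) W hW hst x hx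

end Pool.Agent.H913.AV
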