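import Pool.Agent.H913.AV.Stmts

open MeasureTheory Matrix NormedSpace Filter Topology
open scoped Matrix

universe u

namespace Pool.Agent.H913.AV

open Pool.Agent.H913.SG

/-! Proof. Take U, A, Ah from h1. Let x be in the closure of range ι with W = span of the orbit Kx finite-dimensional (closed, K-stable, contains x since 1 ∈ K). ι(U j) is finite-dimensional, so closed, and Ah j maps range ι into ι(U j), hence its closure into ι(U j); so Ah j x ∈ W ∩ range ι. The subspace W ∩ range ι is finite-dimensional, so closed; Ah j x → x, so x ∈ W ∩ range ι. -/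

/-- TARGET -/
theorem g_kfin (h1 : S_sm.{u}) : S_kfin.{u} := by
  intro G _ _ _ _ _ R w hw V _ _ Mo E _ _ _ Gl x hx hfd
  obtain ⟨U, A, hU, hA, -, hall⟩ := h1 G R V Mo
  obtain ⟨Ah, hAh, hlim, hW⟩ := hall w hw E Gl
  set W := Submodule.span ℂ (Set.range fun k : R.K => Gl.π k.1 x) with hWdef
  have hWc : IsClosed (W : Set E) := Submodule.closed_of_finiteDimensional W
  have hWK : ∀ k : R.K, ∀ y ∈ W, Gl.π k.1 y ∈ W := by
    intro k y hy
    induction hy using Submodule.span_induction with
    | mem y hy =>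
      obtain ⟨k', rfl⟩ := hy
      refine Submodule.subset_span ⟨k * k', ?_⟩
      show Gl.π (k.1 * k'.1) x = Gl.π k.1 (Gl.π k'.1 x)
      rw [map_mul]; rfl
    | zero => rw [map_zero]; exact W.zero_mem
    | add a b _ _ ha hb => rw [map_add]; exact W.add_mem ha hb
    | smul c a _ ha => rw [map_smul]; exact W.smul_mem c ha
  have hxW : x ∈ W := Submodule.subset_span ⟨1, by
    show Gl.π ((1 : R.K) : G) x = x
    rw [OneMemClass.coe_one, map_one]; rfl⟩
  have hmem : ∀ j, Ah j x ∈ LinearMap.range Gl.ι := by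
    intro j
    have := hU j
    have hc : IsClosed ((Submodule.map Gl.ι (U j) : Submodule ℂ E) : Set E) :=
      Submodule.closed_of_finiteDimensional _
    have h2 := map_mem_closure (Ah j).continuous hx
      (t := ((Submodule.map Gl.ι (U j) : Submodule ℂ E) : Set E)) (by
        rintro _ ⟨v, rfl⟩
        rw [hAh]
        exact Submodule.mem_map_of_mem (hA j v))
    rw [hc.closure_eq] at h2
    obtain ⟨v, _, hv⟩ := Submodule.mem_map.1 h2
    exact ⟨v, hv⟩
  have hfd2 : FiniteDimensional ℂ (W ⊓ LinearMap.range Gl.ι : Submodule ℂ E) :=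
    Submodule.finiteDimensional_inf_left _ _
  have hYc : IsClosed ((W ⊓ LinearMap.range Gl.ι : Submodule ℂ E) : Set E) :=
    Submodule.closed_of_finiteDimensional _
  have hx2 : x ∈ ((W ⊓ LinearMap.range Gl.ι : Submodule ℂ E) : Set E) :=
    hYc.mem_of_tendsto (hlim x hx) (Eventually.of_forall fun j =>
      ⟨hW j W hWc hWK x hxW, hmem j⟩)
  exact hx2.2

end Pool.Agent.H913.AV
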