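import Pool.Agent.H913.AV.Stmts

/- PROJECT AV (owner helper913): MP_d9e438_al (continuity of the Sobolev averaging map), closability. -/

open MeasureTheory Matrix NormedSpace Filter Topology
open scoped Matrix

universe u

namespace Pool.Agent.H913.AV

open Pool.Agent.H913.SG

/-! Proof. Take U, A, Ah from h1. The continuous map Ah j × Ah j on E × E maps (ι u, ι (T u)) to
(ι (A j u), ι (T (A j u))) which lies in the finite-dimensional, hence closed, subspace
{(ι t, ι (T t)) : t ∈ U j} (image of U j under the linear map t ↦ (ι t, ι (T t))). So for (0, z) in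
the closure: (0, Ah j z) = (ι t, ι (T t)) for some t ∈ U j; ι is injective so t = 0 and
Ah j z = 0. Since z is in the closure of range ι (second component), Ah j z → z, so z = 0. -/

/-- TARGET -/
theorem g_closable (h1 : S_sm.{u}) : S_closable.{u} := by
  intro G _ _ _ _ _ R w hw V _ _ Mo E _ _ _ Gl T hT z hz
  obtain ⟨U, A, hU, hAU, hAT, hE⟩ := h1 G R V Mo
  obtain ⟨Ah, hAi, hlim, -⟩ := hE w hw E Gl
  have hz1 : z ∈ closure (Set.range Gl.ι) := by
    have h := map_mem_closure (f := fun p : E × E => p.2) continuous_snd hz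
      (t := Set.range Gl.ι) (by
        rintro _ ⟨v, rfl⟩
        exact ⟨T v, rfl⟩)
    exact h
  have h0 : ∀ j, Ah j z = 0 := by
    intro j
    have hfd := hU j
    have hSfd : FiniteDimensional ℂ
        (Submodule.map (LinearMap.prod Gl.ι (Gl.ι.comp T)) (U j)) := inferInstance
    have hS : IsClosed ((Submodule.map (LinearMap.prod Gl.ι (Gl.ι.comp T)) (U j) :
        Submodule ℂ (E × E)) : Set (E × E)) := Submodule.closed_of_finiteDimensional _
    have hmem := map_mem_closure (f := fun p : E × E => (Ah j p.1, Ah j p.2))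
      (((Ah j).continuous.comp continuous_fst).prodMk ((Ah j).continuous.comp continuous_snd)) hz
      (t := ((Submodule.map (LinearMap.prod Gl.ι (Gl.ι.comp T)) (U j) :
        Submodule ℂ (E × E)) : Set (E × E))) (by
        rintro _ ⟨v, rfl⟩
        refine ⟨A j v, hAU j v, ?_⟩
        change (Gl.ι (A j v), Gl.ι (T (A j v))) = (Ah j (Gl.ι v), Ah j (Gl.ι (T v)))
        rw [hAi, hAi, hAT T hT])
    rw [hS.closure_eq] at hmem
    obtain ⟨t, -, hte⟩ := hmem
    have h1 : Gl.ι t = Ah j 0 := congrArg Prod.fst hte
    have h2 : Gl.ι (T t) = Ah j z := congrArg Prod.snd hte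
    have ht0 : t = 0 := Gl.inj (by rw [h1, map_zero, map_zero])
    rw [← h2, ht0, map_zero, map_zero]
  refine tendsto_nhds_unique (hlim z hz1) ?_
  simp only [h0]
  exact tendsto_const_nhds

end Pool.Agent.H913.AV
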