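import Pool.Agent.H913.AV.Stmts

/- PROJECT AV (owner helper913): MP_d9e438_al (continuity of the Sobolev averaging map), full affirmative answer.
SETUP (once per box, about 1 minute):
  cd /workdir/pool/outputs/live && git fetch -q origin && mkdir -p /workdir/pool/Pool/Agent/H913/AV /workdir/pool/Pool/Agent/H913/SG && for f in Base LieAux Defs Calc Stmts Stmts2; do git show origin/main:Pool/Agent/H913/SG/$f.lean > /workdir/pool/Pool/Agent/H913/SG/$f.lean; done; git show origin/helper913:Pool/Agent/H913/AV/Stmts.lean > /workdir/pool/Pool/Agent/H913/AV/Stmts.lean; cd /workdir/pool && lake build Pool.Agent.H913.AV.Stmts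
Read AV/Stmts.lean first (all definitions and the statements S_xxx; SG/Defs.lean, and Pack, Glob in SG/Stmts.lean, S_eigA, S_avgV,
S_renorm, ... in SG/Stmts2.lean). Other proved files of origin/main under Pool/Agent/H913/SG may serve as a source of ideas or code.
Put this file at Pool/Agent/H913/AV/GF.lean, replace the sorry of the TARGET by a proof; auxiliary lemmas before it are
welcome (give them names starting with gF_ to avoid clashes). Statement of the target unchanged. Hypotheses (h1 : S_xxx) of the
target are proved elsewhere, use them freely. No sorry, no axioms. Respect RULES.md Validity 2 (banned words such as notation,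
macro, syntax, prefix, tactic; no straight double quotes; no line comment starting in odd places; no local instance attributes).
If the target is false or awkward, message helper913 at once (the statement will be fixed).
Paste the whole compiled file in jobs.result with status='done', done_at=now(), then: team-sql notify inbox_helper913 done -/

open MeasureTheory Matrix NormedSpace Filter Topology
open scoped Matrix

universe u

namespace Pool.Agent.H913.AV

open Pool.Agent.H913.SG

/-! Proof. Let Γ be the closure of range ι, a closed submodule of E (Submodule.topologicalClosure of LinearMap.range), complete. It is stable under π g (h1). So π restricts to Γ: π' g : Γ →L Γ, a continuous representation, ‖π' g‖ ≤ ‖π g‖ ≤ w g. ι' : V → Γ injective with dense range; K and Lie algebra compatibility from Gl.kcomp and Gl.deriv (derivative in the subspace: the inclusion is a linear isometry; e.g. hasDerivAt_iff_tendsto or hasDerivAt via slope, embedding). K-finite vectors of Γ are in the range by h2 (the span of the orbit in Γ maps onto the span in E; finite-dimensionality transfers). GrowthLE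 with C = 1. -/

/-- TARGET -/
theorem g_glob (h1 : S_clo.{u}) (h2 : S_kfin.{u}) : S_glob.{u} := by
  intro G _ _ _ _ _ R w hw V _ _ Mo E _ _ _ Gl
  set Γ : Submodule ℂ E := (LinearMap.range Gl.ι).topologicalClosure with hΓ
  have hmem : ∀ x : E, x ∈ Γ ↔ x ∈ closure (Set.range Gl.ι) := by
    intro x
    rw [hΓ, ← SetLike.mem_coe, Submodule.topologicalClosure_coe, LinearMap.coe_range]
  have hstab : ∀ g, ∀ x ∈ Γ, Gl.π g x ∈ Γ := by
    intro g x hx
    rw [hmem] at hx ⊢
    exact h1 G R w hw V Mo E Gl g x hx
  have hι : ∀ v, Gl.ι v ∈ Γ := fun v => (hmem _).2 (subset_closure ⟨v, rfl⟩)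
  have hcomp : CompleteSpace Γ := (Submodule.isClosed_topologicalClosure _).completeSpace_coe
  let ι' : V →ₗ[ℂ] Γ := Gl.ι.codRestrict Γ hι
  have hι' : ∀ v, ((ι' v : Γ) : E) = Gl.ι v := fun v => rfl
  let pg : G → (Γ →L[ℂ] Γ) := fun g =>
    ((Gl.π g).comp Γ.subtypeL).codRestrict Γ (fun x => hstab g x.1 x.2)
  have hpg : ∀ g (x : Γ), ((pg g x : Γ) : E) = Gl.π g x.1 := fun g x => rfl
  let π' : G →* (Γ →L[ℂ] Γ) :=
    { toFun := pg
      map_one' := by
        ext x
        rw [hpg, map_one]
        rfl
      map_mul' := by
        intro g h
        ext x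
        rw [hpg, map_mul]
        rfl }
  have hπ' : ∀ g (x : Γ), ((π' g x : Γ) : E) = Gl.π g x.1 := fun g x => rfl
  refine ⟨Γ, inferInstance, inferInstance, hcomp, ι', π', ?_, ?_, ?_, ?_, ?_, ?_, ?_, ?_⟩
  · intro a b hab
    apply Gl.inj
    rw [← hι', ← hι', hab]
  · intro x
    rw [Topology.IsInducing.subtypeVal.closure_eq_preimage_closure_image, Set.mem_preimage]
    have e : Subtype.val '' Set.range ι' = Set.range Gl.ι := by
      rw [← Set.range_comp]
      rfl
    have h5 := (hmem _).1 x.2
    rw [← e] at h5
    exact h5
  · intro v
    rfl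
  · intro x
    rw [Topology.IsInducing.subtypeVal.continuous_iff]
    exact Gl.cont x.1
  · intro k v
    apply Subtype.ext
    rw [hπ', hι', hι', Gl.kcomp]
  · intro X γ hγ v
    have h := Gl.deriv X γ hγ v
    rw [hasDerivAt_iff_tendsto_slope] at h ⊢
    rw [tendsto_subtype_rng]
    refine (h.congr ?_)
    intro t
    simp only [slope, vsub_eq_sub]
    rfl
  · intro x hx
    have h3 : FiniteDimensional ℂ (Submodule.span ℂ (Set.range fun k : R.K => Gl.π k.1 x.1)) := by
      have e : Submodule.span ℂ (Set.range fun k : R.K => Gl.π k.1 x.1) =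
          (Submodule.span ℂ (Set.range fun k : R.K => π' k.1 x)).map Γ.subtype := by
        rw [Submodule.map_span, ← Set.range_comp]
        rfl
      rw [e]
      infer_instance
    obtain ⟨v, hv⟩ := h2 G R w hw V Mo E Gl x.1 ((hmem _).1 x.2) h3
    exact ⟨v, Subtype.ext hv⟩
  · refine ⟨1, one_pos, fun g => ?_⟩
    rw [one_mul]
    apply ContinuousLinearMap.opNorm_le_bound _ (hw.pos g).le
    intro x
    have h4 : ‖π' g x‖ = ‖Gl.π g x.1‖ := rfl
    rw [h4]
    exact ((Gl.π g).le_opNorm x.1).trans (mul_le_mul_of_nonneg_right (Gl.bound g) (norm_nonneg _))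

end Pool.Agent.H913.AV
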