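import Pool.Agent.H913.AV.Stmts

open MeasureTheory Matrix NormedSpace Filter Topology
open scoped Matrix

universe u

namespace Pool.Agent.H913.AV

open Pool.Agent.H913.SG

theorem gG_weight {G : Type} [Group G] [TopologicalSpace G] {w w' : G → ℝ} (hw : IsWeight w)
    (hw' : IsWeight w') : IsWeight fun g => max (w g) (w' g) where
  pos := fun g => lt_max_of_lt_left (hw.pos g)
  locally_bounded := fun g => by
    obtain ⟨U, hU, C, hC⟩ := hw.locally_bounded g
    obtain ⟨U', hU', C', hC'⟩ := hw'.locally_bounded g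
    refine ⟨U ∩ U', Filter.inter_mem hU hU', max C C', ?_⟩
    intro x hx
    exact max_le_max (hC x hx.1) (hC' x hx.2)
  submul := fun g h => by
    refine max_le ?_ ?_
    · refine (hw.submul g h).trans ?_
      exact mul_le_mul (le_max_left _ _) (le_max_left _ _) (hw.pos h).le
        ((hw.pos g).le.trans (le_max_left _ _))
    · refine (hw'.submul g h).trans ?_
      exact mul_le_mul (le_max_right _ _) (le_max_right _ _) (hw'.pos h).le
        ((hw.pos g).le.trans (le_max_left _ _))

/-- the product representation -/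
def gG_pi {G : Type} [Group G] {E E' : Type u} [NormedAddCommGroup E] [NormedSpace ℂ E]
    [NormedAddCommGroup E'] [NormedSpace ℂ E'] (π : G →* (E →L[ℂ] E)) (π' : G →* (E' →L[ℂ] E')) :
    G →* ((E × E') →L[ℂ] (E × E')) where
  toFun := fun g => (π g).prodMap (π' g)
  map_one' := by
    ext x <;> simp
  map_mul' := fun g h => by
    ext x <;> simp

/-- the product globalization -/
def gG_prod {G : Type} [Group G] [TopologicalSpace G] {R : RealReductive G} {V : Type u}
    [AddCommGroup V] [Module ℂ V] {Mo : HCModule R V} {w w' : G → ℝ}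
    {E E' : Type u} [NormedAddCommGroup E] [NormedSpace ℂ E]
    [NormedAddCommGroup E'] [NormedSpace ℂ E'] (Gl : Glob Mo w E) (Gl' : Glob Mo w' E') :
    Glob Mo (fun g => max (w g) (w' g)) (E × E') where
  ι := Gl.ι.prod Gl'.ι
  π := gG_pi Gl.π Gl'.π
  inj := fun a b h => Gl.inj (congrArg Prod.fst h)
  cont := fun x => (Gl.cont x.1).prodMk (Gl'.cont x.2)
  kcomp := fun k v => Prod.ext (Gl.kcomp k v) (Gl'.kcomp k v)
  deriv := fun X γ hγ v => (Gl.deriv X γ hγ v).prodMk (Gl'.deriv X γ hγ v)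
  bound := fun g => by
    have h0 : 0 ≤ max (w g) (w' g) := (norm_nonneg _).trans ((Gl.bound g).trans (le_max_left _ _))
    refine ContinuousLinearMap.opNorm_le_bound _ h0 ?_
    rintro ⟨x, y⟩
    change ‖(Gl.π g x, Gl'.π g y)‖ ≤ _
    rw [Prod.norm_def, Prod.norm_def]
    refine max_le ?_ ?_
    · refine ((Gl.π g).le_opNorm x).trans ?_
      exact mul_le_mul ((Gl.bound g).trans (le_max_left _ _)) (le_max_left _ _) (norm_nonneg _) h0
    · refine ((Gl'.π g).le_opNorm y).trans ?_
      exact mul_le_mul ((Gl'.bound g).trans (le_max_right _ _)) (le_max_right _ _) (norm_nonneg _) h0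

/-- TARGET -/
theorem g_ext (h1 : S_clo.{u}) : S_ext.{u} := by
  intro G _ _ _ _ _ R w w' hw hw' V _ _ Mo E E' _ _ _ _ _ _ Gl Gl' hd C hC
  have hΘ : ∀ v, Gl'.ι.extendOfNorm Gl.ι (Gl.ι v) = Gl'.ι v := fun v =>
    LinearMap.extendOfNorm_eq hd ⟨C, hC⟩ v
  refine ⟨Gl'.ι.extendOfNorm Gl.ι, hΘ, ?_⟩
  set Θ : E →L[ℂ] E' := Gl'.ι.extendOfNorm Gl.ι with hΘdef
  intro g x
  have hsub : closure (Set.range (gG_prod Gl Gl').ι) ⊆ {p : E × E' | Θ p.1 = p.2} := by
    refine closure_minimal ?_ ?_
    · rintro _ ⟨v, rfl⟩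
      exact hΘ v
    · exact isClosed_eq (Θ.continuous.comp continuous_fst) continuous_snd
  have hmem : (x, Θ x) ∈ closure (Set.range (gG_prod Gl Gl').ι) := by
    have hx : x ∈ closure (Set.range Gl.ι) := hd x
    have hcont : Continuous fun y : E => (y, Θ y) := continuous_id.prodMk Θ.continuous
    refine map_mem_closure (f := fun y : E => (y, Θ y)) hcont hx ?_
    rintro _ ⟨v, rfl⟩
    exact ⟨v, Prod.ext rfl (hΘ v).symm⟩
  have hst := h1 G R (fun g => max (w g) (w' g)) (gG_weight hw hw') V Mo (E × E')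
    (gG_prod Gl Gl') g (x, Θ x) hmem
  exact hsub hst

end Pool.Agent.H913.AV
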