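import Pool.Agent.H913.AV.Stmts

/-! Project AV: continuous seminorms on a globalization with growth at most `w` give elements of `Norm(V, w)`. -/

open MeasureTheory Matrix NormedSpace Filter Topology
open scoped Matrix

universe u

namespace Pool.Agent.H913.AV

open Pool.Agent.H913.SG

/-! Proof. May assume C ≥ 1. Let Ê be the completion of E for the seminorm n: e.g. a type copy of E with the SeminormedAddCommGroup / NormedSpace structure given by n (Seminorm / AddGroupSeminorm.toSeminormedAddCommGroup, ...), then UniformSpace.Completion (a complete NormedAddCommGroup and NormedSpace over ℂ). Or: the closure of the image of E in a suitable Banach space. j : E → Ê linear, ‖j x‖ = n x, dense range. π g is bounded for n with constant C w g, so it extends to a bounded operator π̂ g of Ê (uniqueness by density gives a homomorphism), ‖π̂ g‖ ≤ C w g. ι̂ = j ∘ ι is injective by definiteness. g ↦ π̂ g y is continuous: for y = j x since n (π g x - π h x) ≤ C ‖π g x - π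 h x‖; in general by density and local boundedness of w (3ε). Compatibility with K clear; with the Lie algebra: j is a bounded linear map E → Ê, apply it to the derivative (HasDerivAt of a continuous linear map composed). So Ê is a globalization (structure Glob) for the weight C • w (a weight because C ≥ 1: C w(gh) ≤ C w(g) C w(h)), and h1 gives IsNormIn Mo (C w) (n ∘ ι), which implies IsNormIn Mo w (n ∘ ι) (growth constant). -/

/-- the completion for a seminorm -/
theorem gH_compl {E : Type u} [AddCommGroup E] [Module ℂ E] (n : Seminorm ℂ E) :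
    ∃ (F : Type u) (_ : NormedAddCommGroup F) (_ : NormedSpace ℂ F) (_ : CompleteSpace F)
      (j : E →ₗ[ℂ] F), DenseRange j ∧ ∀ x, ‖j x‖ = n x := by
  let i1 : SeminormedAddCommGroup E := n.toAddGroupSeminorm.toSeminormedAddCommGroup
  let i2 : NormedSpace ℂ E := { norm_smul_le := fun a b => (map_smul_eq_mul n a b).le }
  refine ⟨UniformSpace.Completion E, inferInstance, inferInstance, inferInstance,
    (UniformSpace.Completion.toComplₗᵢ (𝕜 := ℂ) (E := E)).toLinearMap, ?_, fun x => ?_⟩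
  · exact UniformSpace.Completion.denseRange_coe
  · exact UniformSpace.Completion.norm_coe x

/-- TARGET -/
theorem g_base (h1 : S_glob.{u}) : S_base.{u} := by
  intro G _ _ _ _ _ R w w' hw hw' V _ _ Mo E _ _ _ Gl hd n C hn hπ hι
  obtain ⟨F, iF1, iF2, iF3, j, hj, hjn⟩ := gH_compl n
  obtain ⟨C1, hC1, hCC1⟩ : ∃ C1 : ℝ, 1 ≤ C1 ∧ C ≤ C1 := ⟨max C 1, le_max_right _ _, le_max_left _ _⟩
  have hC10 : 0 < C1 := by linarith
  have hn' : ∀ x, n x ≤ C1 * ‖x‖ := fun x =>
    (hn x).trans (mul_le_mul_of_nonneg_right hCC1 (norm_nonneg x))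
  have hπ' : ∀ g x, n (Gl.π g x) ≤ C1 * w g * n x := fun g x =>
    (hπ g x).trans (mul_le_mul_of_nonneg_right (mul_le_mul_of_nonneg_right hCC1 (hw.pos g).le)
      (apply_nonneg n x))
  have hb : ∀ g x, ‖(j ∘ₗ (Gl.π g : E →ₗ[ℂ] E)) x‖ ≤ C1 * w g * ‖j x‖ := fun g x => by
    rw [LinearMap.comp_apply, hjn, hjn]
    exact hπ' g x
  obtain ⟨Pg, hPg⟩ : ∃ Pg : G → (F →L[ℂ] F), ∀ g x, Pg g (j x) = j (Gl.π g x) :=
    ⟨fun g => (j ∘ₗ (Gl.π g : E →ₗ[ℂ] E)).extendOfNorm j, fun g x =>
      LinearMap.extendOfNorm_eq hj ⟨_, hb g⟩ x⟩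
  have hPn : ∀ g, ‖Pg g‖ ≤ C1 * w g := by
    intro g
    refine ContinuousLinearMap.opNorm_le_bound _ (mul_nonneg hC10.le (hw.pos g).le) fun y => ?_
    refine hj.induction_on (p := fun y => ‖Pg g y‖ ≤ C1 * w g * ‖y‖) y ?_ ?_
    · exact isClosed_le (Pg g).continuous.norm (continuous_const.mul continuous_norm)
    · intro x
      rw [hPg, hjn, hjn]
      exact hπ' g x
  have heq : ∀ (A B : F →L[ℂ] F), (∀ x, A (j x) = B (j x)) → A = B := by
    intro A B h
    refine ContinuousLinearMap.ext fun y => ?_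
    refine hj.induction_on (p := fun y => A y = B y) y ?_ h
    exact isClosed_eq A.continuous B.continuous
  obtain ⟨Pi, hPi⟩ : ∃ Pi : G →* (F →L[ℂ] F), ∀ g, Pi g = Pg g := by
    refine ⟨{ toFun := Pg, map_one' := ?_, map_mul' := ?_ }, fun g => rfl⟩
    · refine heq _ _ fun x => ?_
      rw [hPg, map_one]
      rfl
    · intro g h
      refine heq _ _ fun x => ?_
      rw [hPg, map_mul]
      change j (Gl.π g (Gl.π h x)) = Pg g (Pg h (j x))
      rw [hPg, hPg]
  obtain ⟨jL, hjL⟩ : ∃ jL : E →L[ℂ] F, ∀ x, jL x = j x :=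
    ⟨j.mkContinuous C1 (fun x => by rw [hjn]; exact hn' x), fun x => rfl⟩
  have hcont : ∀ y, Continuous fun g => Pi g y := by
    intro y
    rw [continuous_iff_continuousAt]
    intro g0
    rw [ContinuousAt, Metric.tendsto_nhds]
    intro ε hε
    obtain ⟨U, hU, B, hB⟩ := hw.locally_bounded g0
    have hB0 : 0 < B := (hw.pos g0).trans_le (hB g0 (mem_of_mem_nhds hU))
    obtain ⟨x, hx⟩ := Metric.denseRange_iff.1 hj y (ε / (4 * (C1 * B))) (by positivity)
    rw [dist_eq_norm] at hx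
    have hc : ∀ᶠ g in 𝓝 g0, dist (Gl.π g x) (Gl.π g0 x) < ε / (4 * C1) :=
      Metric.tendsto_nhds.1 (Gl.cont x).continuousAt _ (by positivity)
    filter_upwards [hU, hc] with g hg hgx
    rw [dist_eq_norm] at hgx ⊢
    have e : Pi g y - Pi g0 y = Pg g (y - j x) + jL (Gl.π g x - Gl.π g0 x) - Pg g0 (y - j x) := by
      rw [hPi, hPi, map_sub, map_sub, map_sub, hPg, hPg, hjL, hjL]
      abel
    have key : ∀ g1 ∈ U, ‖Pg g1 (y - j x)‖ ≤ ε / 4 := by
      intro g1 hg1
      have h2 : ‖Pg g1 (y - j x)‖ ≤ C1 * B * ‖y - j x‖ :=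
        ((Pg g1).le_opNorm _).trans (mul_le_mul_of_nonneg_right ((hPn g1).trans
          (mul_le_mul_of_nonneg_left (hB g1 hg1) hC10.le)) (norm_nonneg _))
      have h3 : C1 * B * ‖y - j x‖ ≤ C1 * B * (ε / (4 * (C1 * B))) :=
        mul_le_mul_of_nonneg_left hx.le (by positivity)
      have h4 : C1 * B * (ε / (4 * (C1 * B))) = ε / 4 := by field_simp
      linarith
    have h5 : ‖jL (Gl.π g x - Gl.π g0 x)‖ ≤ ε / 4 := by
      rw [hjL, hjn]
      refine (hn' _).trans ?_
      have h6 := mul_le_mul_of_nonneg_left hgx.le hC10.le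
      have h7 : C1 * (ε / (4 * C1)) = ε / 4 := by field_simp
      linarith
    have h8 := key g hg
    have h9 := key g0 (mem_of_mem_nhds hU)
    rw [e]
    have h10 := norm_sub_le (Pg g (y - j x) + jL (Gl.π g x - Gl.π g0 x)) (Pg g0 (y - j x))
    have h11 := norm_add_le (Pg g (y - j x)) (jL (Gl.π g x - Gl.π g0 x))
    linarith
  have hw2 : IsWeight (fun g => C1 * w g) := by
    refine ⟨fun g => mul_pos hC10 (hw.pos g), fun g => ?_, fun g h => ?_⟩
    · obtain ⟨U, hU, B, hB⟩ := hw.locally_bounded g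
      exact ⟨U, hU, C1 * B, fun x hx => mul_le_mul_of_nonneg_left (hB x hx) hC10.le⟩
    · have h2 := hw.submul g h
      have h3 : 0 < w g * w h := mul_pos (hw.pos g) (hw.pos h)
      have h4 : C1 * w (g * h) ≤ C1 * (w g * w h) := mul_le_mul_of_nonneg_left h2 hC10.le
      have h5 : C1 * (w g * w h) ≤ C1 * (C1 * (w g * w h)) :=
        mul_le_mul_of_nonneg_left (le_mul_of_one_le_left h3.le hC1) hC10.le
      calc C1 * w (g * h) ≤ C1 * (C1 * (w g * w h)) := h4.trans h5
        _ = C1 * w g * (C1 * w h) := by ring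
  obtain ⟨Gl2, hGl2⟩ : ∃ Gl2 : Glob Mo (fun g => C1 * w g) F, ∀ v, Gl2.ι v = j (Gl.ι v) := by
    refine ⟨⟨j ∘ₗ Gl.ι, Pi, ?_, hcont, ?_, ?_, fun g => ?_⟩, fun v => rfl⟩
    · rw [injective_iff_map_eq_zero]
      intro v hv
      refine hι v ?_
      rw [← hjn]
      rw [LinearMap.comp_apply] at hv
      rw [hv, norm_zero]
    · intro k v
      rw [LinearMap.comp_apply, LinearMap.comp_apply, hPi, hPg, Gl.kcomp]
    · intro X γ hγ v
      have h2 := Gl.deriv X γ hγ v
      have h3 := ((jL.restrictScalars ℝ).hasFDerivAt (x := Gl.π (γ 0) (Gl.ι v))).comp_hasDerivAt 0 h2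
      have h4 : (fun t : ℝ => Pi (γ t) ((j ∘ₗ Gl.ι) v)) =
          (jL.restrictScalars ℝ) ∘ fun t : ℝ => Gl.π (γ t) (Gl.ι v) := by
        funext t
        rw [LinearMap.comp_apply, hPi, hPg]
        exact (hjL _).symm
      have h5 : (jL.restrictScalars ℝ) (Gl.ι (Mo.act X v)) = (j ∘ₗ Gl.ι) (Mo.act X v) := hjL _
      rw [h4, ← h5]
      exact h3
    · rw [hPi]
      exact hPn g
  have h2 := h1 G R (fun g => C1 * w g) hw2 V Mo F Gl2
  obtain ⟨E', i1, i2, i3, ι, π, ha, hb', hc, hd', he, hf, hg, C0, hC0, hgr⟩ := h2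
  refine ⟨E', i1, i2, i3, ι, π, ha, hb', fun v => ?_, hd', he, hf, hg, C0 * C1, mul_pos hC0 hC10,
    fun g => ?_⟩
  · rw [← hc v]
    change n (Gl.ι v) = ‖Gl2.ι v‖
    rw [hGl2 v, hjn]
  · rw [mul_assoc]
    exact hgr g

end Pool.Agent.H913.AV
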