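import Pool.Agent.H913.AV.Stmts

/- PROJECT AV (owner helper913): MP_d9e438_al (continuity of the Sobolev averaging map), full affirmative answer.
SETUP (once per box, about 1 minute):
  cd /workdir/pool/outputs/live && git fetch -q origin && mkdir -p /workdir/pool/Pool/Agent/H913/AV /workdir/pool/Pool/Agent/H913/SG && for f in Base LieAux Defs Calc Stmts Stmts2; do git show origin/main:Pool/Agent/H913/SG/$f.lean > /workdir/pool/Pool/Agent/H913/SG/$f.lean; done; git show origin/helper913:Pool/Agent/H913/AV/Stmts.lean > /workdir/pool/Pool/Agent/H913/AV/Stmts.lean; cd /workdir/pool && lake build Pool.Agent.H913.AV.Stmts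
Read AV/Stmts.lean first (all definitions and the statements S_xxx; SG/Defs.lean, and Pack, Glob in SG/Stmts.lean, S_eigA, S_avgV,
S_renorm, ... in SG/Stmts2.lean). Other proved files of origin/main under Pool/Agent/H913/SG may serve as a source of ideas or code.
Put this file at Pool/Agent/H913/AV/GI.lean, replace the sorry of the TARGET by a proof; auxiliary lemmas before it are
welcome (give them names starting with gI_ to avoid clashes). Statement of the target unchanged. Hypotheses (h1 : S_xxx) of the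
target are proved elsewhere, use them freely. No sorry, no axioms. Respect RULES.md Validity 2 (banned words such as notation,
macro, syntax, prefix, tactic; no straight double quotes; no line comment starting in odd places; no local instance attributes).
If the target is false or awkward, message helper913 at once (the statement will be fixed).
Paste the whole compiled file in jobs.result with status='done', done_at=now(), then: team-sql notify inbox_helper913 done -/

open MeasureTheory Matrix NormedSpace Filter Topology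
open scoped Matrix

universe u

namespace Pool.Agent.H913.AV

open Pool.Agent.H913.SG

/-! Proof. By h1 (S_renorm) take globalizations Gl₁ on E₁ for p and Gl₂ on E₂ for q, both for the weight w. The product E₁ × E₂ (sup norm) with ι = (ι₁, ι₂), π = π₁ × π₂ is a globalization for w. By h2 its norm r v = max ‖ι₁ v‖ ‖ι₂ v‖ is in Norm(V,w). The estimates are clear. -/

/-- TARGET -/
theorem g_sum (h1 : S_renorm.{u}) (h2 : S_glob.{u}) : S_sum.{u} := by
  intro G _ _ _ _ _ R w hw V _ _ Mo p q hp hq
  obtain ⟨E₁, _, _, _, Gl₁, _, C₁, hC₁, hE₁⟩ := h1 G R w hw V Mo p hp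
  obtain ⟨E₂, _, _, _, Gl₂, _, C₂, hC₂, hE₂⟩ := h1 G R w hw V Mo q hq
  let Gl : Glob Mo w (E₁ × E₂) :=
    { ι := Gl₁.ι.prod Gl₂.ι
      π :=
        { toFun := fun g => (Gl₁.π g).prodMap (Gl₂.π g)
          map_one' := by
            ext x <;> simp
          map_mul' := fun g h => by
            ext x <;> simp }
      inj := fun v v' h => Gl₁.inj (congrArg Prod.fst h)
      cont := fun x => (Gl₁.cont x.1).prodMk (Gl₂.cont x.2)
      kcomp := fun k v => Prod.ext (Gl₁.kcomp k v) (Gl₂.kcomp k v)
      deriv := fun X γ hγ v => (Gl₁.deriv X γ hγ v).prodMk (Gl₂.deriv X γ hγ v)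
      bound := fun g => by
        refine ContinuousLinearMap.opNorm_le_bound _ (hw.pos g).le fun x => ?_
        have e1 : ‖Gl₁.π g x.1‖ ≤ w g * ‖x‖ :=
          ((Gl₁.π g).le_opNorm x.1).trans
            (mul_le_mul (Gl₁.bound g) (norm_fst_le x) (norm_nonneg _) (hw.pos g).le)
        have e2 : ‖Gl₂.π g x.2‖ ≤ w g * ‖x‖ :=
          ((Gl₂.π g).le_opNorm x.2).trans
            (mul_le_mul (Gl₂.bound g) (norm_snd_le x) (norm_nonneg _) (hw.pos g).le)
        exact max_le e1 e2 }
  have hι : ∀ v, ‖Gl.ι v‖ = max ‖Gl₁.ι v‖ ‖Gl₂.ι v‖ := fun v => rfl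
  have hp0 : ∀ v, 0 ≤ p v := fun v => by
    have h3 := (norm_nonneg _).trans (hE₁ v).1
    exact nonneg_of_mul_nonneg_right h3 hC₁
  have hq0 : ∀ v, 0 ≤ q v := fun v => by
    have h3 := (norm_nonneg _).trans (hE₂ v).1
    exact nonneg_of_mul_nonneg_right h3 hC₂
  refine ⟨fun v => ‖Gl.ι v‖, h2 G R w hw V Mo _ Gl, ⟨C₁, fun v => ?_⟩, ⟨C₂, fun v => ?_⟩,
    ⟨C₁ + C₂, fun v => ?_⟩⟩
  · refine (hE₁ v).2.trans (mul_le_mul_of_nonneg_left ?_ hC₁.le)
    show ‖Gl₁.ι v‖ ≤ ‖Gl.ι v‖
    rw [hι]
    exact le_max_left _ _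
  · refine (hE₂ v).2.trans (mul_le_mul_of_nonneg_left ?_ hC₂.le)
    show ‖Gl₂.ι v‖ ≤ ‖Gl.ι v‖
    rw [hι]
    exact le_max_right _ _
  · show ‖Gl.ι v‖ ≤ (C₁ + C₂) * (p v + q v)
    rw [hι]
    have e1 := (hE₁ v).1
    have e2 := (hE₂ v).1
    have e3 := hp0 v
    have e4 := hq0 v
    refine max_le ?_ ?_ <;> nlinarith [mul_nonneg hC₁.le e3, mul_nonneg hC₁.le e4,
      mul_nonneg hC₂.le e3, mul_nonneg hC₂.le e4]

end Pool.Agent.H913.AV
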