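import Pool.Agent.H913.AV.Stmts

open MeasureTheory Matrix NormedSpace Filter Topology
open scoped Matrix

universe u

namespace Pool.Agent.H913.AV

open Pool.Agent.H913.SG

/-- the entrywise `ℓ¹` size of a real matrix -/
def gJ_S {d : ℕ} (B : Matrix (Fin d) (Fin d) ℝ) : ℝ := ∑ i, ∑ j, |B i j|

theorem gJ_S_nonneg {d : ℕ} (B : Matrix (Fin d) (Fin d) ℝ) : 0 ≤ gJ_S B :=
  Finset.sum_nonneg fun _ _ => Finset.sum_nonneg fun _ _ => abs_nonneg _

theorem gJ_S_row {d : ℕ} (B : Matrix (Fin d) (Fin d) ℝ) (i : Fin d) : ∑ j, |B i j| ≤ gJ_S B :=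
  Finset.single_le_sum (f := fun i => ∑ j, |B i j|)
    (fun _ _ => Finset.sum_nonneg fun _ _ => abs_nonneg _) (Finset.mem_univ i)

theorem gJ_S_mul {d : ℕ} (B C : Matrix (Fin d) (Fin d) ℝ) : gJ_S (B * C) ≤ gJ_S B * gJ_S C := by
  have h1 : ∀ i l, |(B * C) i l| ≤ ∑ j, |B i j| * |C j l| := by
    intro i l
    rw [Matrix.mul_apply]
    refine (Finset.abs_sum_le_sum_abs _ _).trans (le_of_eq ?_)
    exact Finset.sum_congr rfl fun j _ => abs_mul _ _
  have h2 : ∀ i, ∑ l, |(B * C) i l| ≤ (∑ j, |B i j|) * gJ_S C := by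
    intro i
    calc ∑ l, |(B * C) i l| ≤ ∑ l, ∑ j, |B i j| * |C j l| := Finset.sum_le_sum fun l _ => h1 i l
      _ = ∑ j, |B i j| * ∑ l, |C j l| := by
          rw [Finset.sum_comm]
          exact Finset.sum_congr rfl fun j _ => (Finset.mul_sum _ _ _).symm
      _ ≤ ∑ j, |B i j| * gJ_S C :=
          Finset.sum_le_sum fun j _ => mul_le_mul_of_nonneg_left (gJ_S_row C j) (abs_nonneg _)
      _ = _ := (Finset.sum_mul _ _ _).symm
  calc gJ_S (B * C) ≤ ∑ i, (∑ j, |B i j|) * gJ_S C := Finset.sum_le_sum fun i _ => h2 i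
    _ = _ := (Finset.sum_mul _ _ _).symm

theorem gJ_S_cont {d : ℕ} : Continuous (gJ_S (d := d)) := by
  unfold gJ_S
  fun_prop

section group

variable {G : Type} [Group G] [TopologicalSpace G] {R : RealReductive G}

theorem gJ_Ad_mul (g h : G) (Y : R.lie) : R.Ad (g * h) Y = R.Ad g (R.Ad h Y) := by
  apply Subtype.ext
  simp only [RealReductive.Ad, _root_.mul_inv_rev, map_mul, Units.val_mul]
  simp only [Matrix.mul_assoc]

theorem gJ_Ad_one (Y : R.lie) : R.Ad 1 Y = Y := by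
  apply Subtype.ext
  simp [RealReductive.Ad]

theorem gJ_Ad_sum {d : ℕ} (g : G) (a : Fin d → ℝ) (Y : Fin d → R.lie) :
    R.Ad g (∑ j, a j • Y j) = ∑ j, a j • R.Ad g (Y j) := by
  apply Subtype.ext
  simp only [RealReductive.Ad, Submodule.coe_sum, Submodule.coe_smul, Matrix.mul_sum,
    Matrix.sum_mul, Matrix.mul_smul, Matrix.smul_mul]

/-- the coefficients of `Ad(g⁻¹)` -/
def gJ_c (P : Pack R) (g : G) : Matrix (Fin P.d) (Fin P.d) ℝ :=
  fun i j => ((P.X j).1ᵀ * (R.Ad g⁻¹ (P.X i)).1).trace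

theorem gJ_c_spec (P : Pack R) (g : G) (i : Fin P.d) :
    R.Ad g⁻¹ (P.X i) = ∑ j, gJ_c P g i j • P.X j := P.X_spans _

theorem gJ_c_one (P : Pack R) : gJ_c P 1 = 1 := by
  ext i j
  simp only [gJ_c, inv_one, gJ_Ad_one, P.X_orth, Matrix.one_apply]
  simp only [eq_comm]

theorem gJ_c_mul (P : Pack R) (g h : G) : gJ_c P (g * h) = gJ_c P g * gJ_c P h := by
  ext i l
  rw [Matrix.mul_apply]
  have e : R.Ad (g * h)⁻¹ (P.X i) = ∑ j, gJ_c P g i j • R.Ad h⁻¹ (P.X j) := by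
    rw [_root_.mul_inv_rev, gJ_Ad_mul, gJ_c_spec P g i, gJ_Ad_sum]
  have e2 : gJ_c P (g * h) i l = ((P.X l).1ᵀ * (R.Ad (g * h)⁻¹ (P.X i)).1).trace := rfl
  rw [e2, e]
  simp only [Submodule.coe_sum, Submodule.coe_smul, Matrix.mul_sum, Matrix.mul_smul,
    Matrix.trace_sum, Matrix.trace_smul, smul_eq_mul]
  rfl

theorem gJ_rho_cont : Continuous fun g : G => (R.ρ g : M R.n) :=
  Units.continuous_val.comp R.ρ_continuous

theorem gJ_c_cont [IsTopologicalGroup G] (P : Pack R) : Continuous (gJ_c P) := by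
  have h1 : Continuous fun g : G => (R.ρ g : M R.n) := gJ_rho_cont
  have h2 : Continuous fun g : G => (R.ρ g⁻¹ : M R.n) := gJ_rho_cont.comp continuous_inv
  refine continuous_pi fun i => continuous_pi fun j => ?_
  have e : (fun g : G => gJ_c P g i j) = fun g : G =>
      ((P.X j).1ᵀ * ((R.ρ g⁻¹ : M R.n) * (P.X i).1 * (R.ρ g : M R.n))).trace := by
    funext g
    simp only [gJ_c, RealReductive.Ad, inv_inv]
  rw [e]
  exact Continuous.matrix_trace (continuous_const.matrix_mul ((h2.matrix_mul continuous_const).matrix_mul h1))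

/-- the new weight -/
noncomputable def gJ_w (P : Pack R) (w : G → ℝ) (g : G) : ℝ := w g * (1 + gJ_S (gJ_c P g))

theorem gJ_weight [IsTopologicalGroup G] (P : Pack R) {w : G → ℝ} (hw : IsWeight w) :
    IsWeight (gJ_w P w) where
  pos g := mul_pos (hw.pos g) (by have := gJ_S_nonneg (gJ_c P g); linarith)
  locally_bounded g := by
    obtain ⟨U, hU, C, hC⟩ := hw.locally_bounded g
    have hcont : Continuous fun x : G => gJ_S (gJ_c P x) := gJ_S_cont.comp (gJ_c_cont P)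
    have hev : ∀ᶠ x in nhds g, gJ_S (gJ_c P x) < gJ_S (gJ_c P g) + 1 :=
      hcont.continuousAt.eventually_lt continuousAt_const (by simp)
    refine ⟨U ∩ {x | gJ_S (gJ_c P x) < gJ_S (gJ_c P g) + 1}, Filter.inter_mem hU hev,
      C * (1 + (gJ_S (gJ_c P g) + 1)), ?_⟩
    rintro x ⟨hx1, hx2⟩
    have h1 := hC x hx1
    have h2 := hw.pos x
    have h3 := gJ_S_nonneg (gJ_c P x)
    have h4 : gJ_S (gJ_c P x) < gJ_S (gJ_c P g) + 1 := hx2
    exact mul_le_mul h1 (by linarith) (by linarith) (by linarith)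
  submul g h := by
    have h1 := hw.submul g h
    have h2 : gJ_S (gJ_c P (g * h)) ≤ gJ_S (gJ_c P g) * gJ_S (gJ_c P h) := by
      rw [gJ_c_mul]; exact gJ_S_mul _ _
    have h3 := gJ_S_nonneg (gJ_c P g)
    have h4 := gJ_S_nonneg (gJ_c P h)
    have h5 := hw.pos g
    have h6 := hw.pos h
    have h7 := gJ_S_nonneg (gJ_c P (g * h))
    calc w (g * h) * (1 + gJ_S (gJ_c P (g * h)))
        ≤ (w g * w h) * ((1 + gJ_S (gJ_c P g)) * (1 + gJ_S (gJ_c P h))) := by
          apply mul_le_mul h1 _ (by linarith) (by positivity)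
          nlinarith
      _ = _ := by unfold gJ_w; ring

/-- the derivative of the coefficients along a one-parameter group -/
theorem gJ_c_deriv (P : Pack R) (X : R.lie) (γ : ℝ → G) (hγ : R.IsOneParam X γ) (i j : Fin P.d) :
    HasDerivAt (fun t : ℝ => gJ_c P (γ t) i j)
      (-((P.X j).1ᵀ * (R.br X (P.X i)).1).trace) 0 := by
  obtain ⟨_, hadd, hexp⟩ := hγ
  have h0 : γ 0 = 1 := by
    have h := hadd 0 0
    rw [add_zero] at h
    exact (mul_eq_left.1 h.symm)
  have hinv : ∀ t, (γ t)⁻¹ = γ (-t) := by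
    intro t
    have h := hadd t (-t)
    rw [add_neg_cancel, h0] at h
    exact inv_eq_of_mul_eq_one_right h.symm
  have e : (fun t : ℝ => gJ_c P (γ t) i j) = fun t : ℝ =>
      ((P.X j).1ᵀ * (NormedSpace.exp (t • (-X.1)) * (P.X i).1 * NormedSpace.exp (t • X.1))).trace := by
    funext t
    simp only [gJ_c, RealReductive.Ad, inv_inv]
    rw [hinv, hexp, hexp, neg_smul, smul_neg]
  rw [e]
  open scoped Matrix.Norms.Operator in
  rcases Nat.eq_zero_or_pos R.n with hn | hn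
  · have he : IsEmpty (Fin R.n) := by rw [hn]; infer_instance
    have e2 : (-((P.X j).1ᵀ * (R.br X (P.X i)).1).trace) = 0 := by
      simp [Matrix.trace]
    have e3 : (fun t : ℝ => ((P.X j).1ᵀ * (NormedSpace.exp (t • (-X.1)) * (P.X i).1 *
      NormedSpace.exp (t • X.1))).trace) = fun _ => 0 := by
      funext t
      simp [Matrix.trace]
    rw [e2, e3]
    exact hasDerivAt_const _ _
  · have : Nonempty (Fin R.n) := ⟨⟨0, hn⟩⟩
    have h1 := ((hasDerivAt_exp_smul_const (-X.1) (0 : ℝ)).mul_const (P.X i).1).mul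
      (hasDerivAt_exp_smul_const X.1 (0 : ℝ))
    simp only [zero_smul, NormedSpace.exp_zero, one_mul, mul_one] at h1
    have hL : Continuous fun A : M R.n => ((P.X j).1ᵀ * A).trace :=
      Continuous.matrix_trace (continuous_const.matrix_mul continuous_id)
    let L : M R.n →L[ℝ] ℝ :=
      { toFun := fun A => ((P.X j).1ᵀ * A).trace
        map_add' := fun A B => by rw [Matrix.mul_add, Matrix.trace_add]
        map_smul' := fun r A => by rw [Matrix.mul_smul, Matrix.trace_smul]; rfl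
        cont := hL }
    have h2 := L.hasFDerivAt.comp_hasDerivAt (0 : ℝ) h1
    refine HasDerivAt.congr_deriv (f := fun t : ℝ => ((P.X j).1ᵀ * (NormedSpace.exp (t • (-X.1)) *
      (P.X i).1 * NormedSpace.exp (t • X.1))).trace) h2 ?_
    show ((P.X j).1ᵀ * (-X.1 * (P.X i).1 + (P.X i).1 * X.1)).trace = _
    rw [← Matrix.trace_neg, ← Matrix.mul_neg]
    have e5 : -X.1 * (P.X i).1 + (P.X i).1 * X.1 = -(R.br X (P.X i)).1 := by
      show _ = -(X.1 * (P.X i).1 - (P.X i).1 * X.1)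
      rw [neg_sub, Matrix.neg_mul]
      abel
    rw [e5]

end group

section rep

variable {G : Type} [Group G] {E : Type u} [NormedAddCommGroup E] [NormedSpace ℂ E]

/-- the operators on `E × E^d` -/
noncomputable def gJ_op {d : ℕ} (B : Matrix (Fin d) (Fin d) ℝ) (T : E →L[ℂ] E) :
    (E × (Fin d → E)) →L[ℂ] (E × (Fin d → E)) :=
  (T.comp (ContinuousLinearMap.fst ℂ E (Fin d → E))).prod
    (ContinuousLinearMap.pi fun i => ∑ j, ((B i j : ℝ) : ℂ) •
      (T.comp ((ContinuousLinearMap.proj (R := ℂ) (φ := fun _ : Fin d => E) j).comp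
        (ContinuousLinearMap.snd ℂ E (Fin d → E)))))

theorem gJ_op_fst {d : ℕ} (B : Matrix (Fin d) (Fin d) ℝ) (T : E →L[ℂ] E) (x : E × (Fin d → E)) :
    (gJ_op B T x).1 = T x.1 := rfl

theorem gJ_op_snd {d : ℕ} (B : Matrix (Fin d) (Fin d) ℝ) (T : E →L[ℂ] E) (x : E × (Fin d → E))
    (i : Fin d) : (gJ_op B T x).2 i = ∑ j, ((B i j : ℝ) : ℂ) • T (x.2 j) := by
  simp [gJ_op]

theorem gJ_op_one {d : ℕ} : gJ_op (1 : Matrix (Fin d) (Fin d) ℝ) (1 : E →L[ℂ] E) = 1 := by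
  apply ContinuousLinearMap.ext
  intro x
  refine Prod.ext ?_ (funext fun i => ?_)
  · simp [gJ_op_fst]
  · rw [gJ_op_snd]
    simp [Matrix.one_apply]

theorem gJ_op_mul {d : ℕ} (B C : Matrix (Fin d) (Fin d) ℝ) (T S : E →L[ℂ] E) :
    gJ_op (B * C) (T * S) = gJ_op B T * gJ_op C S := by
  apply ContinuousLinearMap.ext
  intro x
  rw [mul_apply_eq_comp]
  refine Prod.ext ?_ (funext fun i => ?_)
  · simp [gJ_op_fst]
  · rw [gJ_op_snd, gJ_op_snd]
    simp only [gJ_op_snd, map_sum, map_smul, Finset.smul_sum, Matrix.mul_apply,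
      mul_apply_eq_comp, Complex.ofReal_sum, Complex.ofReal_mul, Finset.sum_smul,
      smul_smul]
    rw [Finset.sum_comm]

theorem gJ_op_norm {d : ℕ} (B : Matrix (Fin d) (Fin d) ℝ) (T : E →L[ℂ] E) {c : ℝ} (hc : 0 ≤ c)
    (hT : ‖T‖ ≤ c) : ‖gJ_op B T‖ ≤ c * (1 + gJ_S B) := by
  have hS := gJ_S_nonneg B
  refine ContinuousLinearMap.opNorm_le_bound _ (by positivity) fun x => ?_
  have hTx : ∀ y : E, ‖T y‖ ≤ c * ‖y‖ := fun y => T.le_of_opNorm_le hT y
  have hx1 : ‖x.1‖ ≤ ‖x‖ := norm_fst_le x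
  have hx2 : ∀ j, ‖x.2 j‖ ≤ ‖x‖ := fun j => (norm_le_pi_norm x.2 j).trans (norm_snd_le x)
  have hx0 := norm_nonneg x
  rw [Prod.norm_def]
  refine max_le ?_ ?_
  · rw [gJ_op_fst]
    calc ‖T x.1‖ ≤ c * ‖x.1‖ := hTx _
      _ ≤ c * ‖x‖ := mul_le_mul_of_nonneg_left hx1 hc
      _ ≤ c * (1 + gJ_S B) * ‖x‖ := by
          apply mul_le_mul_of_nonneg_right _ hx0
          nlinarith
  · refine (pi_norm_le_iff_of_nonneg (by positivity)).2 fun i => ?_
    rw [gJ_op_snd]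
    calc ‖∑ j, ((B i j : ℝ) : ℂ) • T (x.2 j)‖ ≤ ∑ j, ‖((B i j : ℝ) : ℂ) • T (x.2 j)‖ :=
          norm_sum_le _ _
      _ ≤ ∑ j, |B i j| * (c * ‖x‖) := by
          refine Finset.sum_le_sum fun j _ => ?_
          rw [norm_smul, Complex.norm_real, Real.norm_eq_abs]
          apply mul_le_mul_of_nonneg_left _ (abs_nonneg _)
          exact (hTx _).trans (mul_le_mul_of_nonneg_left (hx2 j) hc)
      _ = (∑ j, |B i j|) * (c * ‖x‖) := (Finset.sum_mul _ _ _).symm
      _ ≤ gJ_S B * (c * ‖x‖) := mul_le_mul_of_nonneg_right (gJ_S_row B i) (by positivity)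
      _ ≤ c * (1 + gJ_S B) * ‖x‖ := by nlinarith [mul_nonneg hc hx0]

end rep

section glob

variable {G : Type} [Group G] [TopologicalSpace G] {R : RealReductive G}
  {V : Type u} [AddCommGroup V] [Module ℂ V]

theorem gJ_act_sum (Mo : HCModule R V) {d : ℕ} (a : Fin d → ℝ) (Y : Fin d → R.lie) :
    Mo.act (∑ j, a j • Y j) = ∑ j, ((a j : ℝ) : ℂ) • Mo.act (Y j) := by
  have h0 : Mo.act 0 = 0 := by
    have h := Mo.act_smul 0 0
    simpa using h
  let F : R.lie →+ Module.End ℂ V :=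
    { toFun := Mo.act
      map_zero' := h0
      map_add' := Mo.act_add }
  have h := map_sum F (fun j => a j • Y j) Finset.univ
  change Mo.act (∑ j, a j • Y j) = ∑ j, Mo.act (a j • Y j) at h
  rw [h]
  exact Finset.sum_congr rfl fun j _ => Mo.act_smul _ _

variable {E : Type u} [NormedAddCommGroup E] [NormedSpace ℂ E]

/-- the new embedding -/
def gJ_iota (P : Pack R) (Mo : HCModule R V) (ι : V →ₗ[ℂ] E) :
    V →ₗ[ℂ] (E × (Fin P.d → E)) :=
  ι.prod (LinearMap.pi fun i => ι ∘ₗ Mo.act (P.X i))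

theorem gJ_iota_fst (P : Pack R) (Mo : HCModule R V) (ι : V →ₗ[ℂ] E) (v : V) :
    (gJ_iota P Mo ι v).1 = ι v := rfl

theorem gJ_iota_snd (P : Pack R) (Mo : HCModule R V) (ι : V →ₗ[ℂ] E) (v : V) (i : Fin P.d) :
    (gJ_iota P Mo ι v).2 i = ι (Mo.act (P.X i) v) := rfl

theorem gJ_glob [IsTopologicalGroup G] (P : Pack R) (Mo : HCModule R V) {w : G → ℝ}
    (hw : IsWeight w) (Gl : Glob Mo w E) :
    ∃ Gl' : Glob Mo (gJ_w P w) (E × (Fin P.d → E)), Gl'.ι = gJ_iota P Mo Gl.ι := by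
  refine ⟨{ ι := gJ_iota P Mo Gl.ι
            π := { toFun := fun g => gJ_op (gJ_c P g) (Gl.π g)
                   map_one' := by rw [gJ_c_one, map_one, gJ_op_one]
                   map_mul' := fun g h => by rw [gJ_c_mul, map_mul, gJ_op_mul] }
            inj := fun a b h => Gl.inj (congrArg Prod.fst h)
            cont := ?_
            kcomp := ?_
            deriv := ?_
            bound := ?_ }, rfl⟩
  · intro x
    have hc : ∀ i j, Continuous fun g : G => ((gJ_c P g i j : ℝ) : ℂ) := fun i j =>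
      Complex.continuous_ofReal.comp
        ((continuous_apply j).comp ((continuous_apply i).comp (gJ_c_cont P)))
    have h1 : Continuous fun g : G => Gl.π g x.1 := Gl.cont x.1
    have h2 : Continuous fun g : G => fun i : Fin P.d =>
        ∑ j, ((gJ_c P g i j : ℝ) : ℂ) • Gl.π g (x.2 j) :=
      continuous_pi fun i => continuous_finsetSum _ fun j _ => (hc i j).smul (Gl.cont (x.2 j))
    refine (h1.prodMk h2).congr fun g => ?_
    refine Prod.ext rfl (funext fun i => ?_)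
    exact (gJ_op_snd _ _ _ _).symm
  · intro k v
    refine Prod.ext ?_ (funext fun i => ?_)
    · exact Gl.kcomp k v
    · show (gJ_op (gJ_c P k.1) (Gl.π k.1) (gJ_iota P Mo Gl.ι v)).2 i = _
      rw [gJ_op_snd, gJ_iota_snd]
      simp only [gJ_iota_snd, Gl.kcomp]
      have hk : ∀ j, Mo.kact k (Mo.act (P.X j) v) = Mo.act (R.Ad k.1 (P.X j)) (Mo.kact k v) :=
        fun j => LinearMap.congr_fun (Mo.compat k (P.X j)) v
      have hX : P.X i = ∑ j, gJ_c P k.1 i j • R.Ad k.1 (P.X j) := by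
        rw [← gJ_Ad_sum, ← gJ_c_spec, ← gJ_Ad_mul, mul_inv_cancel, gJ_Ad_one]
      conv_rhs => rw [hX, gJ_act_sum]
      simp only [LinearMap.sum_apply, LinearMap.smul_apply, map_sum, map_smul, hk]
  · intro X γ hγ v
    have h0 : γ 0 = 1 := by
      have h := hγ.2.1 0 0
      rw [add_zero] at h
      exact (mul_eq_left.1 h.symm)
    have hfst := Gl.deriv X γ hγ v
    have hsnd : ∀ i, HasDerivAt (fun t : ℝ => ∑ j, ((gJ_c P (γ t) i j : ℝ) : ℂ) •
        Gl.π (γ t) (Gl.ι (Mo.act (P.X j) v))) (Gl.ι (Mo.act (P.X i) (Mo.act X v))) 0 := by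
      intro i
      have hj : ∀ j, HasDerivAt (fun t : ℝ => ((gJ_c P (γ t) i j : ℝ) : ℂ) •
          Gl.π (γ t) (Gl.ι (Mo.act (P.X j) v)))
          (((gJ_c P (γ 0) i j : ℝ) : ℂ) • Gl.ι (Mo.act X (Mo.act (P.X j) v)) +
            (((-((P.X j).1ᵀ * (R.br X (P.X i)).1).trace : ℝ)) : ℂ) •
              Gl.π (γ 0) (Gl.ι (Mo.act (P.X j) v))) 0 := by
        intro j
        exact ((gJ_c_deriv P X γ hγ i j).ofReal_comp).smul (Gl.deriv X γ hγ _)
      have hs := HasDerivAt.fun_sum (u := Finset.univ) fun j _ => hj j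
      refine hs.congr_deriv ?_
      rw [Finset.sum_add_distrib, h0, gJ_c_one, map_one]
      have e1 : ∑ j, (((1 : Matrix (Fin P.d) (Fin P.d) ℝ) i j : ℝ) : ℂ) •
          Gl.ι (Mo.act X (Mo.act (P.X j) v)) = Gl.ι (Mo.act X (Mo.act (P.X i) v)) := by
        simp [Matrix.one_apply]
      have e2 : ∑ j, (((-((P.X j).1ᵀ * (R.br X (P.X i)).1).trace : ℝ)) : ℂ) •
          (1 : E →L[ℂ] E) (Gl.ι (Mo.act (P.X j) v)) = - Gl.ι (Mo.act (R.br X (P.X i)) v) := by
        conv_rhs => rw [P.X_spans (R.br X (P.X i)), gJ_act_sum]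
        simp
      rw [e1, e2, Mo.act_lie]
      simp
    have hpair := hfst.prodMk (hasDerivAt_pi.2 hsnd)
    have hd : HasDerivAt (fun t : ℝ => gJ_op (gJ_c P (γ t)) (Gl.π (γ t)) (gJ_iota P Mo Gl.ι v))
        (Gl.ι (Mo.act X v), fun i => Gl.ι (Mo.act (P.X i) (Mo.act X v))) 0 := by
      refine hpair.congr_of_eventuallyEq (Filter.Eventually.of_forall fun t => ?_)
      refine Prod.ext rfl (funext fun i => ?_)
      exact gJ_op_snd _ _ _ _
    exact hd
  · intro g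
    exact gJ_op_norm _ _ (hw.pos g).le (Gl.bound g)

end glob

/-- TARGET -/
theorem g_up (h1 : S_renorm.{u}) (h2 : S_glob.{u}) (h3 : S_pack) : S_up.{u} := by
  intro G _ _ _ _ _ R w hw V _ _ Mo p hp
  obtain ⟨P⟩ := h3 G R
  obtain ⟨E, _, _, _, Gl, _, C, hC, hCp⟩ := h1 G R w hw V Mo p hp
  obtain ⟨Gl', hGl'⟩ := gJ_glob P Mo hw Gl
  refine ⟨gJ_w P w, gJ_weight P hw, fun v => ‖Gl'.ι v‖, h2 G R _ (gJ_weight P hw) V Mo _ Gl', ?_, ?_⟩
  · refine ⟨C, fun v => (hCp v).2.trans (mul_le_mul_of_nonneg_left ?_ hC.le)⟩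
    rw [hGl']
    exact norm_fst_le (gJ_iota P Mo Gl.ι v)
  · intro X
    refine ⟨C * ∑ i, |((P.X i).1ᵀ * X.1).trace|, fun v => ?_⟩
    have hX : Mo.act X v = ∑ i, ((((P.X i).1ᵀ * X.1).trace : ℝ) : ℂ) • Mo.act (P.X i) v := by
      conv_lhs => rw [P.X_spans X, gJ_act_sum]
      simp
    have h5 : ∀ i, ‖Gl.ι (Mo.act (P.X i) v)‖ ≤ ‖Gl'.ι v‖ := by
      intro i
      rw [hGl', ← gJ_iota_snd]
      exact (norm_le_pi_norm _ i).trans (norm_snd_le _)
    calc p (Mo.act X v) ≤ C * ‖Gl.ι (Mo.act X v)‖ := (hCp _).2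
      _ ≤ C * ((∑ i, |((P.X i).1ᵀ * X.1).trace|) * ‖Gl'.ι v‖) := by
          apply mul_le_mul_of_nonneg_left _ hC.le
          rw [hX, map_sum, Finset.sum_mul]
          refine (norm_sum_le _ _).trans (Finset.sum_le_sum fun i _ => ?_)
          rw [map_smul, norm_smul, Complex.norm_real, Real.norm_eq_abs]
          exact mul_le_mul_of_nonneg_left (h5 i) (abs_nonneg _)
      _ = _ := by ring

end Pool.Agent.H913.AV
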