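import Pool.Agent.H913.AV.Stmts

/-! The Laplacian of `K` is accretive for an equivalent norm. -/

open MeasureTheory Matrix NormedSpace Filter Topology
open scoped Matrix

universe u

namespace Pool.Agent.H913.AV

open Pool.Agent.H913.SG

/-- The second derivative at a maximum is at most `0`. -/
theorem gK_second (h h1 : ℝ → ℝ) (c : ℝ) (hd : ∀ t, HasDerivAt h (h1 t) t)
    (hd1 : HasDerivAt h1 c 0) (hmax : ∀ t, h t ≤ h 0) : c ≤ 0 := by
  by_contra hc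
  rw [not_le] at hc
  have e1 : deriv h = h1 := funext fun t => (hd t).deriv
  have e2 : deriv (deriv h) 0 = c := by rw [e1]; exact hd1.deriv
  have hmax' : IsLocalMax h 0 := Filter.Eventually.of_forall hmax
  have h10 : deriv h 0 = 0 := hmax'.deriv_eq_zero
  have hmin : IsLocalMin h 0 := isLocalMin_of_deriv_deriv_pos (by rw [e2]; exact hc) h10
    (hd 0).continuousAt
  have heq : h =ᶠ[𝓝 0] fun _ => h 0 := hmin.mono fun t ht => le_antisymm (hmax t) ht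
  have h3 : deriv h =ᶠ[𝓝 0] deriv (fun _ => h 0) := heq.deriv
  have h4 : deriv (deriv h) 0 = 0 := by
    rw [h3.deriv_eq]; simp
  linarith

section

variable {G : Type} [Group G] [TopologicalSpace G] {R : RealReductive G} {V : Type u}
  [AddCommGroup V] [Module ℂ V]

/-- The derivative of a matrix coefficient along a one-parameter group of `K`, at any time. -/
theorem gK_deriv (Mo : HCModule R V) (P : Pack R) (X : R.lie) (hX : R.IsSkew X)
    (f : V →ₗ[ℂ] ℂ) (v : V) (t : ℝ) :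
    HasDerivAt (fun t : ℝ => f (Mo.kact ⟨P.gam X t, P.gam_mem X hX t⟩ v))
      (f (Mo.kact ⟨P.gam X t, P.gam_mem X hX t⟩ (Mo.act X v))) t := by
  have h0 := Mo.deriv X (P.gam X) (P.gam_spec X) (P.gam_mem X hX) v
    (f ∘ₗ Mo.kact ⟨P.gam X t, P.gam_mem X hX t⟩)
  have h1 : HasDerivAt (fun s : ℝ => f (Mo.kact ⟨P.gam X (t + s), P.gam_mem X hX (t + s)⟩ v))
      (f (Mo.kact ⟨P.gam X t, P.gam_mem X hX t⟩ (Mo.act X v))) 0 := by
    refine h0.congr_of_eventuallyEq (Filter.Eventually.of_forall fun s => ?_)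
    have e : (⟨P.gam X (t + s), P.gam_mem X hX (t + s)⟩ : R.K) =
        ⟨P.gam X t, P.gam_mem X hX t⟩ * ⟨P.gam X s, P.gam_mem X hX s⟩ :=
      Subtype.ext ((P.gam_spec X).2.1 t s)
    simp only [e, map_mul, Module.End.mul_apply, LinearMap.comp_apply]
  have h2 : HasDerivAt (fun s : ℝ => f (Mo.kact ⟨P.gam X (t + (s - t)),
      P.gam_mem X hX (t + (s - t))⟩ v))
      (f (Mo.kact ⟨P.gam X t, P.gam_mem X hX t⟩ (Mo.act X v))) t := by
    have h3 : HasDerivAt (fun s : ℝ => f (Mo.kact ⟨P.gam X (t + s), P.gam_mem X hX (t + s)⟩ v))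
      (f (Mo.kact ⟨P.gam X t, P.gam_mem X hX t⟩ (Mo.act X v))) (t - t) := by
      rw [sub_self]; exact h1
    exact h3.comp_sub_const t t
  refine h2.congr_of_eventuallyEq (Filter.Eventually.of_forall fun s => ?_)
  simp only [add_sub_cancel]

/-- Squares of elements of the Lie algebra of `K` are dissipative for `K`-invariant norms. -/
theorem gK_diss (Mo : HCModule R V) (P : Pack R) (X : R.lie) (hX : R.IsSkew X)
    {F : Type u} [NormedAddCommGroup F] [NormedSpace ℂ F] (J : V →ₗ[ℂ] F)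
    (hJ : ∀ k v, ‖J (Mo.kact k v)‖ ≤ ‖J v‖) (φ : F →L[ℂ] ℂ) (hφ : ‖φ‖ ≤ 1) (v : V)
    (hv : φ (J v) = ((‖J v‖ : ℝ) : ℂ)) : (φ (J (Mo.act X (Mo.act X v)))).re ≤ 0 := by
  have e0 : (⟨P.gam X 0, P.gam_mem X hX 0⟩ : R.K) = 1 := by
    have h := (P.gam_spec X).2.1 0 0
    rw [add_zero] at h
    exact Subtype.ext (by simpa using h)
  have hre : ∀ (u : V) (t : ℝ), HasDerivAt
      (fun t : ℝ => (φ (J (Mo.kact ⟨P.gam X t, P.gam_mem X hX t⟩ u))).re)
      (φ (J (Mo.kact ⟨P.gam X t, P.gam_mem X hX t⟩ (Mo.act X u)))).re t := fun u t =>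
    Complex.reCLM.hasFDerivAt.comp_hasDerivAt t
      (gK_deriv Mo P X hX (φ.toLinearMap ∘ₗ J) u t)
  have h2 := hre (Mo.act X v) 0
  rw [e0, map_one, Module.End.one_apply] at h2
  refine gK_second _ _ _ (hre v) h2 fun t => ?_
  calc (φ (J (Mo.kact ⟨P.gam X t, P.gam_mem X hX t⟩ v))).re
      ≤ ‖φ (J (Mo.kact ⟨P.gam X t, P.gam_mem X hX t⟩ v))‖ := Complex.re_le_norm _
    _ ≤ ‖φ‖ * ‖J (Mo.kact ⟨P.gam X t, P.gam_mem X hX t⟩ v)‖ := φ.le_opNorm _
    _ ≤ 1 * ‖J v‖ := mul_le_mul hφ (hJ _ v) (norm_nonneg _) zero_le_one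
    _ = (φ (J (Mo.kact ⟨P.gam X 0, P.gam_mem X hX 0⟩ v))).re := by
        rw [e0, map_one, Module.End.one_apply, hv, one_mul, Complex.ofReal_re]

/-- The Laplacian is accretive for `K`-invariant norms. -/
theorem gK_acc (Mo : HCModule R V) (P : Pack R) (B : R.InvBasis)
    {F : Type u} [NormedAddCommGroup F] [NormedSpace ℂ F] (J : V →ₗ[ℂ] F)
    (hJ : ∀ k v, ‖J (Mo.kact k v)‖ ≤ ‖J v‖) : Acc (lap Mo B) J := by
  intro l hl v
  obtain ⟨φ, hφ, hv⟩ := exists_dual_vector'' ℂ (J v)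
  have hv' : φ (J v) = ((‖J v‖ : ℝ) : ℂ) := hv
  have h1 : (φ (J ((l : ℂ) • v + lap Mo B v))).re =
      l * ‖J v‖ + ∑ i, - (φ (J (Mo.act (B.b i) (Mo.act (B.b i) v)))).re := by
    have e1 : lap Mo B v = - ∑ i, Mo.act (B.b i) (Mo.act (B.b i) v) := by
      simp [lap, LinearMap.sum_apply]
    rw [e1, map_add, map_add, map_smul, map_smul, hv', Complex.add_re, map_neg, map_neg,
      Complex.neg_re, map_sum, map_sum, Complex.re_sum, Finset.sum_neg_distrib]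
    simp
  have h2 : 0 ≤ ∑ i, - (φ (J (Mo.act (B.b i) (Mo.act (B.b i) v)))).re :=
    Finset.sum_nonneg fun i _ => by
      have := gK_diss Mo P (B.b i) (B.skew i) J hJ φ hφ v hv'
      linarith
  calc l * ‖J v‖ ≤ (φ (J ((l : ℂ) • v + lap Mo B v))).re := by rw [h1]; linarith
    _ ≤ ‖φ (J ((l : ℂ) • v + lap Mo B v))‖ := Complex.re_le_norm _
    _ ≤ ‖φ‖ * ‖J ((l : ℂ) • v + lap Mo B v)‖ := φ.le_opNorm _
    _ ≤ 1 * ‖J ((l : ℂ) • v + lap Mo B v)‖ := mul_le_mul_of_nonneg_right hφ (norm_nonneg _)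
    _ = _ := one_mul _

/-- A weight is bounded on `K`. -/
theorem gK_bdd (P : Pack R) (w : G → ℝ) (hw : IsWeight w) :
    ∃ C : ℝ, 0 ≤ C ∧ ∀ k : R.K, w k.1 ≤ C := by
  have hK : IsCompact (R.K : Set G) := isCompact_iff_compactSpace.mpr P.compactK
  have h : ∃ C : ℝ, ∀ k ∈ (R.K : Set G), w k ≤ C := by
    refine hK.induction_on (p := fun s => ∃ C : ℝ, ∀ k ∈ s, w k ≤ C) ⟨0, by simp⟩ ?_ ?_ ?_
    · rintro s t hst ⟨C, hC⟩
      exact ⟨C, fun k hk => hC k (hst hk)⟩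
    · rintro s t ⟨C, hC⟩ ⟨D, hD⟩
      refine ⟨max C D, fun k hk => ?_⟩
      rcases hk with hk | hk
      · exact (hC k hk).trans (le_max_left _ _)
      · exact (hD k hk).trans (le_max_right _ _)
    · intro x _
      obtain ⟨U, hU, C, hC⟩ := hw.locally_bounded x
      exact ⟨U, mem_nhdsWithin_of_mem_nhds hU, C, hC⟩
  obtain ⟨C, hC⟩ := h
  exact ⟨C, (hw.pos 1).le.trans (hC 1 R.K.one_mem), fun k => hC k.1 k.2⟩

/-- The embedding of `V` into the continuous functions on `K`. -/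
def gK_J {Mo : HCModule R V} {w : G → ℝ} {E : Type u} [NormedAddCommGroup E] [NormedSpace ℂ E]
    (Gl : Glob Mo w E) : V →ₗ[ℂ] C(R.K, E) where
  toFun v := ⟨fun k => Gl.π k.1 (Gl.ι v), (Gl.cont _).comp continuous_subtype_val⟩
  map_add' a b := by ext k; simp
  map_smul' c a := by ext k; simp

end

/-- TARGET -/
theorem g_acc (h1 : S_renorm.{u}) (h2 : S_pack) : S_acc.{u} := by
  intro G _ _ _ _ _ R B w hw V _ _ Mo p hp
  obtain ⟨P⟩ := h2 G R
  obtain ⟨E, i1, i2, i3, Gl, -, C, hC, hCp⟩ := h1 G R w hw V Mo p hp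
  have := P.compactK
  obtain ⟨D, hD0, hD⟩ := gK_bdd P w hw
  have hlow : ∀ v, ‖Gl.ι v‖ ≤ ‖gK_J Gl v‖ := fun v => by
    have h := (gK_J Gl v).norm_coe_le_norm 1
    have e : (gK_J Gl v) 1 = Gl.ι v := by
      change Gl.π ((1 : R.K) : G) (Gl.ι v) = Gl.ι v
      simp
    rwa [e] at h
  have hup : ∀ v, ‖gK_J Gl v‖ ≤ D * ‖Gl.ι v‖ := fun v => by
    refine (ContinuousMap.norm_le _ (mul_nonneg hD0 (norm_nonneg _))).2 fun k => ?_
    calc ‖Gl.π k.1 (Gl.ι v)‖ ≤ ‖Gl.π k.1‖ * ‖Gl.ι v‖ := (Gl.π k.1).le_opNorm _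
      _ ≤ D * ‖Gl.ι v‖ := mul_le_mul_of_nonneg_right ((Gl.bound _).trans (hD k)) (norm_nonneg _)
  have hinv : ∀ k v, ‖gK_J Gl (Mo.kact k v)‖ ≤ ‖gK_J Gl v‖ := fun k v => by
    refine (ContinuousMap.norm_le _ (norm_nonneg _)).2 fun k' => ?_
    have e : (gK_J Gl (Mo.kact k v)) k' = (gK_J Gl v) (k' * k) := by
      change Gl.π k'.1 (Gl.ι (Mo.kact k v)) = Gl.π (k' * k : R.K).1 (Gl.ι v)
      rw [← Gl.kcomp k v, Subgroup.coe_mul, map_mul]
      rfl
    rw [e]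
    exact (gK_J Gl v).norm_coe_le_norm _
  refine ⟨C(R.K, E), inferInstance, inferInstance, gK_J Gl, gK_acc Mo P B (gK_J Gl) hinv,
    ⟨C, fun v => (hCp v).2.trans (mul_le_mul_of_nonneg_left (hlow v) hC.le)⟩,
    ⟨D * C, fun v => ?_⟩⟩
  calc ‖gK_J Gl v‖ ≤ D * ‖Gl.ι v‖ := hup v
    _ ≤ D * (C * p v) := mul_le_mul_of_nonneg_left (hCp v).1 hD0
    _ = D * C * p v := by ring

end Pool.Agent.H913.AV
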