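import Pool.Agent.H913.AV.Stmts

open MeasureTheory Matrix NormedSpace Filter Topology
open scoped Matrix

universe u

namespace Pool.Agent.H913.AV

open Pool.Agent.H913.SG

/-! Proof. lap Mo B commutes with κ(k): κ(k) act(b i) = act(Ad k b i) κ(k) (Mo.compat), Ad k b i = ∑_j O j i b j with Oᵀ O = 1 (so O Oᵀ = 1) by B.invariant, hence ∑_i act(Ad k b i)^2 = ∑_j act(b j)^2. Diagonalizability: S_eigA (h1) with P from h2. So if L v = c v then L κ(k) v = c κ(k) v, T κ(k) v = φ(c) κ(k) v = κ(k) T v; general v: finite sum of eigenvectors. -/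

section gLMo

variable {G : Type} [Group G] [TopologicalSpace G] {R : RealReductive G}
variable {V : Type u} [AddCommGroup V] [Module ℂ V] (Mo : HCModule R V)

lemma gL_act_zero : Mo.act 0 = 0 := by
  have h := Mo.act_smul 0 0
  rw [zero_smul] at h
  rw [h]
  simp

lemma gL_act_sum {m : ℕ} (c : Fin m → ℝ) (b : Fin m → R.lie) :
    Mo.act (∑ i, c i • b i) = ∑ i, (c i : ℂ) • Mo.act (b i) := by
  have h : ∀ s : Finset (Fin m), Mo.act (∑ i ∈ s, c i • b i) =
      ∑ i ∈ s, (c i : ℂ) • Mo.act (b i) := by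
    intro s
    induction s using Finset.induction_on with
    | empty => simpa using gL_act_zero Mo
    | insert a s ha ih => rw [Finset.sum_insert ha, Finset.sum_insert ha, Mo.act_add, ih,
        Mo.act_smul]
  exact h _

lemma gL_comm (B : R.InvBasis) (k : R.K) :
    Mo.kact k * lap Mo B = lap Mo B * Mo.kact k := by
  obtain ⟨O, hO, hb⟩ := B.invariant k.1 k.2
  have hO' : O * Oᵀ = 1 := mul_eq_one_comm.mp hO
  unfold lap
  rw [mul_neg, neg_mul, Finset.mul_sum]
  congr 1
  have h1 : ∀ i, Mo.kact k * (Mo.act (B.b i) * Mo.act (B.b i)) =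
      (∑ j, (O j i : ℂ) • Mo.act (B.b j)) * (∑ l, (O l i : ℂ) • Mo.act (B.b l)) * Mo.kact k := by
    intro i
    rw [← gL_act_sum, ← hb i, ← mul_assoc, Mo.compat, mul_assoc, Mo.compat, ← mul_assoc]
  simp only [h1]
  rw [← Finset.sum_mul]
  congr 1
  simp only [Finset.sum_mul_sum]
  rw [Finset.sum_comm]
  have h2 : ∀ j, ∑ i, ∑ l, ((O j i : ℂ) • Mo.act (B.b j)) * ((O l i : ℂ) • Mo.act (B.b l)) =
      Mo.act (B.b j) * Mo.act (B.b j) := by
    intro j
    rw [Finset.sum_comm]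
    have h3 : ∀ l, ∑ i, ((O j i : ℂ) • Mo.act (B.b j)) * ((O l i : ℂ) • Mo.act (B.b l)) =
        (((1 : Matrix (Fin B.m) (Fin B.m) ℝ) j l : ℝ) : ℂ) •
          (Mo.act (B.b j) * Mo.act (B.b l)) := by
      intro l
      rw [← hO', Matrix.mul_apply]
      push_cast
      rw [Finset.sum_smul]
      refine Finset.sum_congr rfl fun i _ => ?_
      rw [smul_mul_smul_comm, Matrix.transpose_apply]
    simp only [h3]
    rw [Finset.sum_eq_single j]
    · simp
    · intro l _ hl
      rw [Matrix.one_apply_ne (Ne.symm hl)]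
      simp
    · intro hj
      exact absurd (Finset.mem_univ j) hj
  exact Finset.sum_congr rfl fun j _ => h2 j

end gLMo

/-- TARGET -/
theorem g_comm (h1 : S_eigA.{u}) (h2 : S_pack) : S_comm.{u} := by
  intro G _ _ _ _ _ R B V _ _ Mo φ T hT k
  obtain ⟨P⟩ := h2 G R
  obtain ⟨_, hdec⟩ := h1 G R P B V Mo
  have hc := gL_comm Mo B k
  have hc' : ∀ x, lap Mo B (Mo.kact k x) = Mo.kact k (lap Mo B x) := fun x =>
    (LinearMap.congr_fun hc x).symm
  refine LinearMap.ext fun v => ?_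
  obtain ⟨f, hf, rfl⟩ := hdec v
  change Mo.kact k (T (f.sum fun _ x => x)) = T (Mo.kact k (f.sum fun _ x => x))
  simp only [Finsupp.sum, map_sum]
  refine Finset.sum_congr rfl fun c _ => ?_
  have e1 : T (f c) = ((φ c : ℝ) : ℂ) • f c := hT c (f c) (hf c)
  have e2 : lap Mo B (Mo.kact k (f c)) = (c : ℂ) • Mo.kact k (f c) := by
    rw [hc', hf c, map_smul]
  have e3 : T (Mo.kact k (f c)) = ((φ c : ℝ) : ℂ) • Mo.kact k (f c) := hT c _ e2
  rw [e1, e3, map_smul]

end Pool.Agent.H913.AV
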