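import Pool.Agent.H913.AV.Stmts

open MeasureTheory Matrix NormedSpace Filter Topology
open scoped Matrix

universe u

namespace Pool.Agent.H913.AV

open Pool.Agent.H913.SG

section Aux

variable {G : Type} [Group G] [TopologicalSpace G] {R : RealReductive G} {V : Type u}
  [AddCommGroup V] [Module ℂ V]

theorem gM_nonneg {Mo : HCModule R V} {w : G → ℝ} {p : V → ℝ} (hp : IsNormIn Mo w p) (v : V) :
    0 ≤ p v := by
  obtain ⟨E, _, _, _, ι, π, _, _, h, _⟩ := hp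
  rw [h]; exact norm_nonneg _

theorem gM_add {Mo : HCModule R V} {w : G → ℝ} {p : V → ℝ} (hp : IsNormIn Mo w p) (u v : V) :
    p (u + v) ≤ p u + p v := by
  obtain ⟨E, _, _, _, ι, π, _, _, h, _⟩ := hp
  rw [h, h, h, map_add]; exact norm_add_le _ _

theorem gM_neg {Mo : HCModule R V} {w : G → ℝ} {p : V → ℝ} (hp : IsNormIn Mo w p) (v : V) :
    p (-v) = p v := by
  obtain ⟨E, _, _, _, ι, π, _, _, h, _⟩ := hp
  rw [h, h, map_neg]; exact norm_neg _

theorem gM_zero {Mo : HCModule R V} {w : G → ℝ} {p : V → ℝ} (hp : IsNormIn Mo w p) :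
    p 0 = 0 := by
  obtain ⟨E, _, _, _, ι, π, _, _, h, _⟩ := hp
  rw [h, map_zero]; exact norm_zero

theorem gM_sum {Mo : HCModule R V} {w : G → ℝ} {p : V → ℝ} (hp : IsNormIn Mo w p)
    {m : Type} (s : Finset m) (f : m → V) : p (∑ i ∈ s, f i) ≤ ∑ i ∈ s, p (f i) := by
  classical
  induction s using Finset.induction_on with
  | empty => simp [gM_zero hp]
  | insert a s ha ih =>
    rw [Finset.sum_insert ha, Finset.sum_insert ha]
    exact (gM_add hp _ _).trans (add_le_add_right ih _)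

omit [AddCommGroup V] [Module ℂ V] in
/-- transitivity of `≲` along a map -/
theorem gM_trans {p q r : V → ℝ} (hq : ∀ v, 0 ≤ q v) (f g : V → V)
    (h1 : NormLE (fun v => p (f v)) q) (h2 : NormLE (fun v => q (g v)) r) :
    NormLE (fun v => p (f (g v))) r := by
  obtain ⟨C1, h1⟩ := h1
  obtain ⟨C2, h2⟩ := h2
  refine ⟨|C1| * C2, fun v => ?_⟩
  calc p (f (g v)) ≤ C1 * q (g v) := h1 (g v)
    _ ≤ |C1| * q (g v) := mul_le_mul_of_nonneg_right (le_abs_self _) (hq _)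
    _ ≤ |C1| * (C2 * r v) := mul_le_mul_of_nonneg_left (h2 v) (abs_nonneg _)
    _ = |C1| * C2 * r v := (mul_assoc _ _ _).symm

end Aux

/-- one factor `1 + lap` -/
theorem gM_step (h1 : S_up.{u}) (G : Type) [Group G] [TopologicalSpace G] [IsTopologicalGroup G]
    [T2Space G] [SecondCountableTopology G] (R : RealReductive G) (B : R.InvBasis) (w : G → ℝ)
    (hw : IsWeight w) (V : Type u) [AddCommGroup V] [Module ℂ V] (Mo : HCModule R V) (p : V → ℝ)
    (hp : IsNormIn Mo w p) :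
    ∃ w' : G → ℝ, IsWeight w' ∧ ∃ r, IsNormIn Mo w' r ∧ NormLE p r ∧
      NormLE (fun v => p ((1 + lap Mo B) v)) r := by
  obtain ⟨w1, hw1, a, ha, hpa, haX⟩ := h1 G R w hw V Mo p hp
  obtain ⟨w2, hw2, b, hb, hab, hbX⟩ := h1 G R w1 hw1 V Mo a ha
  have hpb : NormLE p b := gM_trans (gM_nonneg ha) id id hpa hab
  have hX : ∀ X : R.lie, NormLE (fun v => p (Mo.act X (Mo.act X v))) b := fun X =>
    gM_trans (gM_nonneg ha) (fun v => Mo.act X v) (fun v => Mo.act X v) (haX X) (hbX X)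
  refine ⟨w2, hw2, b, hb, hpb, ?_⟩
  obtain ⟨C0, hC0⟩ := hpb
  choose C hC using fun i => hX (B.b i)
  refine ⟨C0 + ∑ i, C i, fun v => ?_⟩
  have e1 : (1 + lap Mo B) v = v + -∑ i, Mo.act (B.b i) (Mo.act (B.b i) v) := by
    rw [lap, LinearMap.add_apply, Module.End.one_apply, LinearMap.neg_apply,
      LinearMap.sum_apply]
    rfl
  calc p ((1 + lap Mo B) v) ≤ p v + p (-∑ i, Mo.act (B.b i) (Mo.act (B.b i) v)) := by
        rw [e1]; exact gM_add hp _ _
    _ = p v + p (∑ i, Mo.act (B.b i) (Mo.act (B.b i) v)) := by rw [gM_neg hp]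
    _ ≤ p v + ∑ i, p (Mo.act (B.b i) (Mo.act (B.b i) v)) :=
        add_le_add_right (gM_sum hp _ _) _
    _ ≤ C0 * b v + ∑ i, C i * b v :=
        add_le_add (hC0 v) (Finset.sum_le_sum fun i _ => hC i v)
    _ = (C0 + ∑ i, C i) * b v := by rw [add_mul, Finset.sum_mul]

theorem gM_pow (h1 : S_up.{u}) (G : Type) [Group G] [TopologicalSpace G] [IsTopologicalGroup G]
    [T2Space G] [SecondCountableTopology G] (R : RealReductive G) (B : R.InvBasis) (w : G → ℝ)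
    (hw : IsWeight w) (V : Type u) [AddCommGroup V] [Module ℂ V] (Mo : HCModule R V) (p : V → ℝ)
    (hp : IsNormIn Mo w p) (M : ℕ) :
    ∃ w' : G → ℝ, IsWeight w' ∧ ∃ r, IsNormIn Mo w' r ∧ NormLE p r ∧
      NormLE (fun v => p (((1 + lap Mo B) ^ M) v)) r := by
  induction M with
  | zero =>
    refine ⟨w, hw, p, hp, ⟨1, fun v => by rw [one_mul]⟩, ⟨1, fun v => ?_⟩⟩
    change p (((1 + lap Mo B : Module.End ℂ V) ^ 0) v) ≤ 1 * p v
    rw [one_mul, pow_zero, Module.End.one_apply]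
  | succ M ih =>
    obtain ⟨w1, hw1, a, ha, hpa, hM⟩ := ih
    obtain ⟨w2, hw2, b, hb, hab, hs⟩ := gM_step h1 G R B w1 hw1 V Mo a ha
    refine ⟨w2, hw2, b, hb, gM_trans (gM_nonneg ha) id id hpa hab, ?_⟩
    have h := gM_trans (gM_nonneg ha) (fun v => ((1 + lap Mo B) ^ M) v)
      (fun v => (1 + lap Mo B) v) hM hs
    obtain ⟨C, hC⟩ := h
    refine ⟨C, fun v => ?_⟩
    rw [pow_succ]
    exact hC v

theorem gM_eigpow {V : Type u} [AddCommGroup V] [Module ℂ V] (L : Module.End ℂ V) (c : ℝ) (v : V)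
    (hv : L v = (c : ℂ) • v) (M : ℕ) : ((1 + L) ^ M) v = (((1 + c) ^ M : ℝ) : ℂ) • v := by
  induction M with
  | zero => simp
  | succ M ih =>
    rw [pow_succ', Module.End.mul_apply, ih, map_smul, LinearMap.add_apply, Module.End.one_apply,
      hv, pow_succ, Complex.ofReal_mul, mul_smul, Complex.ofReal_add, Complex.ofReal_one, add_smul,
      one_smul]

/-- TARGET -/
theorem g_ups (h1 : S_up.{u}) (h2 : S_renorm.{u}) (h3 : S_acc.{u}) (h4 : S_neg.{u}) (h5 : S_fc.{u})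
    (h6 : S_eigA.{u}) (h7 : S_pack) : S_ups.{u} := by
  intro G _ _ _ _ _ R B w hw V _ _ Mo p hp s hs T hT
  obtain ⟨P⟩ := h7 G R
  have hD : Diag (lap Mo B) := h6 G R P B V Mo
  obtain ⟨M, hM⟩ := exists_nat_ge (s / 2)
  obtain ⟨w', hw', r, hr, hpr, hprM⟩ := gM_pow h1 G R B w hw V Mo p hp M
  obtain ⟨S, hS⟩ := (h5 V (lap Mo B) hD).1 (fun c => (1 + c) ^ (-((M : ℝ) - s / 2)))
  have hTS : T = S * (1 + lap Mo B) ^ M := by
    refine (h5 V (lap Mo B) hD).2 (fun c => (1 + c) ^ (s / 2))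
      (fun c => (1 + c) ^ M * (1 + c) ^ (-((M : ℝ) - s / 2))) T _ hT ?_ ?_
    · intro c v hv
      rw [Module.End.mul_apply, gM_eigpow _ c v hv M, map_smul, hS c v hv, smul_smul,
        ← Complex.ofReal_mul]
    · intro c hc
      have hc1 : (0 : ℝ) < 1 + c := by linarith
      change (1 + c) ^ (s / 2) = (1 + c) ^ M * (1 + c) ^ (-((M : ℝ) - s / 2))
      rw [← Real.rpow_natCast, ← Real.rpow_add hc1]
      congr 1
      ring
  obtain ⟨F, j1, j2, J, hJ, ⟨C1, hC1⟩, ⟨C2, hC2⟩⟩ := h3 G R B w hw V Mo p hp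
  have hneg := h4 V (lap Mo B) hD F J hJ ((M : ℝ) - s / 2) (by linarith) S hS
  obtain ⟨E, i1, i2, i3, Gl, hdense, C, hCpos, hC⟩ := h2 G R w' hw' V Mo r hr
  obtain ⟨C3, hC3⟩ := hpr
  obtain ⟨C4, hC4⟩ := hprM
  refine ⟨w', hw', E, i1, i2, i3, Gl, hdense, |C3| * C + |C1| * (|C2| * (|C4| * C)), ?_, ?_⟩
  · intro v
    have hr0 := gM_nonneg hr v
    have hG0 : 0 ≤ ‖Gl.ι v‖ := norm_nonneg _
    calc p v ≤ C3 * r v := hC3 v
      _ ≤ |C3| * r v := mul_le_mul_of_nonneg_right (le_abs_self _) hr0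
      _ ≤ |C3| * (C * ‖Gl.ι v‖) := mul_le_mul_of_nonneg_left (hC v).2 (abs_nonneg _)
      _ = |C3| * C * ‖Gl.ι v‖ := by ring
      _ ≤ (|C3| * C + |C1| * (|C2| * (|C4| * C))) * ‖Gl.ι v‖ := by
          apply mul_le_mul_of_nonneg_right _ hG0
          have : 0 ≤ |C1| * (|C2| * (|C4| * C)) := by positivity
          linarith
  · intro v
    have hr0 := gM_nonneg hr v
    have hG0 : 0 ≤ ‖Gl.ι v‖ := norm_nonneg _
    have hTv : T v = S (((1 + lap Mo B) ^ M) v) := by rw [hTS]; rfl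
    calc p (T v) = p (S (((1 + lap Mo B) ^ M) v)) := by rw [hTv]
      _ ≤ C1 * ‖J (S (((1 + lap Mo B) ^ M) v))‖ := hC1 _
      _ ≤ |C1| * ‖J (S (((1 + lap Mo B) ^ M) v))‖ :=
          mul_le_mul_of_nonneg_right (le_abs_self _) (norm_nonneg _)
      _ ≤ |C1| * ‖J (((1 + lap Mo B) ^ M) v)‖ :=
          mul_le_mul_of_nonneg_left (hneg _) (abs_nonneg _)
      _ ≤ |C1| * (C2 * p (((1 + lap Mo B) ^ M) v)) :=
          mul_le_mul_of_nonneg_left (hC2 _) (abs_nonneg _)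
      _ ≤ |C1| * (|C2| * p (((1 + lap Mo B) ^ M) v)) :=
          mul_le_mul_of_nonneg_left (mul_le_mul_of_nonneg_right (le_abs_self _) (gM_nonneg hp _))
            (abs_nonneg _)
      _ ≤ |C1| * (|C2| * (C4 * r v)) :=
          mul_le_mul_of_nonneg_left (mul_le_mul_of_nonneg_left (hC4 v) (abs_nonneg _))
            (abs_nonneg _)
      _ ≤ |C1| * (|C2| * (|C4| * r v)) :=
          mul_le_mul_of_nonneg_left (mul_le_mul_of_nonneg_left
            (mul_le_mul_of_nonneg_right (le_abs_self _) hr0) (abs_nonneg _)) (abs_nonneg _)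
      _ ≤ |C1| * (|C2| * (|C4| * (C * ‖Gl.ι v‖))) :=
          mul_le_mul_of_nonneg_left (mul_le_mul_of_nonneg_left
            (mul_le_mul_of_nonneg_left (hC v).2 (abs_nonneg _)) (abs_nonneg _)) (abs_nonneg _)
      _ = |C1| * (|C2| * (|C4| * C)) * ‖Gl.ι v‖ := by ring
      _ ≤ (|C3| * C + |C1| * (|C2| * (|C4| * C))) * ‖Gl.ι v‖ := by
          apply mul_le_mul_of_nonneg_right _ hG0
          have : 0 ≤ |C3| * C := by positivity
          linarith

end Pool.Agent.H913.AV
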