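import Pool.Agent.H913.AV.Stmts

open MeasureTheory Matrix NormedSpace Filter Topology
open scoped Matrix

universe u

namespace Pool.Agent.H913.AV

open Pool.Agent.H913.SG

theorem gN_weight {G : Type} [Group G] [TopologicalSpace G] {w : G → ℝ} (hw : IsWeight w) {C : ℝ}
    (hC : 1 ≤ C) : IsWeight fun g => C * w g where
  pos g := mul_pos (by linarith) (hw.pos g)
  locally_bounded g := by
    obtain ⟨U, hU, D, hD⟩ := hw.locally_bounded g
    exact ⟨U, hU, C * D, fun x hx => mul_le_mul_of_nonneg_left (hD x hx) (by linarith)⟩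
  submul g h := by
    have h1 := hw.submul g h
    have h2 := hw.pos g
    have h3 := hw.pos h
    have h4 : 0 < w g * w h := mul_pos h2 h3
    calc C * w (g * h) ≤ C * (w g * w h) := mul_le_mul_of_nonneg_left h1 (by linarith)
      _ ≤ C * (C * (w g * w h)) := by
          apply mul_le_mul_of_nonneg_left _ (by linarith)
          nlinarith
      _ = C * w g * (C * w h) := by ring

theorem gN_key (h1 : S_ext.{u}) (h2 : S_closable.{u}) (G : Type) [Group G] [TopologicalSpace G]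
    [IsTopologicalGroup G] [T2Space G] [SecondCountableTopology G] (R : RealReductive G)
    (w w' : G → ℝ) (hw : IsWeight w) (hw' : IsWeight w')
    (V : Type u) [AddCommGroup V] [Module ℂ V] (Mo : HCModule R V) (p : V → ℝ)
    (T : Module.End ℂ V) (hT : ∀ k, Mo.kact k * T = T * Mo.kact k)
    (E : Type u) [NormedAddCommGroup E] [NormedSpace ℂ E] [CompleteSpace E] (Gl : Glob Mo w' E)
    (hd : DenseRange Gl.ι) (C : ℝ) (hC1 : ∀ v, p v ≤ C * ‖Gl.ι v‖)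
    (hC2 : ∀ v, p (T v) ≤ C * ‖Gl.ι v‖)
    (E' : Type u) [NormedAddCommGroup E'] [NormedSpace ℂ E'] [CompleteSpace E']
    (ι' : V →ₗ[ℂ] E') (π' : G →* (E' →L[ℂ] E'))
    (hinj : Function.Injective ι') (hp : ∀ v, p v = ‖ι' v‖)
    (hcont : IsContRep π') (hK : RespectsK Mo ι' π') (hL : RespectsLie Mo ι' π')
    (hgr : GrowthLE π' w) :
    ∃ Θ : E →L[ℂ] E', (∀ v, Θ (Gl.ι v) = ι' (T v)) ∧
      ∀ g v, (π' g (ι' v), Θ (Gl.π g (Gl.ι v))) ∈ closure (Set.range fun u => (ι' u, ι' (T u))) ∧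
        ∀ y, (π' g (ι' v), y) ∈ closure (Set.range fun u => (ι' u, ι' (T u))) →
          y = Θ (Gl.π g (Gl.ι v)) := by
  obtain ⟨D, hD, hDg⟩ := hgr
  have hw'' : IsWeight fun g => max D 1 * w g := gN_weight hw (le_max_right _ _)
  let Gl' : Glob Mo (fun g => max D 1 * w g) E' :=
    { ι := ι'
      π := π'
      inj := hinj
      cont := hcont
      kcomp := hK
      deriv := hL
      bound := fun g => (hDg g).trans (mul_le_mul_of_nonneg_right (le_max_left _ _) (hw.pos g).le) }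
  obtain ⟨Θ, hΘ, hΘg⟩ := h1 G R w' (fun g => max D 1 * w g) hw' hw'' V Mo E E' Gl Gl' hd C
    (fun v => by
      change ‖ι' v‖ ≤ _
      rw [← hp]; exact hC1 v)
  have hΘ' : ∀ v, Θ (Gl.ι v) = ι' v := hΘ
  have hΘg' : ∀ g x, Θ (Gl.π g x) = π' g (Θ x) := hΘg
  have hbd : ∀ v, ‖(ι' ∘ₗ T) v‖ ≤ C * ‖Gl.ι v‖ := fun v => by
    rw [LinearMap.comp_apply, ← hp]; exact hC2 v
  let ΘT : E →L[ℂ] E' := (ι' ∘ₗ T).extendOfNorm Gl.ι
  have hΘT : ∀ v, ΘT (Gl.ι v) = ι' (T v) := fun v =>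
    LinearMap.extendOfNorm_eq hd ⟨C, hbd⟩ v
  have hmem : ∀ x : E, (Θ x, ΘT x) ∈ closure (Set.range fun u => (ι' u, ι' (T u))) := by
    intro x
    refine hd.induction_on (p := fun x => (Θ x, ΘT x) ∈ closure (Set.range fun u => (ι' u, ι' (T u))))
      x ?_ ?_
    · exact isClosed_closure.preimage (Θ.continuous.prodMk ΘT.continuous)
    · intro v
      apply subset_closure
      exact ⟨v, by simp only [hΘ', hΘT]⟩
  refine ⟨ΘT, hΘT, fun g v => ?_⟩
  have hx : (π' g (ι' v), ΘT (Gl.π g (Gl.ι v))) ∈ closure (Set.range fun u => (ι' u, ι' (T u))) := by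
    have := hmem (Gl.π g (Gl.ι v))
    rwa [hΘg', hΘ'] at this
  refine ⟨hx, fun y hy => ?_⟩
  let L : V →ₗ[ℂ] E' × E' := ι'.prod (ι' ∘ₗ T)
  have hrange : (Set.range fun u => (ι' u, ι' (T u))) = ((LinearMap.range L : Submodule ℂ (E' × E')) : Set (E' × E')) := by
    ext z
    simp [L]
  have hsub : ((0 : E'), y - ΘT (Gl.π g (Gl.ι v))) ∈ closure (Set.range fun u => (ι' u, ι' (T u))) := by
    rw [hrange] at hx hy ⊢
    have hx3 : (π' g (ι' v), ΘT (Gl.π g (Gl.ι v))) ∈ (LinearMap.range L).topologicalClosure := hx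
    have hy3 : (π' g (ι' v), y) ∈ (LinearMap.range L).topologicalClosure := hy
    have h3 := (LinearMap.range L).topologicalClosure.sub_mem hy3 hx3
    have e : (π' g (ι' v), y) - (π' g (ι' v), ΘT (Gl.π g (Gl.ι v))) =
        ((0 : E'), y - ΘT (Gl.π g (Gl.ι v))) := by
      rw [Prod.mk_sub_mk, sub_self]
    rw [e] at h3
    exact h3
  have := h2 G R (fun g => max D 1 * w g) hw'' V Mo E' Gl' T hT _ hsub
  exact sub_eq_zero.mp this

/-- TARGET -/
theorem g_val (h1 : S_ext.{u}) (h2 : S_closable.{u}) : S_val.{u} := by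
  intro G _ _ _ _ _ R w w' hw hw' V _ _ Mo p hp T hT E _ _ _ Gl hd C hC1 hC2
  obtain ⟨E₀, i1, i2, i3, ι₀, π₀, hinj, hden, hpn, hcont, hK, hL, hH, hgr⟩ := hp
  obtain ⟨Θ, hΘ, hΘ2⟩ := gN_key h1 h2 G R w w' hw hw' V Mo p T hT E Gl hd C hC1 hC2 E₀ ι₀ π₀
    hinj hpn hcont hK hL hgr
  refine ⟨(normSeminorm ℂ E₀).comp Θ.toLinearMap, ⟨‖Θ‖, fun x => Θ.le_opNorm x⟩, fun v => ?_, ?_⟩
  · change ‖Θ (Gl.ι v)‖ = _
    rw [hΘ, hpn]
  intro g v c
  constructor
  · rintro ⟨E', j1, j2, j3, ι', π', hinj', hden', hpn', hcont', hK', hL', hH', hgr', y, hy, rfl⟩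
    obtain ⟨Θ', hΘ', hΘ2'⟩ := gN_key h1 h2 G R w w' hw hw' V Mo p T hT E Gl hd C hC1 hC2 E' ι' π'
      hinj' hpn' hcont' hK' hL' hgr'
    rw [(hΘ2' g v).2 y hy]
    change ‖Θ' (Gl.π g (Gl.ι v))‖ = ‖Θ (Gl.π g (Gl.ι v))‖
    refine hd.induction_on (p := fun x => ‖Θ' x‖ = ‖Θ x‖) (Gl.π g (Gl.ι v)) ?_ ?_
    · exact isClosed_eq Θ'.continuous.norm Θ.continuous.norm
    · intro u
      rw [hΘ, hΘ', ← hpn, ← hpn']
  · rintro rfl
    exact ⟨E₀, i1, i2, i3, ι₀, π₀, hinj, hden, hpn, hcont, hK, hL, hH, hgr,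
      Θ (Gl.π g (Gl.ι v)), (hΘ2 g v).1, rfl⟩

end Pool.Agent.H913.AV
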