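import Pool.Agent.H913.AV.Stmts

/-! G16: the averaged norm is the largest element of `Norm(V, w)` below `p_s`. -/

open MeasureTheory Matrix NormedSpace Filter Topology
open scoped Matrix

universe u

namespace Pool.Agent.H913.AV

open Pool.Agent.H913.SG

/-- `p ≲ p_s` for `s ≥ 0`. -/
theorem gO_le (h8 : S_acc.{u}) (h9 : S_neg.{u}) (h10 : S_fc.{u})
    (h11 : S_eigA.{u}) (h12 : S_pack)
    (G : Type) [Group G] [TopologicalSpace G] [IsTopologicalGroup G] [T2Space G]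
    [SecondCountableTopology G] (R : RealReductive G) (B : R.InvBasis) (w : G → ℝ)
    (hw : IsWeight w) (V : Type u) [AddCommGroup V] [Module ℂ V] (Mo : HCModule R V) (p : V → ℝ)
    (hp : IsNormIn Mo w p) (s : ℝ) (hs : 0 ≤ s) (T : Module.End ℂ V)
    (hT : IsSobolevPow Mo B s T) : NormLE p (fun v => p (T v)) := by
  obtain ⟨Pk⟩ := h12 G R
  have hdiag : Diag (lap Mo B) := h11 G R Pk B V Mo
  obtain ⟨F, iF1, iF2, J, hacc, ⟨C1, hC1⟩, ⟨C2, hC2⟩⟩ := h8 G R B w hw V Mo p hp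
  obtain ⟨hex, huniq⟩ := h10 V (lap Mo B) hdiag
  obtain ⟨T', hT'⟩ := hex fun c => (1 + c) ^ (-(s / 2))
  have hinv : T' * T = 1 := by
    refine huniq (fun c => (1 + c) ^ (-(s / 2)) * (1 + c) ^ (s / 2)) (fun _ => 1) (T' * T) 1
      ?_ ?_ ?_
    · intro c v hv
      have e1 : T v = (((1 + c) ^ (s / 2) : ℝ) : ℂ) • v := hT c v hv
      have e2 : T' v = (((1 + c) ^ (-(s / 2)) : ℝ) : ℂ) • v := hT' c v hv
      rw [Module.End.mul_apply, e1, map_smul, e2, smul_smul]
      congr 1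
      push_cast
      ring
    · intro c v _
      simp
    · intro c hc
      have h0 : (0 : ℝ) < 1 + c := by linarith
      show (1 + c) ^ (-(s / 2)) * (1 + c) ^ (s / 2) = 1
      rw [← Real.rpow_add h0]
      simp
  have hJ : ∀ v, ‖J v‖ ≤ ‖J (T v)‖ := by
    intro v
    have h := h9 V (lap Mo B) hdiag F J hacc (s / 2) (by positivity) T' hT' (T v)
    have e : T' (T v) = v := by
      have := congrArg (fun S : Module.End ℂ V => S v) hinv
      simpa using this
    rwa [e] at h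
  refine ⟨max C1 0 * C2, fun v => ?_⟩
  have a1 : p v ≤ max C1 0 * ‖J v‖ :=
    (hC1 v).trans (mul_le_mul_of_nonneg_right (le_max_left _ _) (norm_nonneg _))
  have a2 : max C1 0 * ‖J v‖ ≤ max C1 0 * ‖J (T v)‖ :=
    mul_le_mul_of_nonneg_left (hJ v) (le_max_right _ _)
  have a3 : max C1 0 * ‖J (T v)‖ ≤ max C1 0 * (C2 * p (T v)) :=
    mul_le_mul_of_nonneg_left (hC2 (T v)) (le_max_right _ _)
  calc p v ≤ max C1 0 * (C2 * p (T v)) := a1.trans (a2.trans a3)
    _ = max C1 0 * C2 * p (T v) := by ring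

/-- TARGET -/
theorem g_avgN (h1 : S_ups.{u}) (h2 : S_comm.{u}) (h3 : S_val.{u}) (h4 : S_Q.{u}) (h5 : S_base.{u})
    (h6 : S_renorm.{u}) (h7 : S_ext.{u}) (h8 : S_acc.{u}) (h9 : S_neg.{u}) (h10 : S_fc.{u})
    (h11 : S_eigA.{u}) (h12 : S_pack) : S_avgN.{u} := by
  intro G _ _ _ _ _ R B w hw V _ _ Mo p hp s hs T hT
  have hcomm := h2 G R B V Mo _ T hT
  obtain ⟨w', hw', E, iE1, iE2, iE3, Gl, hd, C, hC1, hC2⟩ := h1 G R B w hw V Mo p hp s hs T hT
  obtain ⟨P, ⟨C', hP⟩, hPT, hval⟩ :=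
    h3 G R w w' hw hw' V Mo p hp T hcomm E Gl hd C hC1 hC2
  obtain ⟨Q, hQ1, hQ2, hQ3, hQ4⟩ := h4 G w hw.pos hw.submul E Gl.π P C' hP
  -- the averaged norm is `Q ∘ ι`
  have hset : ∀ v, avgN Mo w p T v = Q (Gl.ι v) := by
    intro v
    have hD : Dense ((LinearMap.range Gl.ι : Submodule ℂ E) : Set E) := by
      rw [LinearMap.coe_range]
      exact hd
    rw [hQ4 (LinearMap.range Gl.ι) hD (Gl.ι v) ⟨v, rfl⟩]
    unfold avgN avgSet
    congr 1
    ext r
    constructor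
    · rintro ⟨m, g, u, c, hv, hc, hr⟩
      refine ⟨m, g, fun i => Gl.ι (u i), fun i => ⟨u i, rfl⟩, ?_, ?_⟩
      · rw [hv, map_sum]
      · rw [hr]
        refine Finset.sum_congr rfl fun i _ => ?_
        rw [(hval _ _ _).1 (hc i)]
    · rintro ⟨m, g, u, hu, hv, hr⟩
      choose u' hu' using hu
      refine ⟨m, g, u', fun i => P (Gl.π (g i) (Gl.ι (u' i))), ?_, ?_, ?_⟩
      · apply Gl.inj
        rw [map_sum, hv]
        exact Finset.sum_congr rfl fun i _ => (hu' i).symm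
      · intro i
        exact (hval _ _ _).2 rfl
      · rw [hr]
        refine Finset.sum_congr rfl fun i _ => ?_
        show w (g i)⁻¹ * P (Gl.π (g i) (u i)) = w (g i)⁻¹ * P (Gl.π (g i) (Gl.ι (u' i)))
        rw [hu' i]
  have hfun : avgN Mo w p T = fun v => Q (Gl.ι v) := funext hset
  -- the lower bound
  have hlow : ∀ q, IsNormIn Mo w q → NormLE q (fun v => p (T v)) →
      NormLE q (avgN Mo w p T) := by
    intro q hq ⟨C0, hC0⟩
    obtain ⟨F, iF1, iF2, iF3, Gq, hdq, Cq, hCq, hqq⟩ := h6 G R w hw V Mo q hq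
    have hpn : ∀ v, 0 ≤ p (T v) := fun v => by
      rw [← hPT v]; exact apply_nonneg P _
    set K : ℝ := |Cq * C0| + 1 with hK
    have hKpos : 0 < K := by positivity
    have hb1 : ∀ v, ‖Gq.ι v‖ ≤ K * p (T v) := by
      intro v
      have a1 := (hqq v).1
      have a2 : Cq * q v ≤ Cq * (C0 * p (T v)) := mul_le_mul_of_nonneg_left (hC0 v) hCq.le
      have a3 : Cq * (C0 * p (T v)) ≤ K * p (T v) := by
        rw [← mul_assoc]
        refine mul_le_mul_of_nonneg_right ?_ (hpn v)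
        have := le_abs_self (Cq * C0)
        linarith
      linarith
    have hb2 : ∀ v, ‖Gq.ι v‖ ≤ (K * C) * ‖Gl.ι v‖ := by
      intro v
      have := mul_le_mul_of_nonneg_left (hC2 v) hKpos.le
      calc ‖Gq.ι v‖ ≤ K * p (T v) := hb1 v
        _ ≤ K * (C * ‖Gl.ι v‖) := this
        _ = (K * C) * ‖Gl.ι v‖ := by ring
    obtain ⟨Θ, hΘ1, hΘ2⟩ := h7 G R w' w hw' hw V Mo E F Gl Gq hd (K * C) hb2
    have hPcont : Continuous P := by
      have hlip : ∀ x y, dist (P x) (P y) ≤ |C'| * dist x y := by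
        intro x y
        rw [Real.dist_eq, dist_eq_norm]
        have b1 : |P x - P y| ≤ P (x - y) := abs_sub_map_le_sub P x y
        have b2 : P (x - y) ≤ C' * ‖x - y‖ := hP _
        have b3 : C' * ‖x - y‖ ≤ |C'| * ‖x - y‖ :=
          mul_le_mul_of_nonneg_right (le_abs_self _) (norm_nonneg _)
        linarith
      have hL : LipschitzWith (Real.toNNReal |C'|) P := by
        refine LipschitzWith.of_dist_le_mul fun x y => ?_
        rw [Real.coe_toNNReal _ (abs_nonneg _)]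
        exact hlip x y
      exact hL.continuous
    have hΘP : ∀ x, ‖Θ x‖ ≤ K * P x := by
      intro x
      refine hd.induction_on (p := fun x => ‖Θ x‖ ≤ K * P x) x ?_ ?_
      · exact isClosed_le (continuous_norm.comp Θ.continuous) (continuous_const.mul hPcont)
      · intro v
        rw [hΘ1, hPT]
        exact hb1 v
    have hΘQ : ∀ x, ‖Θ x‖ / K ≤ Q x := by
      refine hQ3 (fun x => ‖Θ x‖ / K) ?_
      intro x m g u hx
      rw [div_le_iff₀ hKpos, hx, map_sum, Finset.sum_mul]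
      refine (norm_sum_le _ _).trans (Finset.sum_le_sum fun i _ => ?_)
      have e1 : Gq.π (g i)⁻¹ (Θ (Gl.π (g i) (u i))) = Θ (u i) := by
        rw [← hΘ2, ← mul_apply_eq_comp, ← map_mul]
        simp
      calc ‖Θ (u i)‖ = ‖Gq.π (g i)⁻¹ (Θ (Gl.π (g i) (u i)))‖ := by rw [e1]
        _ ≤ ‖Gq.π (g i)⁻¹‖ * ‖Θ (Gl.π (g i) (u i))‖ := ContinuousLinearMap.le_opNorm _ _
        _ ≤ w (g i)⁻¹ * (K * P (Gl.π (g i) (u i))) := by
            refine mul_le_mul (Gq.bound _) (hΘP _) (norm_nonneg _) (hw.pos _).le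
        _ = w (g i)⁻¹ * P (Gl.π (g i) (u i)) * K := by ring
    refine ⟨Cq * K, fun v => ?_⟩
    rw [hset v]
    have c1 := (hqq v).2
    have c2 := hΘQ (Gl.ι v)
    rw [hΘ1, div_le_iff₀ hKpos] at c2
    have c3 := mul_le_mul_of_nonneg_left c2 hCq.le
    calc q v ≤ Cq * ‖Gq.ι v‖ := c1
      _ ≤ Cq * (Q (Gl.ι v) * K) := c3
      _ = Cq * K * Q (Gl.ι v) := by ring
  refine ⟨?_, ?_, ?_, hlow⟩
  · intro g v
    refine ⟨P (Gl.π g (Gl.ι v)), (hval _ _ _).2 rfl, fun c hc => (hval _ _ _).1 hc⟩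
  · rw [hfun]
    refine h5 G R w w' hw hw' V Mo E Gl hd Q (max (w 1 * C') 1) ?_ ?_ ?_
    · intro x
      have a1 := hQ1 x
      have a2 := mul_le_mul_of_nonneg_left (hP x) (hw.pos 1).le
      have a3 : w 1 * C' * ‖x‖ ≤ max (w 1 * C') 1 * ‖x‖ :=
        mul_le_mul_of_nonneg_right (le_max_left _ _) (norm_nonneg _)
      calc Q x ≤ w 1 * P x := a1
        _ ≤ w 1 * (C' * ‖x‖) := a2
        _ = w 1 * C' * ‖x‖ := by ring
        _ ≤ _ := a3
    · intro g x
      have a1 := hQ2 g x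
      have a2 : 0 ≤ w g * Q x := mul_nonneg (hw.pos g).le (apply_nonneg Q x)
      have a3 : 1 * (w g * Q x) ≤ max (w 1 * C') 1 * (w g * Q x) :=
        mul_le_mul_of_nonneg_right (le_max_right _ _) a2
      calc Q (Gl.π g x) ≤ w g * Q x := a1
        _ = 1 * (w g * Q x) := by ring
        _ ≤ max (w 1 * C') 1 * (w g * Q x) := a3
        _ = _ := by ring
    · intro v hv
      obtain ⟨C3, hC3⟩ := hlow p hp (gO_le h8 h9 h10 h11 h12 G R B w hw V Mo p hp s hs T hT)
      have a1 := hC3 v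
      rw [hset v, hv, mul_zero] at a1
      obtain ⟨E0, _, _, _, ι0, π0, hinj, _, hn, _⟩ := hp
      rw [hn v] at a1
      have a2 : ι0 v = 0 := norm_le_zero_iff.1 a1
      exact hinj (by rw [a2, map_zero])
  · refine ⟨w 1, fun v => ?_⟩
    show avgN Mo w p T v ≤ w 1 * p (T v)
    rw [hset v, ← hPT v]
    exact hQ1 _

end Pool.Agent.H913.AV
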