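import Pool.Agent.H913.AV.Stmts

/-! Proof. By h1 (S_renorm) globalizations Gp on E_p for p and Gq on E_q for q (weight w, dense ranges,
equivalent norms with constants). By h2 (S_ext) an equivariant Θ : E_q →L E_p with Θ (ι_q v) = ι_p v.
K_i is the infimal convolution of the seminorms t^s1 ‖Θ x‖ and ‖x‖, t = 2^i, and n is the supremum of
all t^(-δ) K_i. -/

open MeasureTheory Matrix NormedSpace Filter Topology
open scoped Matrix

universe u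

namespace Pool.Agent.H913.AV

open Pool.Agent.H913.SG

section gP

variable {Ep Eq : Type u} [NormedAddCommGroup Ep] [NormedSpace ℂ Ep] [NormedAddCommGroup Eq]
  [NormedSpace ℂ Eq] (Θ : Eq →L[ℂ] Ep)

/-- the seminorm `‖Θ x‖` -/
noncomputable def gP_T : Seminorm ℂ Eq := (normSeminorm ℂ Ep).comp Θ.toLinearMap

theorem gP_T_apply (x : Eq) : gP_T Θ x = ‖Θ x‖ := rfl

/-- the infimal convolution of `c ‖Θ x‖` and `‖x‖` -/
noncomputable def gP_K (c : NNReal) : Seminorm ℂ Eq := (c • gP_T Θ) ⊓ normSeminorm ℂ Eq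

theorem gP_K_apply (c : NNReal) (x : Eq) :
    gP_K Θ c x = ⨅ u : Eq, ((c : ℝ) * ‖Θ u‖ + ‖x - u‖) := rfl

theorem gP_bdd (c : NNReal) (x : Eq) :
    BddBelow (Set.range fun u : Eq => ((c : ℝ) * ‖Θ u‖ + ‖x - u‖)) :=
  ⟨0, by rintro _ ⟨u, rfl⟩; positivity⟩

theorem gP_K_le (c : NNReal) (x u : Eq) : gP_K Θ c x ≤ (c : ℝ) * ‖Θ u‖ + ‖x - u‖ := by
  rw [gP_K_apply]; exact ciInf_le (gP_bdd Θ c x) u

theorem gP_K_norm (c : NNReal) (x : Eq) : gP_K Θ c x ≤ ‖x‖ := by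
  have := gP_K_le Θ c x 0
  simpa using this

theorem gP_K_lt (c : NNReal) (x : Eq) (r : ℝ) (h : gP_K Θ c x < r) :
    ∃ u : Eq, (c : ℝ) * ‖Θ u‖ + ‖x - u‖ < r := by
  rw [gP_K_apply] at h
  exact exists_lt_of_ciInf_lt h

/-- the supremum of all `t^(-δ) K_i` -/
noncomputable def gP_n (r c : ℕ → NNReal) : Seminorm ℂ Eq := ⨆ i, r i • gP_K Θ (c i)

theorem gP_n_bdd (r c : ℕ → NNReal) (hr : ∀ i, r i ≤ 1) (x : Eq) :
    BddAbove (Set.range fun i => (r i • gP_K Θ (c i)) x) := by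
  refine ⟨‖x‖, ?_⟩
  rintro _ ⟨i, rfl⟩
  show (r i : ℝ) * gP_K Θ (c i) x ≤ ‖x‖
  have h1 : (r i : ℝ) ≤ 1 := by exact_mod_cast hr i
  have h2 := gP_K_norm Θ (c i) x
  have h3 := apply_nonneg (gP_K Θ (c i)) x
  nlinarith [(r i).2]

theorem gP_n_apply (r c : ℕ → NNReal) (hr : ∀ i, r i ≤ 1) (x : Eq) :
    gP_n Θ r c x = ⨆ i, ((r i : ℝ) * gP_K Θ (c i) x) := by
  unfold gP_n
  rw [Seminorm.iSup_apply (Seminorm.bddAbove_range_iff.2 fun x => gP_n_bdd Θ r c hr x)]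
  rfl

theorem gP_le_n (r c : ℕ → NNReal) (hr : ∀ i, r i ≤ 1) (x : Eq) (i : ℕ) :
    (r i : ℝ) * gP_K Θ (c i) x ≤ gP_n Θ r c x := by
  rw [gP_n_apply Θ r c hr]
  exact le_ciSup (f := fun i => (r i : ℝ) * gP_K Θ (c i) x) (gP_n_bdd Θ r c hr x) i

theorem gP_n_le (r c : ℕ → NNReal) (hr : ∀ i, r i ≤ 1) (x : Eq) (R : ℝ)
    (h : ∀ i, (r i : ℝ) * gP_K Θ (c i) x ≤ R) : gP_n Θ r c x ≤ R := by
  rw [gP_n_apply Θ r c hr]
  exact ciSup_le h

theorem gP_n_norm (r c : ℕ → NNReal) (hr : ∀ i, r i ≤ 1) (x : Eq) : gP_n Θ r c x ≤ ‖x‖ := by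
  refine gP_n_le Θ r c hr x _ fun i => ?_
  have h1 : (r i : ℝ) ≤ 1 := by exact_mod_cast hr i
  have h2 := gP_K_norm Θ (c i) x
  have h3 := apply_nonneg (gP_K Θ (c i)) x
  nlinarith [(r i).2]

theorem gP_K_growth (c : NNReal) (W : ℝ) (hW : 0 < W) (A : Eq →L[ℂ] Eq) (B : Ep →L[ℂ] Ep)
    (hA : ‖A‖ ≤ W) (hB : ‖B‖ ≤ W) (hAB : ∀ x, Θ (A x) = B (Θ x)) (x : Eq) :
    gP_K Θ c (A x) ≤ W * gP_K Θ c x := by
  have h : gP_K Θ c (A x) / W ≤ gP_K Θ c x := by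
    rw [gP_K_apply Θ c x]
    refine le_ciInf fun u => ?_
    rw [div_le_iff₀ hW]
    refine (gP_K_le Θ c (A x) (A u)).trans ?_
    rw [hAB, ← map_sub]
    have h1 : ‖B (Θ u)‖ ≤ W * ‖Θ u‖ :=
      (B.le_opNorm _).trans (mul_le_mul_of_nonneg_right hB (norm_nonneg _))
    have h2 : ‖A (x - u)‖ ≤ W * ‖x - u‖ :=
      (A.le_opNorm _).trans (mul_le_mul_of_nonneg_right hA (norm_nonneg _))
    have h3 := mul_le_mul_of_nonneg_left h1 c.2
    have h4 : ((c : ℝ) * ‖Θ u‖ + ‖x - u‖) * W = (c : ℝ) * (W * ‖Θ u‖) + W * ‖x - u‖ := by ring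
    rw [h4]
    exact add_le_add h3 h2
  rwa [div_le_iff₀ hW, mul_comm] at h

theorem gP_K_low (x : Eq) : ‖Θ x‖ ≤ (1 + ‖Θ‖) * gP_K Θ 1 x := by
  have hp : 0 < 1 + ‖Θ‖ := by positivity
  have h : ‖Θ x‖ / (1 + ‖Θ‖) ≤ gP_K Θ 1 x := by
    rw [gP_K_apply Θ 1 x]
    refine le_ciInf fun u => ?_
    rw [div_le_iff₀ hp]
    have h1 : ‖Θ x‖ ≤ ‖Θ u‖ + ‖Θ (x - u)‖ := by
      have : Θ x = Θ u + Θ (x - u) := by rw [← map_add]; congr 1; abel
      rw [this]; exact norm_add_le _ _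
    have h2 := Θ.le_opNorm (x - u)
    have h3 : 0 ≤ ‖Θ‖ * ‖Θ u‖ := by positivity
    have h4 : 0 ≤ ‖x - u‖ := norm_nonneg _
    simp only [NNReal.coe_one, one_mul]
    nlinarith
  rwa [div_le_iff₀ hp, mul_comm] at h

end gP

/-- TARGET -/
theorem g_n (h1 : S_renorm.{u}) (h2 : S_ext.{u}) (h3 : S_base.{u}) : S_n.{u} := by
  intro G _ _ _ _ _ R w hw V _ _ Mo p q hp hq hpq s1 δ hδ hδs
  have hpn : ∀ v, 0 ≤ p v := by
    obtain ⟨E, _, _, _, ι, π, -, -, h, -⟩ := hp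
    intro v; rw [h]; exact norm_nonneg _
  have hqn : ∀ v, 0 ≤ q v := by
    obtain ⟨E, _, _, _, ι, π, -, -, h, -⟩ := hq
    intro v; rw [h]; exact norm_nonneg _
  have hp0 : p 0 = 0 := by
    obtain ⟨E, _, _, _, ι, π, -, -, h, -⟩ := hp
    rw [h, map_zero, norm_zero]
  have hq0 : q 0 = 0 := by
    obtain ⟨E, _, _, _, ι, π, -, -, h, -⟩ := hq
    rw [h, map_zero, norm_zero]
  obtain ⟨Ep, _, _, _, Gp, hdp, C1, hC1, hb1⟩ := h1 G R w hw V Mo p hp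
  obtain ⟨Eq, _, _, _, Gq, hdq, C2, hC2, hb2⟩ := h1 G R w hw V Mo q hq
  obtain ⟨C3, hC3⟩ := hpq
  have hcomp : ∀ v, ‖Gp.ι v‖ ≤ (C1 * |C3| * C2) * ‖Gq.ι v‖ := by
    intro v
    have e1 := (hb1 v).1
    have e2 := hC3 v
    have e3 := (hb2 v).2
    have e4 : C3 * q v ≤ |C3| * q v := mul_le_mul_of_nonneg_right (le_abs_self _) (hqn v)
    have e5 : |C3| * q v ≤ |C3| * (C2 * ‖Gq.ι v‖) := mul_le_mul_of_nonneg_left e3 (abs_nonneg _)
    have e6 : C1 * p v ≤ C1 * (|C3| * (C2 * ‖Gq.ι v‖)) :=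
      mul_le_mul_of_nonneg_left ((e2.trans e4).trans e5) hC1.le
    calc ‖Gp.ι v‖ ≤ C1 * p v := e1
      _ ≤ _ := e6
      _ = _ := by ring
  obtain ⟨Θ, hΘ, hΘe⟩ := h2 G R w w hw hw V Mo Eq Ep Gq Gp hdq _ hcomp
  -- the parameters
  have hs1 : 0 < s1 := lt_of_lt_of_le hδ hδs
  set t : ℕ → ℝ := fun i => (2 : ℝ) ^ i with ht
  have ht1 : ∀ i, 1 ≤ t i := fun i => one_le_pow₀ (by norm_num)
  have ht0 : ∀ i, 0 < t i := fun i => lt_of_lt_of_le one_pos (ht1 i)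
  set c : ℕ → NNReal := fun i => ⟨t i ^ s1, (Real.rpow_pos_of_pos (ht0 i) _).le⟩ with hc
  set r : ℕ → NNReal := fun i => ⟨t i ^ (-δ), (Real.rpow_pos_of_pos (ht0 i) _).le⟩ with hr
  have hcv : ∀ i, (c i : ℝ) = t i ^ s1 := fun i => rfl
  have hrv : ∀ i, (r i : ℝ) = t i ^ (-δ) := fun i => rfl
  have hr1 : ∀ i, r i ≤ 1 := by
    intro i
    have : (r i : ℝ) ≤ 1 := by
      rw [hrv]; exact Real.rpow_le_one_of_one_le_of_nonpos (ht1 i) (by linarith)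
    exact_mod_cast this
  have hrt : ∀ i, t i ^ (-δ) * t i ^ δ = 1 := by
    intro i
    rw [← Real.rpow_add (ht0 i)]; simp
  have hdef : ∀ v, gP_n Θ r c (Gq.ι v) = 0 → v = 0 := by
    intro v hv
    have e1 := gP_le_n Θ r c hr1 (Gq.ι v) 0
    have hr0 : r 0 = 1 := by
      apply NNReal.coe_injective; rw [hrv, ht]; simp
    have hc0 : c 0 = 1 := by
      apply NNReal.coe_injective; rw [hcv, ht]; simp
    rw [hv, hr0, hc0, NNReal.coe_one, one_mul] at e1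
    have e2 := gP_K_low Θ (Gq.ι v)
    have e3 : gP_K Θ 1 (Gq.ι v) = 0 := le_antisymm e1 (apply_nonneg _ _)
    rw [e3, mul_zero, hΘ] at e2
    have e4 : Gp.ι v = 0 := norm_le_zero_iff.1 e2
    exact Gp.inj (by rw [e4, map_zero])
  refine ⟨fun v => gP_n Θ r c (Gq.ι v), ?_, 2 * (C1 + C2), by positivity, ?_, ?_⟩
  · refine h3 G R w w hw hw V Mo Eq Gq hdq (gP_n Θ r c) 1 ?_ ?_ hdef
    · intro x; rw [one_mul]; exact gP_n_norm Θ r c hr1 x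
    · intro g x
      rw [one_mul]
      refine gP_n_le Θ r c hr1 _ _ fun i => ?_
      have e1 := gP_K_growth Θ (c i) (w g) (hw.pos g) (Gq.π g) (Gp.π g) (Gq.bound g) (Gp.bound g)
        (fun x => hΘe g x) x
      have e2 := gP_le_n Θ r c hr1 x i
      calc (r i : ℝ) * gP_K Θ (c i) (Gq.π g x) ≤ (r i : ℝ) * (w g * gP_K Θ (c i) x) :=
            mul_le_mul_of_nonneg_left e1 (r i).2
        _ = w g * ((r i : ℝ) * gP_K Θ (c i) x) := by ring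
        _ ≤ w g * gP_n Θ r c x := mul_le_mul_of_nonneg_left e2 (hw.pos g).le
  · intro v N hN hdec
    refine gP_n_le Θ r c hr1 _ _ fun i => ?_
    obtain ⟨a, ha⟩ := hdec i
    have e1 := gP_K_le Θ (c i) (Gq.ι v) (Gq.ι a)
    rw [hΘ, ← map_sub] at e1
    have e2 := (hb1 a).1
    have e3 := (hb2 (v - a)).1
    have e4 : 0 ≤ t i ^ s1 := (Real.rpow_pos_of_pos (ht0 i) _).le
    have hT : 0 ≤ t i ^ (-δ) := (Real.rpow_pos_of_pos (ht0 i) _).le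
    have e5 : (c i : ℝ) * ‖Gp.ι a‖ ≤ t i ^ s1 * (C1 * p a) := by
      rw [hcv]; exact mul_le_mul_of_nonneg_left e2 e4
    have e6 : 0 ≤ t i ^ s1 * p a := mul_nonneg e4 (hpn a)
    have e7 : 0 ≤ q (v - a) := hqn _
    have e8 : gP_K Θ (c i) (Gq.ι v) ≤ (C1 + C2) * (t i ^ s1 * p a + q (v - a)) := by
      have : (C1 + C2) * (t i ^ s1 * p a + q (v - a)) = t i ^ s1 * (C1 * p a) + C2 * q (v - a)
          + (C2 * (t i ^ s1 * p a) + C1 * q (v - a)) := by ring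
      rw [this]
      have : 0 ≤ C2 * (t i ^ s1 * p a) + C1 * q (v - a) := by positivity
      linarith
    have e9 : gP_K Θ (c i) (Gq.ι v) ≤ (C1 + C2) * (t i ^ δ * N) :=
      e8.trans (mul_le_mul_of_nonneg_left ha (by positivity))
    calc (r i : ℝ) * gP_K Θ (c i) (Gq.ι v) ≤ t i ^ (-δ) * ((C1 + C2) * (t i ^ δ * N)) := by
          rw [hrv]; exact mul_le_mul_of_nonneg_left e9 hT
      _ = (t i ^ (-δ) * t i ^ δ) * ((C1 + C2) * N) := by ring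
      _ = (C1 + C2) * N := by rw [hrt, one_mul]
      _ ≤ 2 * (C1 + C2) * N := by nlinarith [mul_nonneg (add_pos hC1 hC2).le hN]
  · intro v i
    by_cases hv : v = 0
    · subst hv
      refine ⟨0, ?_⟩
      simp only [sub_zero, hp0, hq0, map_zero, mul_zero, add_zero]
      exact le_refl _
    · have hnv : 0 < gP_n Θ r c (Gq.ι v) :=
        lt_of_le_of_ne (apply_nonneg _ _) fun h => hv (hdef v h.symm)
      set n := gP_n Θ r c (Gq.ι v) with hn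
      have htd : 0 < t i ^ δ := Real.rpow_pos_of_pos (ht0 i) _
      have e1 := gP_le_n Θ r c hr1 (Gq.ι v) i
      have e2 : gP_K Θ (c i) (Gq.ι v) ≤ t i ^ δ * n := by
        have := mul_le_mul_of_nonneg_left e1 htd.le
        rw [hrv, ← mul_assoc, mul_comm (t i ^ δ) (t i ^ (-δ)), hrt, one_mul] at this
        exact this
      have e3 : gP_K Θ (c i) (Gq.ι v) < 2 * (t i ^ δ * n) := by
        have : 0 < t i ^ δ * n := mul_pos htd hnv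
        linarith
      obtain ⟨u, hu⟩ := gP_K_lt Θ (c i) (Gq.ι v) _ e3
      have hopen : IsOpen {u : Eq | (c i : ℝ) * ‖Θ u‖ + ‖Gq.ι v - u‖ < 2 * (t i ^ δ * n)} := by
        apply isOpen_lt _ continuous_const
        fun_prop
      obtain ⟨_, ha, ⟨a, rfl⟩⟩ := hdq.inter_open_nonempty _ hopen ⟨u, hu⟩
      refine ⟨a, ?_⟩
      have ha' : (c i : ℝ) * ‖Θ (Gq.ι a)‖ + ‖Gq.ι v - Gq.ι a‖ < 2 * (t i ^ δ * n) := ha
      rw [hΘ, ← map_sub, hcv] at ha'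
      have f1 := (hb1 a).2
      have f2 := (hb2 (v - a)).2
      have f3 : 0 ≤ t i ^ s1 := (Real.rpow_pos_of_pos (ht0 i) _).le
      have f4 : t i ^ s1 * p a ≤ t i ^ s1 * (C1 * ‖Gp.ι a‖) := mul_le_mul_of_nonneg_left f1 f3
      have f5 : 0 ≤ C2 * (t i ^ s1 * ‖Gp.ι a‖) + C1 * ‖Gq.ι (v - a)‖ := by positivity
      have f6 := mul_le_mul_of_nonneg_left ha'.le (add_pos hC1 hC2).le
      calc t i ^ s1 * p a + q (v - a)
          ≤ (C1 + C2) * (t i ^ s1 * ‖Gp.ι a‖ + ‖Gq.ι (v - a)‖) := by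
            have : (C1 + C2) * (t i ^ s1 * ‖Gp.ι a‖ + ‖Gq.ι (v - a)‖) =
              t i ^ s1 * (C1 * ‖Gp.ι a‖) + C2 * ‖Gq.ι (v - a)‖ +
              (C2 * (t i ^ s1 * ‖Gp.ι a‖) + C1 * ‖Gq.ι (v - a)‖) := by ring
            rw [this]; linarith
        _ ≤ (C1 + C2) * (2 * (t i ^ δ * n)) := f6
        _ = t i ^ δ * (2 * (C1 + C2) * n) := by ring

end Pool.Agent.H913.AV
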