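import Pool.Agent.H913.AV.Stmts

/-! The key step: the interpolated norm is comparable with the Sobolev norms. -/

open MeasureTheory Matrix NormedSpace Filter Topology
open scoped Matrix

universe u

namespace Pool.Agent.H913.AV

open Pool.Agent.H913.SG

theorem gQ_nonneg {G : Type} [Group G] [TopologicalSpace G] {R : RealReductive G} {V : Type u}
    [AddCommGroup V] [Module ℂ V] {Mo : HCModule R V} {w : G → ℝ} {p : V → ℝ}
    (hp : IsNormIn Mo w p) (v : V) : 0 ≤ p v := by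
  obtain ⟨E, _, _, _, ι, _, _, _, h, _⟩ := hp
  rw [h v]
  exact norm_nonneg _

theorem gQ_abs {C a b : ℝ} (h : a ≤ C * b) (hb : 0 ≤ b) : a ≤ |C| * b :=
  h.trans (mul_le_mul_of_nonneg_right (le_abs_self C) hb)

theorem gQ_inv (h5 : S_fc.{u}) {V : Type u} [AddCommGroup V] [Module ℂ V] (L : Module.End ℂ V)
    (hD : Diag L) (x : ℝ) (T T' : Module.End ℂ V) (hT : FC L (fun c => (1 + c) ^ x) T)
    (hT' : FC L (fun c => (1 + c) ^ (-x)) T') (v : V) : T' (T v) = v := by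
  have h1 : FC L (fun c => (1 + c) ^ (-x) * (1 + c) ^ x) (T' * T) := by
    intro c v hv
    rw [Module.End.mul_apply, hT c v hv, map_smul, hT' c v hv, smul_smul]
    push_cast
    rw [mul_comm]
  have h2 : FC L (fun _ => 1) (1 : Module.End ℂ V) := by
    intro c v _
    simp
  have h3 := (h5 V L hD).2 _ _ _ _ h1 h2 (fun c hc => by
    have : (0 : ℝ) < 1 + c := by linarith
    rw [← Real.rpow_add this]
    simp)
  have := congrArg (fun S : Module.End ℂ V => S v) h3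
  simpa using this

/-- TARGET -/
theorem g_key (h1 : S_n.{u}) (h2 : S_acc.{u}) (h3 : S_int2.{u}) (h4 : S_int3.{u}) (h5 : S_fc.{u})
    (h6 : S_eigA.{u}) (h7 : S_pack) : S_key.{u} := by
  intro G _ _ _ _ _ R B w hw V _ _ Mo p q hp hq hpq s1 δ e hδ hδs he T1 T2 T3 hT1 hT2 hT3 hqT
  obtain ⟨P⟩ := h7 G R
  have hD : Diag (lap Mo B) := h6 G R P B V Mo
  obtain ⟨n, hn, C, hC, hn1, hn2⟩ := h1 G R w hw V Mo p q hp hq hpq s1 δ hδ hδs
  obtain ⟨Fp, _, _, Jp, accp, ⟨A1, hA1⟩, ⟨A2, hA2⟩⟩ := h2 G R B w hw V Mo p hp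
  obtain ⟨Fq, _, _, Jq, accq, ⟨B1, hB1⟩, ⟨B2, hB2⟩⟩ := h2 G R B w hw V Mo q hq
  obtain ⟨D, hDq⟩ := hqT
  have hp0 := gQ_nonneg hp
  have hq0 := gQ_nonneg hq
  have hn0 := gQ_nonneg hn
  have hA1' : ∀ v, p v ≤ |A1| * ‖Jp v‖ := fun v => gQ_abs (hA1 v) (norm_nonneg _)
  have hA2' : ∀ v, ‖Jp v‖ ≤ |A2| * p v := fun v => gQ_abs (hA2 v) (hp0 v)
  have hB1' : ∀ v, q v ≤ |B1| * ‖Jq v‖ := fun v => gQ_abs (hB1 v) (norm_nonneg _)
  have hB2' : ∀ v, ‖Jq v‖ ≤ |B2| * q v := fun v => gQ_abs (hB2 v) (hq0 v)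
  have hD' : ∀ v, q v ≤ |D| * p (T1 v) := fun v => gQ_abs (hDq v) (hp0 _)
  have hC0 : ∀ v, ‖Jq v‖ ≤ (|B2| * |D| * |A1|) * ‖Jp (T1 v)‖ := by
    intro v
    calc ‖Jq v‖ ≤ |B2| * q v := hB2' v
      _ ≤ |B2| * (|D| * p (T1 v)) := by gcongr; exact hD' v
      _ ≤ |B2| * (|D| * (|A1| * ‖Jp (T1 v)‖)) := by gcongr; exact hA1' _
      _ = _ := by ring
  have hT1' : FC (lap Mo B) (fun c => (1 + c) ^ (s1 / 2)) T1 := hT1
  have hT2' : FC (lap Mo B) (fun c => (1 + c) ^ ((s1 - δ) / 2)) T2 := hT2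
  have hT3' : FC (lap Mo B) (fun c => (1 + c) ^ ((δ + e) / 2)) T3 := hT3
  refine ⟨n, hn, ?_, ?_⟩
  · obtain ⟨C1, hC1, hdec⟩ := h3 s1 δ hδ hδs V (lap Mo B) hD Fp Fq Jp Jq accp accq T1 T2 hT1' hT2'
      _ hC0
    refine ⟨C * ((|A1| + |B1|) * C1 * |A2|), fun v => ?_⟩
    have hN : 0 ≤ (|A1| + |B1|) * C1 * |A2| * p (T2 v) :=
      mul_nonneg (by positivity) (hp0 _)
    have := hn1 v _ hN (fun i => by
      obtain ⟨a, ha⟩ := hdec i v
      refine ⟨a, ?_⟩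
      have hx : 0 ≤ ((2 : ℝ) ^ i) ^ s1 := by positivity
      have hy : 0 ≤ ((2 : ℝ) ^ i) ^ δ := by positivity
      calc ((2 : ℝ) ^ i) ^ s1 * p a + q (v - a)
          ≤ ((2 : ℝ) ^ i) ^ s1 * (|A1| * ‖Jp a‖) + |B1| * ‖Jq (v - a)‖ := by
            gcongr
            · exact hA1' _
            · exact hB1' _
        _ ≤ (|A1| + |B1|) * (((2 : ℝ) ^ i) ^ s1 * ‖Jp a‖ + ‖Jq (v - a)‖) := by
            have e1 : 0 ≤ |B1| * (((2 : ℝ) ^ i) ^ s1 * ‖Jp a‖) := by positivity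
            have e2 : 0 ≤ |A1| * ‖Jq (v - a)‖ := by positivity
            nlinarith
        _ ≤ (|A1| + |B1|) * (C1 * ((2 : ℝ) ^ i) ^ δ * ‖Jp (T2 v)‖) := by gcongr
        _ ≤ (|A1| + |B1|) * (C1 * ((2 : ℝ) ^ i) ^ δ * (|A2| * p (T2 v))) := by
            gcongr; exact hA2' _
        _ = ((2 : ℝ) ^ i) ^ δ * ((|A1| + |B1|) * C1 * |A2| * p (T2 v)) := by ring)
    calc n v ≤ C * ((|A1| + |B1|) * C1 * |A2| * p (T2 v)) := this
      _ = _ := by ring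
  · obtain ⟨T3', hT3''⟩ := (h5 V (lap Mo B) hD).1 (fun c => (1 + c) ^ (-((δ + e) / 2)))
    obtain ⟨C2, hC2, hdec⟩ := h4 s1 δ e hδ hδs he V (lap Mo B) hD Fp Fq Jp Jq accp accq T1 T3'
      hT1' hT3'' _ hC0
    refine ⟨|B1| * (C2 * ((|A2| + |B2|) * C)), fun v => ?_⟩
    have hN : 0 ≤ (|A2| + |B2|) * C * n (T3 v) := mul_nonneg (by positivity) (hn0 _)
    have := hdec (T3 v) _ hN (fun i => by
      obtain ⟨a, ha⟩ := hn2 (T3 v) i
      refine ⟨a, ?_⟩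
      have hx : 0 ≤ ((2 : ℝ) ^ i) ^ s1 := by positivity
      have hy : 0 ≤ ((2 : ℝ) ^ i) ^ δ := by positivity
      calc ((2 : ℝ) ^ i) ^ s1 * ‖Jp a‖ + ‖Jq (T3 v - a)‖
          ≤ ((2 : ℝ) ^ i) ^ s1 * (|A2| * p a) + |B2| * q (T3 v - a) := by
            gcongr
            · exact hA2' _
            · exact hB2' _
        _ ≤ (|A2| + |B2|) * (((2 : ℝ) ^ i) ^ s1 * p a + q (T3 v - a)) := by
            have e1 : 0 ≤ |B2| * (((2 : ℝ) ^ i) ^ s1 * p a) :=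
              mul_nonneg (abs_nonneg _) (mul_nonneg hx (hp0 _))
            have e2 : 0 ≤ |A2| * q (T3 v - a) := mul_nonneg (abs_nonneg _) (hq0 _)
            nlinarith
        _ ≤ (|A2| + |B2|) * (((2 : ℝ) ^ i) ^ δ * (C * n (T3 v))) := by gcongr
        _ = ((2 : ℝ) ^ i) ^ δ * ((|A2| + |B2|) * C * n (T3 v)) := by ring)
    rw [gQ_inv h5 (lap Mo B) hD ((δ + e) / 2) T3 T3' hT3' hT3'' v] at this
    calc q v ≤ |B1| * ‖Jq v‖ := hB1' v
      _ ≤ |B1| * (C2 * ((|A2| + |B2|) * C * n (T3 v))) := by gcongr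
      _ = _ := by ring

end Pool.Agent.H913.AV
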