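import Pool.Agent.H913.AV.Stmts

open MeasureTheory Matrix NormedSpace Filter Topology
open scoped Matrix

universe u

namespace Pool.Agent.H913.AV

open Pool.Agent.H913.SG

theorem gR_nn {G : Type} [Group G] [TopologicalSpace G] {R : RealReductive G} {V : Type u}
    [AddCommGroup V] [Module ℂ V] {Mo : HCModule R V} {w : G → ℝ} {p : V → ℝ}
    (hp : IsNormIn Mo w p) : ∀ v, 0 ≤ p v := by
  obtain ⟨E, _, _, _, ι, π, _, _, h, _⟩ := hp
  intro v
  rw [h]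
  exact norm_nonneg _

theorem gR_nonneg {V : Type u} {p q : V → ℝ} (h1 : NormLE p q) (hq : ∀ v, 0 ≤ q v) :
    ∃ C : ℝ, 0 ≤ C ∧ ∀ v, p v ≤ C * q v := by
  obtain ⟨C, hC⟩ := h1
  exact ⟨max C 0, le_max_right _ _, fun v => (hC v).trans
    (mul_le_mul_of_nonneg_right (le_max_left _ _) (hq v))⟩

theorem gR_trans {V : Type u} {p q r : V → ℝ} (h1 : NormLE p q) (h2 : NormLE q r)
    (hq : ∀ v, 0 ≤ q v) : NormLE p r := by
  obtain ⟨C, hC0, hC⟩ := gR_nonneg h1 hq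
  obtain ⟨D, hD⟩ := h2
  exact ⟨C * D, fun v => (hC v).trans (by
    rw [mul_assoc]
    exact mul_le_mul_of_nonneg_left (hD v) hC0)⟩

theorem gR_comp {V : Type u} [AddCommGroup V] [Module ℂ V] {L : Module.End ℂ V} {φ ψ : ℝ → ℝ}
    {S T : Module.End ℂ V} (hS : FC L φ S) (hT : FC L ψ T) :
    FC L (fun c => φ c * ψ c) (S * T) := by
  intro c v hv
  rw [Module.End.mul_apply, hT c v hv, map_smul, hS c v hv, smul_smul]
  congr 1
  push_cast
  ring

theorem gR_mul {V : Type u} [AddCommGroup V] [Module ℂ V] {L : Module.End ℂ V}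
    (hu : ∀ (φ ψ : ℝ → ℝ) (T T' : Module.End ℂ V), FC L φ T → FC L ψ T' →
      (∀ c, 0 ≤ c → φ c = ψ c) → T = T') {a b c : ℝ} (habc : a + b = c)
    {Ta Tb Tc : Module.End ℂ V} (ha : FC L (fun c => (1 + c) ^ a) Ta)
    (hb : FC L (fun c => (1 + c) ^ b) Tb) (hc : FC L (fun x => (1 + x) ^ c) Tc) (v : V) :
    Ta (Tb v) = Tc v := by
  have h := hu _ _ _ _ (gR_comp ha hb) hc (fun x hx => by
    rw [← Real.rpow_add (by linarith), habc])
  rw [← h, Module.End.mul_apply]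

/-- TARGET -/
theorem g_lip1 (h1 : S_key.{u}) (h2 : S_avgN.{u}) (h3 : S_sum.{u}) (h4 : S_acc.{u}) (h5 : S_neg.{u})
    (h6 : S_fc.{u}) (h7 : S_eigA.{u}) (h8 : S_pack) : S_lip1.{u} := by
  intro G _ _ _ _ _ R B w hw V _ _ Mo p p' hp hp' s s' hs hs' T T' hT hT' h hh e he
  obtain ⟨P⟩ := h8 G R
  have hD : Diag (lap Mo B) := h7 G R P B V Mo
  obtain ⟨hex, huniq⟩ := h6 V (lap Mo B) hD
  obtain ⟨hh0, Th, hTh, hle⟩ := hh
  have ex : ∀ t : ℝ, ∃ T : Module.End ℂ V, IsSobolevPow Mo B t T := fun t =>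
    hex (fun c => (1 + c) ^ (t / 2))
  have comp : ∀ (a b : ℝ) (Ta Tb Tc : Module.End ℂ V), IsSobolevPow Mo B a Ta →
      IsSobolevPow Mo B b Tb → IsSobolevPow Mo B (a + b) Tc → ∀ v, Ta (Tb v) = Tc v := by
    intro a b Ta Tb Tc ha hb hc v
    exact gR_mul huniq (show a / 2 + b / 2 = (a + b) / 2 by ring) ha hb hc v
  have mono : ∀ (p : V → ℝ), IsNormIn Mo w p → ∀ a b : ℝ, a ≤ b → ∀ Ta Tb : Module.End ℂ V,
      IsSobolevPow Mo B a Ta → IsSobolevPow Mo B b Tb →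
      NormLE (fun v => p (Ta v)) (fun v => p (Tb v)) := by
    intro p hp a b hab Ta Tb ha hb
    obtain ⟨F, _, _, J, hJ, hpJ, hJp⟩ := h4 G R B w hw V Mo p hp
    obtain ⟨C1, hC10, hC1⟩ := gR_nonneg hpJ (fun v => norm_nonneg _)
    obtain ⟨C2, hC2⟩ := hJp
    obtain ⟨S, hS⟩ := hex (fun c => (1 + c) ^ (-((b - a) / 2)))
    have hSb : ∀ v, S (Tb v) = Ta v := fun v =>
      gR_mul huniq (show -((b - a) / 2) + b / 2 = a / 2 by ring) hS hb ha v
    refine ⟨C1 * C2, fun v => ?_⟩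
    have hs1 := h5 V (lap Mo B) hD F J hJ ((b - a) / 2) (by linarith) S hS (Tb v)
    rw [hSb] at hs1
    calc p (Ta v) ≤ C1 * ‖J (Ta v)‖ := hC1 _
      _ ≤ C1 * (C2 * p (Tb v)) := mul_le_mul_of_nonneg_left (hs1.trans (hC2 _)) hC10
      _ = C1 * C2 * p (Tb v) := by ring
  have mono0 : ∀ (p : V → ℝ), IsNormIn Mo w p → ∀ b : ℝ, 0 ≤ b → ∀ Tb : Module.End ℂ V,
      IsSobolevPow Mo B b Tb → NormLE p (fun v => p (Tb v)) := by
    intro p hp b hb0 Tb hb
    have h0 : IsSobolevPow Mo B 0 (1 : Module.End ℂ V) := by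
      intro c v _
      simp
    have := mono p hp 0 b hb0 1 Tb h0 hb
    simpa using this
  obtain ⟨_, hqN, hqle, _⟩ := h2 G R B w hw V Mo p hp s hs T hT
  obtain ⟨_, hmN, _, hmax⟩ := h2 G R B w hw V Mo p' hp' s' hs' T' hT'
  obtain ⟨Tθ, hTθ⟩ := ex (|s - s'| + h + e)
  have hθ : 0 ≤ |s - s'| + h + e := by
    have := abs_nonneg (s - s')
    linarith
  refine ⟨hθ, Tθ, hTθ, ?_⟩
  obtain ⟨T1, hT1⟩ := ex (s + h)
  have hT1' : IsSobolevPow Mo B (h + s) T1 := by rw [add_comm]; exact hT1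
  have hq1 : NormLE (avgN Mo w p T) (fun v => p' (T1 v)) := by
    have hb : NormLE (fun v => p (T v)) (fun v => p' (T1 v)) := by
      obtain ⟨C, hC⟩ := hle
      refine ⟨C, fun v => ?_⟩
      have h9 : p (T v) ≤ C * p' (Th (T v)) := hC (T v)
      rw [comp h s Th T T1 hTh hT hT1'] at h9
      exact h9
    exact gR_trans hqle hb (fun v => gR_nn hp _)
  by_cases hc : s + h ≤ s'
  · have ha : NormLE (avgN Mo w p T) (avgN Mo w p' T') :=
      hmax _ hqN (gR_trans hq1 (mono p' hp' (s + h) s' hc T1 T' hT1 hT') (fun v => gR_nn hp' _))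
    exact gR_trans ha (mono0 _ hmN _ hθ Tθ hTθ) (gR_nn hmN)
  · push Not at hc
    obtain ⟨r, hr, hqr, hpr, hrs⟩ := h3 G R w hw V Mo (avgN Mo w p T) p' hqN hp'
    have hr1 : NormLE r (fun v => p' (T1 v)) := by
      obtain ⟨C, hC0, hC⟩ := gR_nonneg hrs (fun v => add_nonneg (gR_nn hqN v) (gR_nn hp' v))
      obtain ⟨C1, hC1⟩ := hq1
      obtain ⟨C2, hC2⟩ := mono0 p' hp' (s + h) (by linarith) T1 hT1
      refine ⟨C * (C1 + C2), fun v => ?_⟩
      calc r v ≤ C * (avgN Mo w p T v + p' v) := hC v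
        _ ≤ C * (C1 * p' (T1 v) + C2 * p' (T1 v)) :=
          mul_le_mul_of_nonneg_left (add_le_add (hC1 v) (hC2 v)) hC0
        _ = C * (C1 + C2) * p' (T1 v) := by ring
    have hab : s - s' ≤ |s - s'| := le_abs_self _
    have e1 : s + h - (s + h - s') = s' := by ring
    have e2 : s + h - s' + (|s - s'| + h + e - (s + h - s')) = |s - s'| + h + e := by ring
    obtain ⟨n, hn, hn2, hn3⟩ := h1 G R B w hw V Mo p' r hp' hr hpr (s + h) (s + h - s')
      (|s - s'| + h + e - (s + h - s')) (by linarith) (by linarith) (by linarith) T1 T' Tθ hT1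
      (by rw [e1]; exact hT') (by rw [e2]; exact hTθ) hr1
    have hnm : NormLE n (avgN Mo w p' T') := hmax n hn hn2
    have hnm' : NormLE (fun v => n (Tθ v)) (fun v => avgN Mo w p' T' (Tθ v)) := by
      obtain ⟨C, hC⟩ := hnm
      exact ⟨C, fun v => hC (Tθ v)⟩
    exact gR_trans hqr (gR_trans hn3 hnm' (fun v => gR_nn hn _)) (gR_nn hr)

end Pool.Agent.H913.AV
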