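import Pool.Agent.H913.AV.Stmts

/- PROJECT AV (owner helper913): MP_d9e438_al (continuity of the Sobolev averaging map), full affirmative answer.
SETUP (once per box, about 1 minute):
  cd /workdir/pool/outputs/live && git fetch -q origin && mkdir -p /workdir/pool/Pool/Agent/H913/AV /workdir/pool/Pool/Agent/H913/SG && for f in Base LieAux Defs Calc Stmts Stmts2; do git show origin/main:Pool/Agent/H913/SG/$f.lean > /workdir/pool/Pool/Agent/H913/SG/$f.lean; done; git show origin/helper913:Pool/Agent/H913/AV/Stmts.lean > /workdir/pool/Pool/Agent/H913/AV/Stmts.lean; cd /workdir/pool && lake build Pool.Agent.H913.AV.Stmts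
Read AV/Stmts.lean first (all definitions and the statements S_xxx; SG/Defs.lean, and Pack, Glob in SG/Stmts.lean, S_eigA, S_avgV,
S_renorm, ... in SG/Stmts2.lean). Other proved files of origin/main under Pool/Agent/H913/SG may serve as a source of ideas or code.
Put this file at Pool/Agent/H913/AV/MA.lean, replace the sorry of the TARGET by a proof; auxiliary lemmas before it are
welcome (give them names starting with mA_ to avoid clashes). Statement of the target unchanged. Hypotheses (h1 : S_xxx) of the
target are proved elsewhere, use them freely. No sorry, no axioms. Respect RULES.md Validity 2 (banned words such as notation,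
macro, syntax, prefix, tactic; no straight double quotes; no line comment starting in odd places; no local instance attributes).
If the target is false or awkward, message helper913 at once (the statement will be fixed).
Paste the whole compiled file in jobs.result with status='done', done_at=now(), then: team-sql notify inbox_helper913 done -/

open MeasureTheory Matrix NormedSpace Filter Topology
open scoped Matrix

universe u

namespace Pool.Agent.H913.AV

open Pool.Agent.H913.SG

/-! Proof. Eigenspaces of `L` for distinct eigenvalues are independent (Module.End.eigenspaces_iSupIndep), so the finitely supported family f in `Diag L` for a vector v is unique; T v = sum of φ(c) f(c) is linear. (Or: DirectSum.IsInternal of the family of real eigenspaces; or: for existence define T by choice and prove linearity by uniqueness.) Uniqueness of T: both agree on eigenvectors (for v ≠ 0 the eigenvalue is ≥ 0, for v = 0 trivial), and every vector is a finite sum of eigenvectors. -/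

theorem mA_exists (V : Type u) [AddCommGroup V] [Module ℂ V] (L : Module.End ℂ V) (hL : Diag L)
    (φ : ℝ → ℝ) : ∃ T, FC L φ T := by
  classical
  let E : ℝ → Submodule ℂ V := fun c => L.eigenspace (c : ℂ)
  have hind : iSupIndep E := (Module.End.eigenspaces_iSupIndep L).comp Complex.ofReal_injective
  have htop : iSup E = ⊤ := by
    rw [eq_top_iff]
    intro v _
    obtain ⟨f, hf, rfl⟩ := hL.2 v
    exact Submodule.sum_mem _ fun c _ =>
      Submodule.mem_iSup_of_mem c (Module.End.mem_eigenspace_iff.2 (hf c))
  have hint : DirectSum.IsInternal E :=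
    (DirectSum.isInternal_submodule_iff_iSupIndep_and_iSup_eq_top E).2 ⟨hind, htop⟩
  let e := LinearEquiv.ofBijective (DirectSum.coeLinearMap E) hint
  let S : (DirectSum ℝ fun c => E c) →ₗ[ℂ] V :=
    DirectSum.toModule ℂ ℝ V fun c => ((φ c : ℝ) : ℂ) • (E c).subtype
  refine ⟨S ∘ₗ e.symm.toLinearMap, ?_⟩
  intro c v hv
  have hm : v ∈ E c := Module.End.mem_eigenspace_iff.2 hv
  have h1 : e (DirectSum.lof ℂ ℝ (fun c => E c) c ⟨v, hm⟩) = v :=
    DirectSum.coeLinearMap_lof E c ⟨v, hm⟩
  have h2 : e.symm v = DirectSum.lof ℂ ℝ (fun c => E c) c ⟨v, hm⟩ := by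
    rw [LinearEquiv.symm_apply_eq]
    exact h1.symm
  change S (e.symm v) = _
  rw [h2]
  have h3 := DirectSum.toModule_lof ℂ (φ := fun c : ℝ => ((φ c : ℝ) : ℂ) • (E c).subtype) c
    (⟨v, hm⟩ : E c)
  exact h3

/-- TARGET -/
theorem m_fc : S_fc.{u} := by
  intro V _ _ L hL
  refine ⟨fun φ => mA_exists V L hL φ, ?_⟩
  intro φ ψ T T' hT hT' h
  refine LinearMap.ext fun v => ?_
  obtain ⟨f, hf, rfl⟩ := hL.2 v
  rw [Finsupp.sum, map_sum, map_sum]
  refine Finset.sum_congr rfl fun c hc => ?_
  rw [hT c _ (hf c), hT' c _ (hf c), h c (hL.1 c _ (Finsupp.mem_support_iff.1 hc) (hf c))]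

end Pool.Agent.H913.AV

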