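import Pool.Agent.H913.AV.Stmts

/-! # Negative powers of `1 + L` are contractions -/

open MeasureTheory Matrix NormedSpace Filter Topology
open scoped Matrix

universe u

namespace Pool.Agent.H913.AV

open Pool.Agent.H913.SG

section mB

variable {V : Type u} [AddCommGroup V] [Module ℂ V] {F : Type u} [NormedAddCommGroup F]
  [NormedSpace ℂ F]

/-- the vector `∑ a(c) f(c)` -/
noncomputable def mB_W (f : ℝ →₀ V) (a : ℝ → ℝ) : V := ∑ c ∈ f.support, ((a c : ℝ) : ℂ) • f c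

theorem mB_step {L : Module.End ℂ V} (hD : Diag L) {J : V →ₗ[ℂ] F} (hA : Acc L J) {f : ℝ →₀ V}
    (hf : ∀ c, L (f c) = (c : ℂ) • f c) {l : ℝ} (hl : 0 < l) (a : ℝ → ℝ) :
    ‖J (mB_W f fun c => a c * (l / (l + c)))‖ ≤ ‖J (mB_W f a)‖ := by
  set u : V := mB_W f fun c => a c / (l + c) with hu
  have hpos : ∀ c ∈ f.support, l + c ≠ 0 := by
    intro c hc
    have h1 := hD.1 c (f c) (Finsupp.mem_support_iff.1 hc) (hf c)
    positivity
  have h1 : (l : ℂ) • u + L u = mB_W f a := by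
    rw [hu, mB_W, mB_W, map_sum, Finset.smul_sum, ← Finset.sum_add_distrib]
    refine Finset.sum_congr rfl (fun c hc => ?_)
    rw [map_smul, hf, smul_smul, smul_smul, ← add_smul]
    congr 1
    have h2 : ((l : ℂ) + c) ≠ 0 := by exact_mod_cast hpos c hc
    push_cast
    field_simp
  have h2 : mB_W f (fun c => a c * (l / (l + c))) = (l : ℂ) • u := by
    rw [hu, mB_W, mB_W, Finset.smul_sum]
    refine Finset.sum_congr rfl (fun c hc => ?_)
    rw [smul_smul]
    congr 1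
    push_cast
    ring
  have h3 := hA l hl.le u
  rw [h1] at h3
  rw [h2, map_smul, norm_smul, Complex.norm_real, Real.norm_of_nonneg hl.le]
  exact h3

theorem mB_pow {L : Module.End ℂ V} (hD : Diag L) {J : V →ₗ[ℂ] F} (hA : Acc L J) {f : ℝ →₀ V}
    (hf : ∀ c, L (f c) = (c : ℂ) • f c) {l : ℝ} (hl : 0 < l) (n : ℕ) :
    ‖J (mB_W f fun c => (l / (l + c)) ^ n)‖ ≤ ‖J (mB_W f fun _ => 1)‖ := by
  induction n with
  | zero => simp
  | succ n ih =>
    have h := mB_step hD hA hf hl (fun c => (l / (l + c)) ^ n)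
    simp only [pow_succ]
    exact h.trans ih

theorem mB_J (J : V →ₗ[ℂ] F) (f : ℝ →₀ V) (a : ℝ → ℝ) :
    J (mB_W f a) = ∑ c ∈ f.support, ((a c : ℝ) : ℂ) • J (f c) := by
  rw [mB_W, map_sum]
  exact Finset.sum_congr rfl (fun c _ => map_smul _ _ _)

theorem mB_exp {L : Module.End ℂ V} (hD : Diag L) {J : V →ₗ[ℂ] F} (hA : Acc L J) {f : ℝ →₀ V}
    (hf : ∀ c, L (f c) = (c : ℂ) • f c) {t : ℝ} (ht : 0 < t) :
    ‖J (mB_W f fun c => Real.exp (-(t * c)))‖ ≤ ‖J (mB_W f fun _ => 1)‖ := by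
  have h1 : Tendsto (fun n : ℕ => J (mB_W f fun c => (((n : ℝ) / t) / ((n : ℝ) / t + c)) ^ n)) atTop
      (𝓝 (J (mB_W f fun c => Real.exp (-(t * c))))) := by
    simp only [mB_J]
    refine tendsto_finsetSum _ (fun c _ => ?_)
    refine Tendsto.smul_const ?_ _
    refine (Complex.continuous_ofReal.tendsto _).comp ?_
    have h2 := (Real.tendsto_one_add_div_pow_exp (t * c)).inv₀ (Real.exp_ne_zero _)
    rw [← Real.exp_neg] at h2
    refine h2.congr' ?_
    filter_upwards [eventually_ge_atTop 1] with n hn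
    have hn' : (n : ℝ) ≠ 0 := by positivity
    rw [← inv_pow]
    congr 1
    have : 1 + t * c / n = ((n : ℝ) / t + c) / ((n : ℝ) / t) := by field_simp
    rw [this, inv_div]
  refine le_of_tendsto h1.norm ?_
  filter_upwards [eventually_ge_atTop 1] with n hn
  have hn' : (0 : ℝ) < n := by positivity
  exact mB_pow hD hA hf (div_pos hn' ht) n

theorem mB_int {g r : ℝ} (hg : 0 < g) (hr : 0 < r) :
    IntegrableOn (fun t : ℝ => t ^ (g - 1) * Real.exp (-(r * t))) (Set.Ioi 0) := by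
  have h := integrableOn_rpow_mul_exp_neg_mul_rpow (p := 1) (s := g - 1) (b := r) (by linarith)
    one_pos hr
  simpa using h

theorem mB_main {L : Module.End ℂ V} (hD : Diag L) {J : V →ₗ[ℂ] F} (hA : Acc L J) {f : ℝ →₀ V}
    (hf : ∀ c, L (f c) = (c : ℂ) • f c) {g : ℝ} (hg : 0 < g) (φ : F →L[ℂ] ℂ) (hφ : ‖φ‖ ≤ 1) :
    ‖φ (J (mB_W f fun c => (1 + c) ^ (-g)))‖ ≤ ‖J (mB_W f fun _ => 1)‖ := by
  have hG : 0 < Real.Gamma g := Real.Gamma_pos_of_pos hg
  have hc0 : ∀ c ∈ f.support, 0 ≤ c := fun c hc =>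
    hD.1 c (f c) (Finsupp.mem_support_iff.1 hc) (hf c)
  have e1 : ∫ t in Set.Ioi (0 : ℝ), ((t ^ (g - 1) * Real.exp (-t) : ℝ) : ℂ) *
      φ (J (mB_W f fun c => Real.exp (-(t * c)))) =
      (Real.Gamma g : ℂ) * φ (J (mB_W f fun c => (1 + c) ^ (-g))) := by
    have e2 : ∀ t : ℝ, ((t ^ (g - 1) * Real.exp (-t) : ℝ) : ℂ) *
        φ (J (mB_W f fun c => Real.exp (-(t * c)))) =
        ∑ c ∈ f.support, ((t ^ (g - 1) * Real.exp (-((1 + c) * t)) : ℝ) : ℂ) * φ (J (f c)) := by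
      intro t
      rw [mB_J, map_sum, Finset.mul_sum]
      refine Finset.sum_congr rfl (fun c _ => ?_)
      rw [map_smul, smul_eq_mul, ← mul_assoc, ← Complex.ofReal_mul]
      congr 2
      rw [mul_assoc, ← Real.exp_add]
      congr 2
      ring
    simp_rw [e2]
    rw [integral_finsetSum]
    · rw [mB_J, map_sum, Finset.mul_sum]
      refine Finset.sum_congr rfl (fun c hc => ?_)
      have hc1 : 0 < 1 + c := by linarith [hc0 c hc]
      rw [integral_mul_const, integral_complex_ofReal,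
        Real.integral_rpow_mul_exp_neg_mul_Ioi hg hc1, map_smul, smul_eq_mul, ← mul_assoc,
        ← Complex.ofReal_mul]
      congr 2
      rw [one_div, Real.inv_rpow hc1.le, ← Real.rpow_neg hc1.le, mul_comm]
    · intro c hc
      have hc1 : 0 < 1 + c := by linarith [hc0 c hc]
      exact ((mB_int hg hc1).ofReal).mul_const _
  have e3 : ‖∫ t in Set.Ioi (0 : ℝ), ((t ^ (g - 1) * Real.exp (-t) : ℝ) : ℂ) *
      φ (J (mB_W f fun c => Real.exp (-(t * c))))‖ ≤
      ∫ t in Set.Ioi (0 : ℝ), (t ^ (g - 1) * Real.exp (-t)) * ‖J (mB_W f fun _ => 1)‖ := by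
    refine norm_integral_le_of_norm_le ?_ ?_
    · have h := (mB_int hg one_pos).mul_const ‖J (mB_W f fun _ => 1)‖
      simpa using h
    · refine (ae_restrict_iff' measurableSet_Ioi).2 (Eventually.of_forall (fun t ht => ?_))
      have ht' : (0 : ℝ) < t := ht
      rw [norm_mul, Complex.norm_real, Real.norm_of_nonneg (by positivity)]
      have h1 : ‖φ (J (mB_W f fun c => Real.exp (-(t * c))))‖ ≤ ‖J (mB_W f fun _ => 1)‖ := by
        refine (φ.le_opNorm _).trans ?_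
        calc ‖φ‖ * ‖J (mB_W f fun c => Real.exp (-(t * c)))‖
            ≤ 1 * ‖J (mB_W f fun c => Real.exp (-(t * c)))‖ := by gcongr
          _ ≤ _ := by rw [one_mul]; exact mB_exp hD hA hf ht'
      gcongr
  have e4 : ∫ t in Set.Ioi (0 : ℝ), (t ^ (g - 1) * Real.exp (-t)) * ‖J (mB_W f fun _ => 1)‖ =
      Real.Gamma g * ‖J (mB_W f fun _ => 1)‖ := by
    rw [integral_mul_const]
    congr 1
    have h := Real.integral_rpow_mul_exp_neg_mul_Ioi hg one_pos
    simpa using h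
  rw [e1, e4, norm_mul, Complex.norm_real, Real.norm_of_nonneg hG.le] at e3
  exact le_of_mul_le_mul_left e3 hG

end mB

/-- TARGET -/
theorem m_neg (h1 : S_fc.{u}) : S_neg.{u} := by
  intro V _ _ L hD F _ _ J hA g hg T hT v
  obtain ⟨f, hf, hv⟩ := hD.2 v
  have hv1 : v = mB_W f fun _ => 1 := by
    rw [hv, mB_W, Finsupp.sum]
    exact Finset.sum_congr rfl (fun c _ => by simp)
  have hTv : T v = mB_W f fun c => (1 + c) ^ (-g) := by
    rw [hv, Finsupp.sum, map_sum, mB_W]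
    exact Finset.sum_congr rfl (fun c _ => hT c (f c) (hf c))
  rcases hg.eq_or_lt with h0 | h0
  · rw [hTv, hv1, ← h0]
    simp
  · obtain ⟨φ, hφ, hφ2⟩ := exists_dual_vector'' ℂ (J (T v))
    have h2 := mB_main hD hA hf h0 φ hφ
    rw [← hTv, ← hv1, hφ2] at h2
    simpa using h2

end Pool.Agent.H913.AV
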