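import Pool.Agent.H913.AV.Stmts

open MeasureTheory Matrix NormedSpace Filter Topology
open scoped Matrix

universe u

namespace Pool.Agent.H913.AV

open Pool.Agent.H913.SG

/-- the integrand of Balakrishnan's formula -/
noncomputable def mC_h (g a l : ℝ) : ℝ := l ^ (g - 1) * (a / (l + a))

/-- the constant in Balakrishnan's formula -/
noncomputable def mC_k (g : ℝ) : ℝ := ∫ l in Set.Ioi (0 : ℝ), mC_h g 1 l

theorem mC_meas (g a : ℝ) : Measurable (mC_h g a) := by
  unfold mC_h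
  fun_prop

theorem mC_int_Ioc {g : ℝ} (h0 : 0 < g) (s : ℝ) (hs : 0 < s) :
    IntegrableOn (fun l : ℝ => l ^ (g - 1)) (Set.Ioc 0 s) := by
  have h := intervalIntegral.intervalIntegrable_rpow' (a := 0) (b := s) (r := g - 1) (by linarith)
  exact (intervalIntegrable_iff_integrableOn_Ioc_of_le hs.le).mp h

theorem mC_int_Ioi {g : ℝ} (h1 : g < 1) (s : ℝ) (hs : 0 < s) :
    IntegrableOn (fun l : ℝ => l ^ (g - 2)) (Set.Ioi s) :=
  integrableOn_Ioi_rpow_of_lt (by linarith) hs

theorem mC_h_nonneg {g a l : ℝ} (ha : 0 < a) (hl : 0 < l) : 0 ≤ mC_h g a l := by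
  unfold mC_h
  positivity

theorem mC_integrable {g a : ℝ} (h0 : 0 < g) (h1 : g < 1) (ha : 0 < a) :
    IntegrableOn (mC_h g a) (Set.Ioi 0) := by
  rw [← Set.Ioc_union_Ioi_eq_Ioi (zero_le_one (α := ℝ))]
  apply IntegrableOn.union
  · refine Integrable.mono' (mC_int_Ioc h0 1 one_pos) (mC_meas g a).aestronglyMeasurable ?_
    rw [ae_restrict_iff' measurableSet_Ioc]
    refine Eventually.of_forall (fun l hl => ?_)
    rw [Real.norm_eq_abs, abs_of_nonneg (mC_h_nonneg ha hl.1)]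
    unfold mC_h
    have h2 : a / (l + a) ≤ 1 := by
      rw [div_le_one (by linarith [hl.1])]
      linarith [hl.1]
    have h3 : (0 : ℝ) ≤ l ^ (g - 1) := Real.rpow_nonneg hl.1.le _
    calc l ^ (g - 1) * (a / (l + a)) ≤ l ^ (g - 1) * 1 := mul_le_mul_of_nonneg_left h2 h3
      _ = _ := mul_one _
  · refine Integrable.mono' ((mC_int_Ioi h1 1 one_pos).const_mul a)
      (mC_meas g a).aestronglyMeasurable ?_
    rw [ae_restrict_iff' measurableSet_Ioi]
    refine Eventually.of_forall (fun l hl => ?_)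
    have hl0 : 0 < l := lt_trans one_pos hl
    rw [Real.norm_eq_abs, abs_of_nonneg (mC_h_nonneg ha hl0)]
    unfold mC_h
    have h2 : a / (l + a) ≤ a / l := by
      apply div_le_div_of_nonneg_left ha.le hl0 (by linarith)
    have h3 : (0 : ℝ) ≤ l ^ (g - 1) := Real.rpow_nonneg hl0.le _
    have h4 : l ^ (g - 1) * l⁻¹ = l ^ (g - 2) := by
      rw [← Real.rpow_neg_one l, ← Real.rpow_add hl0]
      congr 1
      ring
    calc l ^ (g - 1) * (a / (l + a)) ≤ l ^ (g - 1) * (a / l) := mul_le_mul_of_nonneg_left h2 h3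
      _ = a * (l ^ (g - 1) * l⁻¹) := by rw [div_eq_mul_inv]; ring
      _ = _ := by rw [h4]

theorem mC_scale {g a : ℝ} (ha : 0 < a) :
    ∫ l in Set.Ioi (0 : ℝ), mC_h g a l = a ^ g * mC_k g := by
  have h := MeasureTheory.integral_comp_mul_left_Ioi (mC_h g a) 0 ha
  rw [mul_zero] at h
  have h2 : ∫ x in Set.Ioi (0 : ℝ), mC_h g a (a * x) =
      ∫ x in Set.Ioi (0 : ℝ), a ^ (g - 1) * mC_h g 1 x := by
    apply setIntegral_congr_fun measurableSet_Ioi
    intro x hx
    have hx0 : (0 : ℝ) < x := hx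
    simp only [mC_h]
    rw [Real.mul_rpow ha.le hx0.le]
    have h3 : a / (a * x + a) = 1 / (x + 1) := by
      field_simp
    rw [h3]
    ring
  rw [h2, integral_const_mul] at h
  have h4 : a ^ (g - 1) = a⁻¹ * a ^ g := by
    rw [Real.rpow_sub_one ha.ne', div_eq_mul_inv, mul_comm]
  rw [h4, smul_eq_mul, mul_assoc] at h
  exact (mul_left_cancel₀ (inv_ne_zero ha.ne') h).symm

theorem mC_k_pos {g : ℝ} (h0 : 0 < g) (h1 : g < 1) : 0 < mC_k g := by
  have h2 : ∫ l in Set.Ioc (0 : ℝ) 1, mC_h g 1 l ≤ mC_k g := by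
    unfold mC_k
    apply setIntegral_mono_set (mC_integrable h0 h1 one_pos)
    · rw [EventuallyLE, ae_restrict_iff' measurableSet_Ioi]
      exact Eventually.of_forall (fun l hl => mC_h_nonneg one_pos hl)
    · exact Set.Ioc_subset_Ioi_self.eventuallyLE
  have h3 : ∫ l in Set.Ioc (0 : ℝ) 1, l ^ (g - 1) * (1 / 2) ≤
      ∫ l in Set.Ioc (0 : ℝ) 1, mC_h g 1 l := by
    apply setIntegral_mono_on
    · exact (mC_int_Ioc h0 1 one_pos).mul_const _
    · exact (mC_integrable h0 h1 one_pos).mono_set Set.Ioc_subset_Ioi_self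
    · exact measurableSet_Ioc
    · intro l hl
      unfold mC_h
      apply mul_le_mul_of_nonneg_left _ (Real.rpow_nonneg hl.1.le _)
      apply div_le_div_of_nonneg_left one_pos.le (by linarith [hl.1]) (by linarith [hl.2])
  have h4 : ∫ l in Set.Ioc (0 : ℝ) 1, l ^ (g - 1) * (1 / 2) = 1 / g * (1 / 2) := by
    rw [integral_mul_const, ← intervalIntegral.integral_of_le zero_le_one,
      integral_rpow (Or.inl (by linarith))]
    rw [sub_add_cancel, Real.one_rpow, Real.zero_rpow h0.ne', sub_zero]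
  rw [h4] at h3
  have h5 : 0 < 1 / g * (1 / 2) := by positivity
  linarith

theorem mC_core {g : ℝ} (h0 : 0 < g) (h1 : g < 1) (S : Finset ℝ) (hS : ∀ c ∈ S, 0 ≤ c)
    (z : ℝ → ℂ) (A B : ℝ)
    (hA : ∀ l : ℝ, 0 < l → ‖∑ c ∈ S, (((1 + c) / (l + (1 + c)) : ℝ) : ℂ) * z c‖ ≤ 2 * A)
    (hB : ∀ l : ℝ, 0 < l → l * ‖∑ c ∈ S, (((1 + c) / (l + (1 + c)) : ℝ) : ℂ) * z c‖ ≤ B)
    (s : ℝ) (hs : 0 < s) :
    mC_k g * ‖∑ c ∈ S, (((1 + c) ^ g : ℝ) : ℂ) * z c‖ ≤
      2 * A * (s ^ g / g) + B * (s ^ (g - 1) / (1 - g)) := by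
  set m : ℝ → ℂ := fun l => ∑ c ∈ S, (((1 + c) / (l + (1 + c)) : ℝ) : ℂ) * z c with hm
  have hk := mC_k_pos h0 h1
  -- the integral representation
  have e1 : ∫ l in Set.Ioi (0 : ℝ), ((l ^ (g - 1) : ℝ) : ℂ) * m l =
      (mC_k g : ℂ) * ∑ c ∈ S, (((1 + c) ^ g : ℝ) : ℂ) * z c := by
    have e2 : ∀ l : ℝ, ((l ^ (g - 1) : ℝ) : ℂ) * m l =
        ∑ c ∈ S, ((mC_h g (1 + c) l : ℝ) : ℂ) * z c := by
      intro l
      simp only [hm, Finset.mul_sum, mC_h]
      apply Finset.sum_congr rfl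
      intro c _
      push_cast
      ring
    simp_rw [e2]
    rw [integral_finsetSum]
    · rw [Finset.mul_sum]
      apply Finset.sum_congr rfl
      intro c hc
      rw [integral_mul_const, integral_complex_ofReal, mC_scale (by linarith [hS c hc])]
      push_cast
      ring
    · intro c hc
      exact ((mC_integrable h0 h1 (by linarith [hS c hc])).ofReal).mul_const _
  have e3 : mC_k g * ‖∑ c ∈ S, (((1 + c) ^ g : ℝ) : ℂ) * z c‖ =
      ‖∫ l in Set.Ioi (0 : ℝ), ((l ^ (g - 1) : ℝ) : ℂ) * m l‖ := by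
    rw [e1, norm_mul, Complex.norm_real, Real.norm_eq_abs, abs_of_pos hk]
  have mmeas : Measurable m := by
    simp only [hm]
    fun_prop
  have nmeas : Measurable (fun l : ℝ => l ^ (g - 1) * ‖m l‖) := by fun_prop
  have i1 : IntegrableOn (fun l : ℝ => l ^ (g - 1) * ‖m l‖) (Set.Ioc 0 s) := by
    refine Integrable.mono' ((mC_int_Ioc h0 s hs).mul_const (2 * A)) nmeas.aestronglyMeasurable ?_
    rw [ae_restrict_iff' measurableSet_Ioc]
    refine Eventually.of_forall (fun l hl => ?_)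
    have h3 : (0 : ℝ) ≤ l ^ (g - 1) := Real.rpow_nonneg hl.1.le _
    rw [Real.norm_eq_abs, abs_of_nonneg (mul_nonneg h3 (norm_nonneg _))]
    exact mul_le_mul_of_nonneg_left (hA l hl.1) h3
  have b1 : ∫ l in Set.Ioc (0 : ℝ) s, l ^ (g - 1) * ‖m l‖ ≤ 2 * A * (s ^ g / g) := by
    have h4 : ∫ l in Set.Ioc (0 : ℝ) s, l ^ (g - 1) * (2 * A) = 2 * A * (s ^ g / g) := by
      rw [integral_mul_const, ← intervalIntegral.integral_of_le hs.le,
        integral_rpow (Or.inl (by linarith))]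
      rw [sub_add_cancel, Real.zero_rpow h0.ne', sub_zero, mul_comm]
    rw [← h4]
    apply setIntegral_mono_on i1 ((mC_int_Ioc h0 s hs).mul_const (2 * A)) measurableSet_Ioc
    intro l hl
    exact mul_le_mul_of_nonneg_left (hA l hl.1) (Real.rpow_nonneg hl.1.le _)
  have hpt : ∀ l ∈ Set.Ioi s, l ^ (g - 1) * ‖m l‖ ≤ l ^ (g - 2) * B := by
    intro l hl
    have hl0 : 0 < l := lt_trans hs hl
    have h4 : l ^ (g - 1) = l ^ (g - 2) * l := by
      rw [← Real.rpow_add_one hl0.ne']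
      congr 1
      ring
    rw [h4, mul_assoc]
    exact mul_le_mul_of_nonneg_left (hB l hl0) (Real.rpow_nonneg hl0.le _)
  have i2 : IntegrableOn (fun l : ℝ => l ^ (g - 1) * ‖m l‖) (Set.Ioi s) := by
    refine Integrable.mono' ((mC_int_Ioi h1 s hs).mul_const B) nmeas.aestronglyMeasurable ?_
    rw [ae_restrict_iff' measurableSet_Ioi]
    refine Eventually.of_forall (fun l hl => ?_)
    have hl0 : 0 < l := lt_trans hs hl
    have h3 : (0 : ℝ) ≤ l ^ (g - 1) := Real.rpow_nonneg hl0.le _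
    rw [Real.norm_eq_abs, abs_of_nonneg (mul_nonneg h3 (norm_nonneg _))]
    exact hpt l hl
  have b2 : ∫ l in Set.Ioi s, l ^ (g - 1) * ‖m l‖ ≤ B * (s ^ (g - 1) / (1 - g)) := by
    have h4 : ∫ l in Set.Ioi s, l ^ (g - 2) * B = B * (s ^ (g - 1) / (1 - g)) := by
      rw [integral_mul_const, integral_Ioi_rpow_of_lt (by linarith) hs]
      have h5 : g - 2 + 1 = g - 1 := by ring
      rw [h5, mul_comm, neg_div, ← div_neg, neg_sub]
    rw [← h4]
    exact setIntegral_mono_on i2 ((mC_int_Ioi h1 s hs).mul_const B) measurableSet_Ioi hpt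
  rw [e3]
  refine (norm_integral_le_integral_norm _).trans ?_
  have e4 : ∫ l in Set.Ioi (0 : ℝ), ‖((l ^ (g - 1) : ℝ) : ℂ) * m l‖ =
      ∫ l in Set.Ioi (0 : ℝ), l ^ (g - 1) * ‖m l‖ := by
    apply setIntegral_congr_fun measurableSet_Ioi
    intro l hl
    have hl0 : (0 : ℝ) < l := hl
    simp only
    rw [norm_mul, Complex.norm_real, Real.norm_eq_abs, abs_of_nonneg (Real.rpow_nonneg hl0.le _)]
  rw [e4, ← Set.Ioc_union_Ioi_eq_Ioi hs.le, setIntegral_union Set.Ioc_disjoint_Ioi_same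
    measurableSet_Ioi i1 i2]
  linarith

/-- TARGET -/
theorem m_mom (h1 : S_fc.{u}) : S_mom.{u} := by
  intro g hg0 hg1
  have hk := mC_k_pos hg0 hg1
  refine ⟨(2 / g + 1 / (1 - g)) / mC_k g, ?_, ?_⟩
  · have : 0 < 1 - g := by linarith
    positivity
  intro V _ _ L hL F _ _ J hJ T T' hT hT' v
  obtain ⟨f, hf, hv⟩ := hL.2 v
  have hnn : ∀ c ∈ f.support, 0 ≤ c := by
    intro c hc
    exact hL.1 c (f c) (Finsupp.mem_support_iff.mp hc) (hf c)
  have hvs : v = ∑ c ∈ f.support, f c := hv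
  have hTv : T v = ∑ c ∈ f.support, (((1 + c) ^ g : ℝ) : ℂ) • f c := by
    rw [hvs, map_sum]
    exact Finset.sum_congr rfl (fun c _ => hT c (f c) (hf c))
  have hT'v : T' v = ∑ c ∈ f.support, ((1 + c : ℝ) : ℂ) • f c := by
    rw [hvs, map_sum]
    exact Finset.sum_congr rfl (fun c _ => hT' c (f c) (hf c))
  -- the resolvents
  set y : ℝ → V := fun l => ∑ c ∈ f.support, (((1 + c) / (l + (1 + c)) : ℝ) : ℂ) • f c with hy
  have hB : ∀ l : ℝ, 0 < l → (l + 1) * ‖J (y l)‖ ≤ ‖J (T' v)‖ := by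
    intro l hl
    have h2 := hJ (l + 1) (by linarith) (y l)
    have h3 : ((l + 1 : ℝ) : ℂ) • y l + L (y l) = T' v := by
      rw [hT'v]
      simp only [hy]
      rw [map_sum, Finset.smul_sum, ← Finset.sum_add_distrib]
      apply Finset.sum_congr rfl
      intro c hc
      rw [map_smul, hf c, smul_smul, smul_smul, ← add_smul]
      congr 1
      have h4 := hnn c hc
      have h5 : l + (1 + c) ≠ 0 := by linarith
      rw [← Complex.ofReal_mul, ← Complex.ofReal_mul, ← Complex.ofReal_add]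
      congr 1
      field_simp
      ring
    rw [h3] at h2
    exact h2
  have hA : ∀ l : ℝ, 0 < l → ‖J (y l)‖ ≤ 2 * ‖J v‖ := by
    intro l hl
    set w : V := ∑ c ∈ f.support, ((1 / (l + (1 + c)) : ℝ) : ℂ) • f c with hw
    have h2 := hJ (l + 1) (by linarith) w
    have h3 : ((l + 1 : ℝ) : ℂ) • w + L w = v := by
      conv_rhs => rw [hvs]
      rw [hw, map_sum, Finset.smul_sum, ← Finset.sum_add_distrib]
      apply Finset.sum_congr rfl
      intro c hc
      rw [map_smul, hf c, smul_smul, smul_smul, ← add_smul]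
      have h4 := hnn c hc
      have h5 : l + (1 + c) ≠ 0 := by linarith
      rw [← Complex.ofReal_mul, ← Complex.ofReal_mul, ← Complex.ofReal_add]
      have h6 : (l + 1) * (1 / (l + (1 + c))) + 1 / (l + (1 + c)) * c = 1 := by
        field_simp
        ring
      rw [h6, Complex.ofReal_one, one_smul]
    rw [h3] at h2
    have h7 : y l = v - (l : ℂ) • w := by
      conv_rhs => rw [hvs]
      rw [hw, Finset.smul_sum, ← Finset.sum_sub_distrib]
      simp only [hy]
      apply Finset.sum_congr rfl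
      intro c hc
      have h4 := hnn c hc
      have h5 : l + (1 + c) ≠ 0 := by linarith
      have h6 : (1 + c) / (l + (1 + c)) = 1 - l * (1 / (l + (1 + c))) := by
        field_simp
        ring
      rw [smul_smul, ← Complex.ofReal_mul, h6, Complex.ofReal_sub, sub_smul, Complex.ofReal_one,
        one_smul]
    rw [h7, map_sub, map_smul]
    have h8 : ‖(l : ℂ) • J w‖ = l * ‖J w‖ := by
      rw [norm_smul, Complex.norm_real, Real.norm_eq_abs, abs_of_pos hl]
    have h9 := norm_sub_le (J v) ((l : ℂ) • J w)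
    rw [h8] at h9
    have h10 := norm_nonneg (J w)
    nlinarith
  -- the functional
  obtain ⟨φ, hφ1, hφ2⟩ := exists_dual_vector'' ℂ (J (T v))
  set z : ℝ → ℂ := fun c => φ (J (f c)) with hz
  have hφT : φ (J (T v)) = ∑ c ∈ f.support, (((1 + c) ^ g : ℝ) : ℂ) * z c := by
    rw [hTv, map_sum, map_sum]
    apply Finset.sum_congr rfl
    intro c _
    rw [map_smul, map_smul, smul_eq_mul]
  have hφy : ∀ l, φ (J (y l)) = ∑ c ∈ f.support, (((1 + c) / (l + (1 + c)) : ℝ) : ℂ) * z c := by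
    intro l
    simp only [hy]
    rw [map_sum, map_sum]
    apply Finset.sum_congr rfl
    intro c _
    rw [map_smul, map_smul, smul_eq_mul]
  have hφle : ∀ x, ‖φ x‖ ≤ ‖x‖ := by
    intro x
    have h2 := φ.le_opNorm x
    have h3 := mul_le_mul_of_nonneg_right hφ1 (norm_nonneg x)
    linarith
  have hnorm : ‖∑ c ∈ f.support, (((1 + c) ^ g : ℝ) : ℂ) * z c‖ = ‖J (T v)‖ := by
    rw [← hφT, hφ2]
    simp
  have key : ∀ s : ℝ, 0 < s → mC_k g * ‖J (T v)‖ ≤
      2 * ‖J v‖ * (s ^ g / g) + ‖J (T' v)‖ * (s ^ (g - 1) / (1 - g)) := by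
    intro s hs
    rw [← hnorm]
    apply mC_core hg0 hg1 f.support hnn z ‖J v‖ ‖J (T' v)‖ _ _ s hs
    · intro l hl
      rw [← hφy]
      exact (hφle _).trans (hA l hl)
    · intro l hl
      rw [← hφy]
      have h2 := hφle (J (y l))
      have h3 := hB l hl
      have h4 := norm_nonneg (J (y l))
      nlinarith
  have hAB : ‖J v‖ ≤ ‖J (T' v)‖ := by
    have h2 := hJ 1 zero_le_one v
    have h3 : ((1 : ℝ) : ℂ) • v + L v = T' v := by
      rw [hT'v]
      conv_lhs => rw [hvs]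
      rw [map_sum, Complex.ofReal_one, one_smul, ← Finset.sum_add_distrib]
      apply Finset.sum_congr rfl
      intro c _
      rw [hf c, Complex.ofReal_add, Complex.ofReal_one, add_smul, one_smul]
    rw [h3, one_mul] at h2
    exact h2
  have h1g : 0 < 1 - g := by linarith
  rcases (norm_nonneg (J v)).eq_or_lt with hA0 | hA0
  · -- the degenerate case
    have h2 : ∀ s : ℝ, 0 < s → mC_k g * ‖J (T v)‖ ≤ ‖J (T' v)‖ * (s ^ (-(1 - g)) / (1 - g)) := by
      intro s hs
      have h3 := key s hs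
      rw [← hA0, mul_zero, zero_mul, zero_add] at h3
      have h4 : -(1 - g) = g - 1 := by ring
      rw [h4]
      exact h3
    have h3 : Tendsto (fun s : ℝ => ‖J (T' v)‖ * (s ^ (-(1 - g)) / (1 - g))) atTop (𝓝 0) := by
      have h4 := ((tendsto_rpow_neg_atTop h1g).div_const (1 - g)).const_mul ‖J (T' v)‖
      rw [zero_div, mul_zero] at h4
      exact h4
    have h4 : mC_k g * ‖J (T v)‖ ≤ 0 :=
      ge_of_tendsto h3 ((eventually_gt_atTop 0).mono h2)
    have h5 : ‖J (T v)‖ ≤ 0 := by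
      by_contra hcon
      push Not at hcon
      have := mul_pos hk hcon
      linarith
    refine h5.trans ?_
    have h6 : (0 : ℝ) ≤ (2 / g + 1 / (1 - g)) / mC_k g := by positivity
    exact mul_nonneg (mul_nonneg h6 (Real.rpow_nonneg (norm_nonneg _) _))
      (Real.rpow_nonneg (norm_nonneg _) _)
  · have hB0 : 0 < ‖J (T' v)‖ := lt_of_lt_of_le hA0 hAB
    set A := ‖J v‖ with hAdef
    set B := ‖J (T' v)‖ with hBdef
    have h2 := key (B / A) (div_pos hB0 hA0)
    have e1 : A * (B / A) ^ g = A ^ (1 - g) * B ^ g := by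
      rw [Real.div_rpow hB0.le hA0.le, Real.rpow_sub hA0, Real.rpow_one]
      field_simp
    have e2 : B * (B / A) ^ (g - 1) = A ^ (1 - g) * B ^ g := by
      rw [Real.div_rpow hB0.le hA0.le, Real.rpow_sub_one hB0.ne']
      have h3 : A ^ (g - 1) = (A ^ (1 - g))⁻¹ := by
        rw [← Real.rpow_neg hA0.le]
        congr 1
        ring
      rw [h3]
      have h4 : A ^ (1 - g) ≠ 0 := (Real.rpow_pos_of_pos hA0 _).ne'
      field_simp
    have e3 : 2 * A * ((B / A) ^ g / g) + B * ((B / A) ^ (g - 1) / (1 - g)) =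
        (2 / g + 1 / (1 - g)) * (A ^ (1 - g) * B ^ g) := by
      calc 2 * A * ((B / A) ^ g / g) + B * ((B / A) ^ (g - 1) / (1 - g)) =
          (2 / g) * (A * (B / A) ^ g) + (1 / (1 - g)) * (B * (B / A) ^ (g - 1)) := by ring
        _ = _ := by rw [e1, e2]; ring
    rw [e3] at h2
    have h3 : ‖J (T v)‖ ≤ (2 / g + 1 / (1 - g)) * (A ^ (1 - g) * B ^ g) / mC_k g := by
      rw [le_div_iff₀ hk]
      linarith
    calc ‖J (T v)‖ ≤ (2 / g + 1 / (1 - g)) * (A ^ (1 - g) * B ^ g) / mC_k g := h3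
      _ = _ := by ring

end Pool.Agent.H913.AV
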