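import Pool.Agent.H913.AV.Stmts

/-! M4: bounds for the multipliers. -/

open MeasureTheory Matrix NormedSpace Filter Topology
open scoped Matrix

universe u

namespace Pool.Agent.H913.AV

open Pool.Agent.H913.SG

section FCalg

variable {V : Type u} [AddCommGroup V] [Module ℂ V] {L : Module.End ℂ V}

theorem mD_mul {φ ψ : ℝ → ℝ} {T T' : Module.End ℂ V} (h : FC L φ T) (h' : FC L ψ T') :
    FC L (fun c => φ c * ψ c) (T * T') := by
  intro c v hv
  rw [Module.End.mul_apply, h' c v hv, map_smul, h c v hv, smul_smul]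
  congr 1; push_cast; ring

theorem mD_add {φ ψ : ℝ → ℝ} {T T' : Module.End ℂ V} (h : FC L φ T) (h' : FC L ψ T') :
    FC L (fun c => φ c + ψ c) (T + T') := by
  intro c v hv
  rw [LinearMap.add_apply, h' c v hv, h c v hv, ← add_smul]
  congr 1; push_cast; ring

theorem mD_one : FC L (fun _ => 1) (1 : Module.End ℂ V) := by
  intro c v hv
  simp

theorem mD_smul {φ : ℝ → ℝ} {T : Module.End ℂ V} (a : ℝ) (h : FC L φ T) :
    FC L (fun c => a * φ c) ((a : ℂ) • T) := by
  intro c v hv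
  rw [LinearMap.smul_apply, h c v hv, smul_smul]
  congr 1; push_cast; ring

theorem mD_L : FC L (fun c => c) L := fun _ _ hv => hv

theorem mD_pow {φ : ℝ → ℝ} {T : Module.End ℂ V} (h : FC L φ T) (n : ℕ) :
    FC L (fun c => φ c ^ n) (T ^ n) := by
  induction n with
  | zero => simpa using (mD_one : FC L (fun _ => 1) (1 : Module.End ℂ V))
  | succ n ih =>
    have := mD_mul ih h
    simpa only [pow_succ] using this

theorem mD_sub {φ ψ : ℝ → ℝ} {T T' : Module.End ℂ V} (h : FC L φ T) (h' : FC L ψ T') :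
    FC L (fun c => φ c - ψ c) (T - T') := by
  intro c v hv
  rw [LinearMap.sub_apply, h' c v hv, h c v hv, ← sub_smul]
  congr 1; push_cast; ring

theorem mD_sum {φ : ℕ → ℝ → ℝ} {T : ℕ → Module.End ℂ V} (n : ℕ) (h : ∀ i, FC L (φ i) (T i)) :
    FC L (fun c => ∑ i ∈ Finset.range n, φ i c) (∑ i ∈ Finset.range n, T i) := by
  induction n with
  | zero => intro c v _; simp
  | succ n ih =>
    have := mD_add ih (h n)
    simpa only [Finset.sum_range_succ] using this

end FCalg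

section BDalg

variable {V : Type u} [AddCommGroup V] [Module ℂ V]
variable {F : Type u} [NormedAddCommGroup F] [NormedSpace ℂ F] {J : V →ₗ[ℂ] F}

/-- `T` is bounded by `B` for the seminorm. -/
def mD_BD (J : V →ₗ[ℂ] F) (B : ℝ) (T : Module.End ℂ V) : Prop := ∀ v, ‖J (T v)‖ ≤ B * ‖J v‖

theorem mD_bmul {B B' : ℝ} {T T' : Module.End ℂ V} (h : mD_BD J B T) (h' : mD_BD J B' T')
    (hB : 0 ≤ B) : mD_BD J (B * B') (T * T') := by
  intro v
  rw [Module.End.mul_apply]
  calc ‖J (T (T' v))‖ ≤ B * ‖J (T' v)‖ := h _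
    _ ≤ B * (B' * ‖J v‖) := mul_le_mul_of_nonneg_left (h' v) hB
    _ = B * B' * ‖J v‖ := by ring

theorem mD_bone : mD_BD J 1 (1 : Module.End ℂ V) := by
  intro v; simp

theorem mD_bpow {B : ℝ} {T : Module.End ℂ V} (h : mD_BD J B T) (hB : 0 ≤ B) (n : ℕ) :
    mD_BD J (B ^ n) (T ^ n) := by
  induction n with
  | zero => simpa using (mD_bone : mD_BD J 1 (1 : Module.End ℂ V))
  | succ n ih =>
    rw [pow_succ, pow_succ]
    exact mD_bmul ih h (pow_nonneg hB n)

theorem mD_badd {B B' : ℝ} {T T' : Module.End ℂ V} (h : mD_BD J B T) (h' : mD_BD J B' T') :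
    mD_BD J (B + B') (T + T') := by
  intro v
  rw [LinearMap.add_apply, map_add]
  calc ‖J (T v) + J (T' v)‖ ≤ ‖J (T v)‖ + ‖J (T' v)‖ := norm_add_le _ _
    _ ≤ B * ‖J v‖ + B' * ‖J v‖ := add_le_add (h v) (h' v)
    _ = (B + B') * ‖J v‖ := by ring

theorem mD_bsub {B B' : ℝ} {T T' : Module.End ℂ V} (h : mD_BD J B T) (h' : mD_BD J B' T') :
    mD_BD J (B + B') (T - T') := by
  intro v
  rw [LinearMap.sub_apply, map_sub]
  calc ‖J (T v) - J (T' v)‖ ≤ ‖J (T v)‖ + ‖J (T' v)‖ := norm_sub_le _ _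
    _ ≤ B * ‖J v‖ + B' * ‖J v‖ := add_le_add (h v) (h' v)
    _ = (B + B') * ‖J v‖ := by ring

theorem mD_bsmul {B : ℝ} {T : Module.End ℂ V} (a : ℝ) (ha : 0 ≤ a) (h : mD_BD J B T) :
    mD_BD J (a * B) ((a : ℂ) • T) := by
  intro v
  rw [LinearMap.smul_apply, map_smul, norm_smul, Complex.norm_real, Real.norm_of_nonneg ha]
  calc a * ‖J (T v)‖ ≤ a * (B * ‖J v‖) := mul_le_mul_of_nonneg_left (h v) ha
    _ = a * B * ‖J v‖ := by ring

theorem mD_bsum {B : ℕ → ℝ} {T : ℕ → Module.End ℂ V} (n : ℕ) (h : ∀ i, mD_BD J (B i) (T i)) :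
    mD_BD J (∑ i ∈ Finset.range n, B i) (∑ i ∈ Finset.range n, T i) := by
  induction n with
  | zero => intro v; simp
  | succ n ih =>
    rw [Finset.sum_range_succ, Finset.sum_range_succ]
    exact mD_badd ih (h n)

end BDalg

/-- the resolvent -/
theorem mD_res (h1 : S_fc.{u}) (V : Type u) [AddCommGroup V] [Module ℂ V] (L : Module.End ℂ V)
    (hL : Diag L) (F : Type u) [NormedAddCommGroup F] [NormedSpace ℂ F] (J : V →ₗ[ℂ] F)
    (hJ : Acc L J) (l : ℝ) (hl : 1 ≤ l) :
    ∃ R : Module.End ℂ V, FC L (fun c => (l + 1 + c)⁻¹) R ∧ mD_BD J l⁻¹ R ∧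
      mD_BD J 1 ((l : ℂ) • R) ∧ mD_BD J 2 (1 - (l : ℂ) • R) := by
  obtain ⟨R, hR⟩ := (h1 V L hL).1 (fun c => (l + 1 + c)⁻¹)
  have hid : (((l + 1 : ℝ) : ℂ) • R + L * R) = 1 := by
    refine (h1 V L hL).2 _ _ _ _ (mD_add (mD_smul (l + 1) hR) (mD_mul mD_L hR)) mD_one ?_
    intro c hc
    have : l + 1 + c ≠ 0 := by positivity
    field_simp
  have hb : ∀ v, (l + 1) * ‖J (R v)‖ ≤ ‖J v‖ := by
    intro v
    have h := hJ (l + 1) (by linarith) (R v)
    have e : (((l + 1 : ℝ) : ℂ) • R v + L (R v)) = v := by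
      have := LinearMap.congr_fun hid v
      simpa using this
    rw [e] at h
    exact h
  have hl0 : 0 < l := by linarith
  have b1 : mD_BD J l⁻¹ R := by
    intro v
    rw [inv_mul_eq_div, le_div_iff₀ hl0]
    have := hb v
    nlinarith [norm_nonneg (J (R v))]
  have b2 : mD_BD J 1 ((l : ℂ) • R) := by
    have := mD_bsmul l hl0.le b1
    rwa [mul_inv_cancel₀ hl0.ne'] at this
  refine ⟨R, hR, b1, b2, ?_⟩
  have := mD_bsub (mD_bone (J := J)) b2
  norm_num at this
  exact this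

theorem mD_interp (h1 : S_fc.{u}) (h2 : S_mom.{u}) (M : ℕ) (g : ℝ) (hg0 : 0 ≤ g) (hgM : g ≤ M) :
    ∃ C : ℝ, 0 ≤ C ∧ ∀ (V : Type u) [AddCommGroup V] [Module ℂ V] (L : Module.End ℂ V), Diag L →
    ∀ (F : Type u) [NormedAddCommGroup F] [NormedSpace ℂ F] (J : V →ₗ[ℂ] F), Acc L J →
    ∀ (β K l : ℝ), 1 ≤ l → 0 ≤ K → ∀ ψ : ℝ → ℝ,
      (∀ j : ℕ, j ≤ M → ∀ T : Module.End ℂ V, FC L (fun c => (1 + c) ^ j * ψ c) T →
        mD_BD J (K * l ^ ((j : ℝ) + β)) T) →
      ∀ T : Module.End ℂ V, FC L (fun c => (1 + c) ^ g * ψ c) T →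
        mD_BD J (C * K * l ^ (g + β)) T := by
  obtain ⟨j, hj1, hj2⟩ : ∃ j : ℕ, (j : ℝ) ≤ g ∧ g < j + 1 :=
    ⟨⌊g⌋₊, Nat.floor_le hg0, Nat.lt_floor_add_one g⟩
  rcases hj1.eq_or_lt with heq | hlt
  · -- integer exponent
    refine ⟨1, zero_le_one, ?_⟩
    intro V _ _ L hL F _ _ J hJ β K l hl hK ψ hint T hT
    have hjM : j ≤ M := by
      have : (j : ℝ) ≤ M := by rw [heq]; exact hgM
      exact_mod_cast this
    rw [one_mul, ← heq]
    apply hint j hjM T
    rw [← heq] at hT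
    have : (fun c : ℝ => (1 + c) ^ (j : ℝ) * ψ c) = fun c => (1 + c) ^ j * ψ c := by
      funext c; rw [Real.rpow_natCast]
    rw [this] at hT
    exact hT
  · have hjM : j + 1 ≤ M := by
      have : (j : ℝ) < M := lt_of_lt_of_le hlt hgM
      have h3 : j < M := by exact_mod_cast this
      omega
    set θ : ℝ := g - j with hθ
    have hθ0 : 0 < θ := by rw [hθ]; linarith
    have hθ1 : θ < 1 := by rw [hθ]; linarith
    obtain ⟨C, hC, hmom⟩ := h2 θ hθ0 hθ1
    refine ⟨C, hC, ?_⟩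
    intro V _ _ L hL F _ _ J hJ β K l hl hK ψ hint T hT v
    have hl0 : 0 < l := by linarith
    obtain ⟨W, hW⟩ := (h1 V L hL).1 (fun c => (1 + c) ^ j * ψ c)
    obtain ⟨A, hA⟩ := (h1 V L hL).1 (fun c => (1 + c) ^ θ)
    obtain ⟨A', hA'⟩ := (h1 V L hL).1 (fun c => 1 + c)
    have hTW : T = A * W := by
      refine (h1 V L hL).2 _ _ _ _ hT (mD_mul hA hW) ?_
      intro c hc
      have hc0 : (0 : ℝ) < 1 + c := by linarith
      have : (1 + c) ^ g = (1 + c) ^ θ * (1 + c) ^ j := by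
        rw [← Real.rpow_natCast, ← Real.rpow_add hc0]; congr 1; rw [hθ]; ring
      rw [this]; ring
    have hW' : FC L (fun c => (1 + c) ^ (j + 1) * ψ c) (A' * W) := by
      have := mD_mul hA' hW
      have e : (fun c : ℝ => (1 + c) * ((1 + c) ^ j * ψ c)) = fun c => (1 + c) ^ (j + 1) * ψ c := by
        funext c; ring
      rw [e] at this
      exact this
    have b0 := hint j (by omega) W hW v
    have b1 := hint (j + 1) hjM _ hW' v
    have hm := hmom V L hL F J hJ A A' hA hA' (W v)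
    rw [hTW, Module.End.mul_apply]
    rw [Module.End.mul_apply] at b1
    set D : ℝ := K * l ^ ((j : ℝ) + β) * ‖J v‖ with hD
    have hD0 : 0 ≤ D := by rw [hD]; positivity
    have b1' : ‖J (A' (W v))‖ ≤ D * l := by
      refine b1.trans (le_of_eq ?_)
      have : l ^ (((j + 1 : ℕ) : ℝ) + β) = l ^ ((j : ℝ) + β) * l := by
        rw [← Real.rpow_add_one hl0.ne']
        congr 1; push_cast; ring
      rw [this, hD]; ring
    calc ‖J (A (W v))‖ ≤ C * ‖J (W v)‖ ^ (1 - θ) * ‖J (A' (W v))‖ ^ θ := hm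
      _ ≤ C * D ^ (1 - θ) * (D * l) ^ θ := by
          apply mul_le_mul
          · exact mul_le_mul_of_nonneg_left
              (Real.rpow_le_rpow (norm_nonneg _) b0 (by linarith)) hC
          · exact Real.rpow_le_rpow (norm_nonneg _) b1' hθ0.le
          · exact Real.rpow_nonneg (norm_nonneg _) _
          · exact mul_nonneg hC (Real.rpow_nonneg hD0 _)
      _ = C * K * l ^ (g + β) * ‖J v‖ := by
          rw [Real.mul_rpow hD0 hl0.le]
          have e1 : D ^ (1 - θ) * D ^ θ = D := by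
            rw [← Real.rpow_add' hD0 (by norm_num)]
            norm_num
          have e2 : l ^ (g + β) = l ^ ((j : ℝ) + β) * l ^ θ := by
            rw [← Real.rpow_add hl0]; congr 1; rw [hθ]; ring
          calc C * D ^ (1 - θ) * (D ^ θ * l ^ θ) = C * (D ^ (1 - θ) * D ^ θ) * l ^ θ := by ring
            _ = C * D * l ^ θ := by rw [e1]
            _ = _ := by rw [e2, hD]; ring

/-- TARGET -/
theorem m_mult (h1 : S_fc.{u}) (h2 : S_mom.{u}) : S_mult.{u} := by
  intro M g hg0 hgM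
  obtain ⟨Ca, hCa, ha⟩ := mD_interp h1 h2 M g hg0 hgM
  obtain ⟨Cb, hCb, hb⟩ := mD_interp h1 h2 M (M - g) (by linarith) (by linarith)
  set Qa : ℝ := ∑ i ∈ Finset.range M, (2 : ℝ) ^ i with hQa
  set Qb : ℝ := (∑ i ∈ Finset.range M, (1 : ℝ) ^ i) ^ M with hQb
  have hQa0 : 0 ≤ Qa := Finset.sum_nonneg fun _ _ => by positivity
  have hQb0 : 0 ≤ Qb := by rw [hQb]; positivity
  refine ⟨Ca * 2 ^ M * Qa + Cb * 2 ^ M * Qb, by positivity, ?_⟩
  intro V _ _ L hL F _ _ J hJ l hl T
  have hl0 : 0 < l := by linarith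
  obtain ⟨R, hR, bR, bX, bY⟩ := mD_res h1 V L hL F J hJ l hl
  have hX : FC L (fun c => l * (l + 1 + c)⁻¹) ((l : ℂ) • R) := mD_smul l hR
  have hY : FC L (fun c => 1 - l * (l + 1 + c)⁻¹) (1 - (l : ℂ) • R) := mD_sub mD_one hX
  set X := (l : ℂ) • R with hXd
  set Y := 1 - X with hYd
  constructor
  · intro hT v
    -- the operator with symbol (1+c)^g x^M
    obtain ⟨W, hW⟩ := (h1 V L hL).1 (fun c => (1 + c) ^ g * (l * (l + 1 + c)⁻¹) ^ M)
    have hQ : FC L (fun c => ∑ i ∈ Finset.range M, (1 - (l * (l + 1 + c)⁻¹) ^ M) ^ i)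
        (∑ i ∈ Finset.range M, (1 - X ^ M) ^ i) :=
      mD_sum M fun i => mD_pow (mD_sub mD_one (mD_pow hX M)) i
    have hTW : T = W * ∑ i ∈ Finset.range M, (1 - X ^ M) ^ i := by
      refine (h1 V L hL).2 _ _ _ _ hT (mD_mul hW hQ) ?_
      intro c hc
      have hx : l / (l + 1 + c) = l * (l + 1 + c)⁻¹ := div_eq_mul_inv _ _
      have hgeo := mul_neg_geom_sum (1 - (l * (l + 1 + c)⁻¹) ^ M) M
      rw [sub_sub_cancel] at hgeo
      rw [sg, hx, mul_assoc, hgeo]
    have bQ : mD_BD J Qa (∑ i ∈ Finset.range M, (1 - X ^ M) ^ i) := by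
      apply mD_bsum
      intro i
      apply mD_bpow _ (by norm_num)
      have h3 := mD_bpow bX (by norm_num) M
      rw [one_pow] at h3
      have h4 := mD_bsub (mD_bone (J := J)) h3
      norm_num at h4
      exact h4
    have bW := ha V L hL F J hJ 0 (2 ^ M) l hl (by positivity)
      (fun c => (l * (l + 1 + c)⁻¹) ^ M) (by
        intro j hj T' hT'
        have e : T' = ((l ^ j : ℝ) : ℂ) • (Y ^ j * X ^ (M - j)) := by
          refine (h1 V L hL).2 _ _ _ _ hT' (mD_smul (l ^ j) (mD_mul (mD_pow hY j)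
            (mD_pow hX (M - j)))) ?_
          intro c hc
          have hne : l + 1 + c ≠ 0 := by positivity
          have hy : 1 - l * (l + 1 + c)⁻¹ = (1 + c) * (l + 1 + c)⁻¹ := by
            field_simp; ring
          have hp : (l * (l + 1 + c)⁻¹) ^ M = (l * (l + 1 + c)⁻¹) ^ j *
              (l * (l + 1 + c)⁻¹) ^ (M - j) := by
            rw [← pow_add]; congr 1; omega
          rw [hy, hp, mul_pow l _ j, mul_pow (1 + c) _ j]
          ring
        have b := mD_bsmul (l ^ j) (by positivity) (mD_bmul (mD_bpow bY (by norm_num) j)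
          (mD_bpow bX (by norm_num) (M - j)) (by positivity))
        rw [e]
        intro v
        refine (b v).trans ?_
        apply mul_le_mul_of_nonneg_right _ (norm_nonneg _)
        rw [one_pow, mul_one, add_zero, Real.rpow_natCast, mul_comm]
        apply mul_le_mul_of_nonneg_right _ (by positivity)
        exact pow_le_pow_right₀ (by norm_num) hj) W hW
    rw [hTW]
    have := mD_bmul bW bQ (by positivity) v
    refine this.trans ?_
    apply mul_le_mul_of_nonneg_right _ (norm_nonneg _)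
    rw [add_zero, add_mul]
    have h5 : 0 ≤ Cb * 2 ^ M * Qb * l ^ g := by positivity
    linarith
  · intro hT v
    obtain ⟨W, hW⟩ := (h1 V L hL).1 (fun c => (1 + c) ^ ((M : ℝ) - g) * ((l + 1 + c)⁻¹) ^ M)
    have hQ : FC L (fun c => (∑ i ∈ Finset.range M, (l * (l + 1 + c)⁻¹) ^ i) ^ M)
        ((∑ i ∈ Finset.range M, X ^ i) ^ M) :=
      mD_pow (mD_sum M fun i => mD_pow hX i) M
    have hTW : T = W * (∑ i ∈ Finset.range M, X ^ i) ^ M := by
      refine (h1 V L hL).2 _ _ _ _ hT (mD_mul hW hQ) ?_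
      intro c hc
      have hne : l + 1 + c ≠ 0 := by positivity
      have hc0 : (0 : ℝ) < 1 + c := by linarith
      have hx : l / (l + 1 + c) = l * (l + 1 + c)⁻¹ := div_eq_mul_inv _ _
      have hgeo := mul_neg_geom_sum (l * (l + 1 + c)⁻¹) M
      have hy : 1 - l * (l + 1 + c)⁻¹ = (1 + c) * (l + 1 + c)⁻¹ := by
        field_simp; ring
      have hp : (1 + c) ^ ((M : ℝ) - g) = (1 + c) ^ (-g) * (1 + c) ^ M := by
        rw [← Real.rpow_natCast (1 + c) M, ← Real.rpow_add hc0]; congr 1; ring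
      rw [sg, hx, sub_sub_cancel, ← hgeo, hy, hp, mul_pow, mul_pow]
      ring
    have bQ : mD_BD J Qb ((∑ i ∈ Finset.range M, X ^ i) ^ M) := by
      apply mD_bpow _ (by positivity)
      apply mD_bsum
      intro i
      exact mD_bpow bX (by norm_num) i
    have bW := hb V L hL F J hJ (-M) (2 ^ M) l hl (by positivity)
      (fun c => ((l + 1 + c)⁻¹) ^ M) (by
        intro j hj T' hT'
        have e : T' = Y ^ j * R ^ (M - j) := by
          refine (h1 V L hL).2 _ _ _ _ hT' (mD_mul (mD_pow hY j) (mD_pow hR (M - j))) ?_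
          intro c hc
          have hne : l + 1 + c ≠ 0 := by positivity
          have hy : 1 - l * (l + 1 + c)⁻¹ = (1 + c) * (l + 1 + c)⁻¹ := by
            field_simp; ring
          have hp : ((l + 1 + c)⁻¹) ^ M = ((l + 1 + c)⁻¹) ^ j * ((l + 1 + c)⁻¹) ^ (M - j) := by
            rw [← pow_add]; congr 1; omega
          rw [hy, hp, mul_pow]
          ring
        have b := mD_bmul (mD_bpow bY (by norm_num) j) (mD_bpow bR (by positivity) (M - j))
          (by positivity)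
        rw [e]
        intro v
        refine (b v).trans ?_
        apply mul_le_mul_of_nonneg_right _ (norm_nonneg _)
        have e3 : l ^ ((j : ℝ) + -(M : ℝ)) = (l⁻¹) ^ (M - j) := by
          rw [inv_pow, ← Real.rpow_natCast, ← Real.rpow_neg hl0.le]
          congr 1
          rw [Nat.cast_sub hj]; ring
        rw [e3]
        apply mul_le_mul_of_nonneg_right _ (by positivity)
        exact pow_le_pow_right₀ (by norm_num) hj) W hW
    rw [hTW]
    have := mD_bmul bW bQ (by positivity) v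
    refine this.trans ?_
    apply mul_le_mul_of_nonneg_right _ (norm_nonneg _)
    have e4 : (M : ℝ) - g + -(M : ℝ) = -g := by ring
    rw [e4, add_mul]
    have h5 : 0 ≤ Ca * 2 ^ M * Qa * l ^ (-g) := by positivity
    linarith

end Pool.Agent.H913.AV
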