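import Pool.Agent.H913.AV.Stmts

/-! M5: bounds for differences of multipliers (for the Sobolev averaging map). -/

open MeasureTheory Matrix NormedSpace Filter Topology
open scoped Matrix

universe u

namespace Pool.Agent.H913.AV

open Pool.Agent.H913.SG

/-! Proof. By h1 all functions of L exist as operators and are determined by their values on [0,∞); FC is additive and multiplicative. If g ≥ 0: (1+c)^g (sg M (4l) c - sg M l c) is a difference of two symbols bounded by h3 (first part, with 4l and l): C ((4l)^g + l^g). If g < 0: it equals (1+c)^g (1 - sg M l c) - (1+c)^g (1 - sg M (4l) c), use the second part of h3 with -g. Last claim: for g ≥ 0 the first part of h3 with l = 1; for g < 0: (1+c)^g sg M 1 c is the product of (1+c)^(-(-g)) (a contraction by h2) and sg M 1 c = (1+c)^0 sg M 1 c (h3 with g = 0). -/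


section MEaux

variable {V : Type u} [AddCommGroup V] [Module ℂ V]

theorem mE_fc_sub {L : Module.End ℂ V} {φ ψ : ℝ → ℝ} {A B : Module.End ℂ V}
    (hA : FC L φ A) (hB : FC L ψ B) : FC L (fun c => φ c - ψ c) (A - B) := by
  intro c v hv
  rw [LinearMap.sub_apply, hA c v hv, hB c v hv, ← sub_smul]
  push_cast
  rfl

theorem mE_fc_mul {L : Module.End ℂ V} {φ ψ : ℝ → ℝ} {A B : Module.End ℂ V}
    (hA : FC L φ A) (hB : FC L ψ B) : FC L (fun c => φ c * ψ c) (A * B) := by
  intro c v hv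
  rw [Module.End.mul_apply, hB c v hv, map_smul, hA c v hv, smul_smul]
  congr 1
  push_cast
  ring

end MEaux

/-- TARGET -/
theorem m_mult2 (h1 : S_fc.{u}) (h2 : S_neg.{u}) (h3 : S_mult.{u}) : S_mult2.{u} := by
  intro M g hg1 hg2
  rcases le_or_gt 0 g with hg | hg
  · obtain ⟨C, hC, hb⟩ := h3 M g hg hg2
    have h4 : (0 : ℝ) ≤ (4 : ℝ) ^ g := by positivity
    refine ⟨C * (4 ^ g + 1), by positivity, ?_⟩
    intro V _ _ L hL F _ _ J hJ T
    obtain ⟨hex, hun⟩ := h1 V L hL
    refine ⟨?_, ?_⟩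
    · intro l hl hT v
      obtain ⟨T1, hT1⟩ := hex (fun c => (1 + c) ^ g * sg M (4 * l) c)
      obtain ⟨T2, hT2⟩ := hex (fun c => (1 + c) ^ g * sg M l c)
      have hTe : T = T1 - T2 := by
        refine hun _ _ _ _ hT (mE_fc_sub hT1 hT2) ?_
        intro c _
        show (1 + c) ^ g * (sg M (4 * l) c - sg M l c)
          = (1 + c) ^ g * sg M (4 * l) c - (1 + c) ^ g * sg M l c
        ring
      have hb1 := (hb V L hL F J hJ (4 * l) (by linarith) T1).1 hT1 v
      have hb2 := (hb V L hL F J hJ l hl T2).1 hT2 v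
      have e1 : (4 * l) ^ g = 4 ^ g * l ^ g := Real.mul_rpow (by norm_num) (by linarith)
      rw [hTe, LinearMap.sub_apply, map_sub]
      calc ‖J (T1 v) - J (T2 v)‖ ≤ ‖J (T1 v)‖ + ‖J (T2 v)‖ := norm_sub_le _ _
        _ ≤ C * (4 * l) ^ g * ‖J v‖ + C * l ^ g * ‖J v‖ := add_le_add hb1 hb2
        _ = C * (4 ^ g + 1) * l ^ g * ‖J v‖ := by rw [e1]; ring
    · intro hT v
      have hb1 := (hb V L hL F J hJ 1 le_rfl T).1 hT v
      rw [Real.one_rpow, mul_one] at hb1
      refine hb1.trans ?_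
      refine mul_le_mul_of_nonneg_right ?_ (norm_nonneg _)
      nlinarith [mul_nonneg hC h4]
  · obtain ⟨C, hC, hb⟩ := h3 M (-g) (by linarith) (by linarith)
    obtain ⟨C', hC', hb'⟩ := h3 M 0 le_rfl (Nat.cast_nonneg M)
    have h4 : (0 : ℝ) ≤ (4 : ℝ) ^ g := by positivity
    refine ⟨C * (4 ^ g + 1) + C', by positivity, ?_⟩
    intro V _ _ L hL F _ _ J hJ T
    obtain ⟨hex, hun⟩ := h1 V L hL
    refine ⟨?_, ?_⟩
    · intro l hl hT v
      obtain ⟨T1, hT1⟩ := hex (fun c => (1 + c) ^ (-(-g)) * (1 - sg M l c))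
      obtain ⟨T2, hT2⟩ := hex (fun c => (1 + c) ^ (-(-g)) * (1 - sg M (4 * l) c))
      have hTe : T = T1 - T2 := by
        refine hun _ _ _ _ hT (mE_fc_sub hT1 hT2) ?_
        intro c _
        show (1 + c) ^ g * (sg M (4 * l) c - sg M l c)
          = (1 + c) ^ (-(-g)) * (1 - sg M l c) - (1 + c) ^ (-(-g)) * (1 - sg M (4 * l) c)
        rw [neg_neg]
        ring
      have hb1 := (hb V L hL F J hJ l hl T1).2 hT1 v
      have hb2 := (hb V L hL F J hJ (4 * l) (by linarith) T2).2 hT2 v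
      rw [neg_neg] at hb1 hb2
      have e1 : (4 * l) ^ g = 4 ^ g * l ^ g := Real.mul_rpow (by norm_num) (by linarith)
      have hlg : 0 ≤ l ^ g := Real.rpow_nonneg (by linarith) g
      rw [hTe, LinearMap.sub_apply, map_sub]
      calc ‖J (T1 v) - J (T2 v)‖ ≤ ‖J (T1 v)‖ + ‖J (T2 v)‖ := norm_sub_le _ _
        _ ≤ C * l ^ g * ‖J v‖ + C * (4 * l) ^ g * ‖J v‖ := add_le_add hb1 hb2
        _ = C * (4 ^ g + 1) * l ^ g * ‖J v‖ := by rw [e1]; ring
        _ ≤ (C * (4 ^ g + 1) + C') * l ^ g * ‖J v‖ := by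
            have : 0 ≤ C' * l ^ g * ‖J v‖ := by positivity
            nlinarith
    · intro hT v
      obtain ⟨A, hA⟩ := hex (fun c => (1 + c) ^ (-(-g)))
      obtain ⟨B, hB⟩ := hex (fun c => (1 + c) ^ (0 : ℝ) * sg M 1 c)
      have hTe : T = A * B := by
        refine hun _ _ _ _ hT (mE_fc_mul hA hB) ?_
        intro c _
        show (1 + c) ^ g * sg M 1 c = (1 + c) ^ (-(-g)) * ((1 + c) ^ (0 : ℝ) * sg M 1 c)
        rw [neg_neg, Real.rpow_zero, one_mul]
      have hb1 := (hb' V L hL F J hJ 1 le_rfl B).1 hB v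
      have hb2 := h2 V L hL F J hJ (-g) (by linarith) A hA (B v)
      rw [Real.one_rpow, mul_one] at hb1
      rw [hTe, Module.End.mul_apply]
      refine (hb2.trans hb1).trans ?_
      refine mul_le_mul_of_nonneg_right ?_ (norm_nonneg _)
      nlinarith [mul_nonneg hC h4]


end Pool.Agent.H913.AV
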