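import Pool.Agent.H913.AV.Stmts

open MeasureTheory Matrix NormedSpace Filter Topology
open scoped Matrix

universe u

namespace Pool.Agent.H913.AV

open Pool.Agent.H913.SG

theorem mF_mul {V : Type u} [AddCommGroup V] [Module ℂ V] {L : Module.End ℂ V} {φ ψ : ℝ → ℝ}
    {T T' : Module.End ℂ V} (h : FC L φ T) (h' : FC L ψ T') :
    FC L (fun c => φ c * ψ c) (T * T') := by
  intro c v hv
  rw [Module.End.mul_apply, h' c v hv, map_smul, h c v hv, smul_smul]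
  congr 1
  push_cast
  ring

theorem mF_one_sub {V : Type u} [AddCommGroup V] [Module ℂ V] {L : Module.End ℂ V} {φ : ℝ → ℝ}
    {T : Module.End ℂ V} (h : FC L φ T) : FC L (fun c => 1 - φ c) (1 - T) := by
  intro c v hv
  rw [LinearMap.sub_apply, Module.End.one_apply, h c v hv]
  push_cast
  rw [sub_smul, one_smul]

theorem mF_pow (i : ℕ) (x : ℝ) : ((4 : ℝ) ^ i) ^ (x / 2) = ((2 : ℝ) ^ i) ^ x := by
  have h : (4 : ℝ) ^ i = ((2 : ℝ) ^ i) ^ (2 : ℝ) := by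
    rw [Real.rpow_two, ← pow_mul, mul_comm, pow_mul]
    norm_num
  rw [h, ← Real.rpow_mul (by positivity)]
  congr 1
  ring

/-- TARGET -/
theorem m_int2 (h1 : S_fc.{u}) (h2 : S_mult.{u}) : S_int2.{u} := by
  intro s1 δ hδ hs V _ _ L hL Fp Fq _ _ _ _ Jp Jq hJp hJq T1 T2 hT1 hT2 C0 hC0
  obtain ⟨M, hM⟩ := exists_nat_ge s1
  obtain ⟨C1, hC1, H1⟩ := h2 M (δ / 2) (by linarith) (by linarith)
  obtain ⟨C2, hC2, H2⟩ := h2 M ((s1 - δ) / 2) (by linarith) (by linarith)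
  obtain ⟨ex, un⟩ := h1 V L hL
  refine ⟨C2 + |C0| * C1, by positivity, ?_⟩
  intro i v
  have hl : (1 : ℝ) ≤ (4 : ℝ) ^ i := one_le_pow₀ (by norm_num)
  obtain ⟨S, hS⟩ := ex (fun c => sg M ((4 : ℝ) ^ i) c)
  obtain ⟨A, hA⟩ := ex (fun c => (1 + c) ^ (δ / 2) * sg M ((4 : ℝ) ^ i) c)
  obtain ⟨B, hB⟩ := ex (fun c => (1 + c) ^ (-((s1 - δ) / 2)) * (1 - sg M ((4 : ℝ) ^ i) c))
  have e1 : T1 * S = A * T2 := by
    refine un _ _ _ _ (mF_mul hT1 hS) (mF_mul hA hT2) ?_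
    intro c hc
    have h0 : (0 : ℝ) < 1 + c := by linarith
    have e : (1 + c) ^ (s1 / 2) = (1 + c) ^ (δ / 2) * (1 + c) ^ ((s1 - δ) / 2) := by
      rw [← Real.rpow_add h0]
      congr 1
      ring
    simp only [e]
    ring
  have e2 : 1 - S = B * T2 := by
    refine un _ _ _ _ (mF_one_sub hS) (mF_mul hB hT2) ?_
    intro c hc
    have h0 : (0 : ℝ) < 1 + c := by linarith
    have e : (1 + c) ^ (-((s1 - δ) / 2)) * (1 + c) ^ ((s1 - δ) / 2) = 1 := by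
      rw [← Real.rpow_add h0]
      simp
    calc 1 - sg M ((4 : ℝ) ^ i) c = (1 - sg M ((4 : ℝ) ^ i) c) * 1 := by ring
      _ = (1 - sg M ((4 : ℝ) ^ i) c) *
          ((1 + c) ^ (-((s1 - δ) / 2)) * (1 + c) ^ ((s1 - δ) / 2)) := by rw [e]
      _ = _ := by ring
  have b1 := (H1 V L hL Fp Jp hJp ((4 : ℝ) ^ i) hl A).1 hA (T2 v)
  have b2 := (H2 V L hL Fp Jp hJp ((4 : ℝ) ^ i) hl B).2 hB (T2 v)
  refine ⟨v - S v, ?_⟩
  have e3 : v - (v - S v) = S v := by abel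
  have e4 : v - S v = B (T2 v) := by
    have := congrArg (fun T : Module.End ℂ V => T v) e2
    simpa using this
  have e5 : T1 (S v) = A (T2 v) := by
    have := congrArg (fun T : Module.End ℂ V => T v) e1
    simpa using this
  rw [e3, e4]
  have c1 : ‖Jq (S v)‖ ≤ |C0| * C1 * ((2 : ℝ) ^ i) ^ δ * ‖Jp (T2 v)‖ := by
    have k1 := hC0 (S v)
    rw [e5] at k1
    rw [mF_pow] at b1
    calc ‖Jq (S v)‖ ≤ C0 * ‖Jp (A (T2 v))‖ := k1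
      _ ≤ |C0| * ‖Jp (A (T2 v))‖ := mul_le_mul_of_nonneg_right (le_abs_self _) (norm_nonneg _)
      _ ≤ |C0| * (C1 * ((2 : ℝ) ^ i) ^ δ * ‖Jp (T2 v)‖) :=
          mul_le_mul_of_nonneg_left b1 (abs_nonneg _)
      _ = _ := by ring
  have c2 : ((2 : ℝ) ^ i) ^ s1 * ‖Jp (B (T2 v))‖ ≤ C2 * ((2 : ℝ) ^ i) ^ δ * ‖Jp (T2 v)‖ := by
    have k0 : ((4 : ℝ) ^ i) ^ (-((s1 - δ) / 2)) = ((2 : ℝ) ^ i) ^ (-(s1 - δ)) := by
      rw [← mF_pow]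
      congr 1
      ring
    rw [k0] at b2
    have k2 : ((2 : ℝ) ^ i) ^ s1 * ((2 : ℝ) ^ i) ^ (-(s1 - δ)) = ((2 : ℝ) ^ i) ^ δ := by
      rw [← Real.rpow_add (by positivity)]
      congr 1
      ring
    have k3 : 0 ≤ ((2 : ℝ) ^ i) ^ s1 := by positivity
    calc _ ≤ ((2 : ℝ) ^ i) ^ s1 * (C2 * ((2 : ℝ) ^ i) ^ (-(s1 - δ)) * ‖Jp (T2 v)‖) :=
          mul_le_mul_of_nonneg_left b2 k3
      _ = C2 * (((2 : ℝ) ^ i) ^ s1 * ((2 : ℝ) ^ i) ^ (-(s1 - δ))) * ‖Jp (T2 v)‖ := by ring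
      _ = _ := by rw [k2]
  calc _ ≤ C2 * ((2 : ℝ) ^ i) ^ δ * ‖Jp (T2 v)‖ + |C0| * C1 * ((2 : ℝ) ^ i) ^ δ * ‖Jp (T2 v)‖ :=
        add_le_add c2 c1
    _ = _ := by ring

end Pool.Agent.H913.AV
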