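import Pool.Agent.H913.AV.Stmts

/-! Averaged Sobolev norms: bounds from decompositions (M7). -/

open MeasureTheory Matrix NormedSpace Filter Topology
open scoped Matrix

universe u

namespace Pool.Agent.H913.AV

open Pool.Agent.H913.SG

section

variable {V : Type u} [AddCommGroup V] [Module ℂ V]

theorem mG_fc_mul {L T T' : Module.End ℂ V} {φ ψ : ℝ → ℝ} (h : FC L φ T) (h' : FC L ψ T') :
    FC L (fun c => ψ c * φ c) (T' * T) := by
  intro c v hv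
  rw [Module.End.mul_apply, h c v hv, map_smul, h' c v hv, smul_smul]
  push_cast
  rw [mul_comm]

theorem mG_fc_sub {L T T' : Module.End ℂ V} {φ ψ : ℝ → ℝ} (h : FC L φ T) (h' : FC L ψ T') :
    FC L (fun c => φ c - ψ c) (T - T') := by
  intro c v hv
  rw [LinearMap.sub_apply, h c v hv, h' c v hv, ← sub_smul]
  push_cast
  rfl

theorem mG_fc_congr {L T : Module.End ℂ V} (hL : Diag L) {φ ψ : ℝ → ℝ} (h : FC L φ T)
    (e : ∀ c, 0 ≤ c → ψ c = φ c) : FC L ψ T := by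
  intro c v hv
  by_cases h0 : v = 0
  · simp [h0]
  · rw [e c (hL.1 c v h0 hv)]
    exact h c v hv

end

theorem mG_sg_tendsto (M : ℕ) (hM : M ≠ 0) (c : ℝ) :
    Tendsto (fun I : ℕ => sg M ((4 : ℝ) ^ I) c) atTop (𝓝 1) := by
  have h1 : Tendsto (fun I : ℕ => (4 : ℝ) ^ I) atTop atTop :=
    tendsto_pow_atTop_atTop_of_one_lt (by norm_num)
  have h2 : Tendsto (fun I : ℕ => (4 : ℝ) ^ I + 1 + c) atTop atTop :=
    tendsto_atTop_add_const_right _ _ (tendsto_atTop_add_const_right _ _ h1)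
  have h3 : Tendsto (fun I : ℕ => (1 + c) / ((4 : ℝ) ^ I + 1 + c)) atTop (𝓝 0) :=
    Tendsto.div_atTop tendsto_const_nhds h2
  have h4 : Tendsto (fun I : ℕ => (4 : ℝ) ^ I / ((4 : ℝ) ^ I + 1 + c)) atTop (𝓝 1) := by
    have h5 : Tendsto (fun I : ℕ => 1 - (1 + c) / ((4 : ℝ) ^ I + 1 + c)) atTop (𝓝 (1 - 0)) :=
      tendsto_const_nhds.sub h3
    rw [sub_zero] at h5
    refine h5.congr' ?_
    filter_upwards [h2.eventually_gt_atTop 0] with I hI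
    field_simp
    ring
  have h6 : Tendsto (fun I : ℕ => 1 - (1 - ((4 : ℝ) ^ I / ((4 : ℝ) ^ I + 1 + c)) ^ M) ^ M) atTop
      (𝓝 (1 - (1 - (1 : ℝ) ^ M) ^ M)) :=
    tendsto_const_nhds.sub ((tendsto_const_nhds.sub (h4.pow M)).pow M)
  simpa [sg, hM] using h6

theorem mG_pow4 (i : ℕ) (r : ℝ) : ((4 : ℝ) ^ i) ^ r = ((2 : ℝ) ^ i) ^ (2 * r) := by
  have h : (4 : ℝ) ^ i = ((2 : ℝ) ^ i) ^ (2 : ℝ) := by
    rw [show (4 : ℝ) = 2 ^ 2 by norm_num, ← pow_mul, mul_comm, pow_mul]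
    exact (Real.rpow_two _).symm
  rw [h, ← Real.rpow_mul (by positivity)]

theorem mG_pow2 (i : ℕ) (r : ℝ) : ((2 : ℝ) ^ i) ^ r = ((2 : ℝ) ^ r) ^ i := by
  rw [← Real.rpow_natCast, ← Real.rpow_mul (by norm_num), mul_comm,
    Real.rpow_mul (by norm_num), Real.rpow_natCast]

/-- TARGET -/
theorem m_int3 (h1 : S_fc.{u}) (h2 : S_mult2.{u}) : S_int3.{u} := by
  intro s1 δ e hδ hδs he V _ _ L hL Fp Fq _ _ _ _ Jp Jq hp hq T1 T3 hT1 hT3 C0 hC0
  obtain ⟨M, hM⟩ := exists_nat_ge (s1 + δ + e + 1)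
  have hM0 : M ≠ 0 := by
    rintro rfl
    simp at hM
    linarith
  obtain ⟨C1, hC1, B1⟩ := h2 M (-((δ + e) / 2)) (by linarith) (by linarith)
  obtain ⟨C2, hC2, B2⟩ := h2 M (s1 / 2 - (δ + e) / 2) (by linarith) (by linarith)
  have ex : ∀ i : ℕ, ∃ T, FC L (fun c => sg M ((4 : ℝ) ^ i) c) T := fun i =>
    (h1 V L hL).1 _
  choose S hS using ex
  set ρ : ℝ := (2 : ℝ) ^ (-e) with hρ
  have hρ0 : 0 ≤ ρ := by positivity
  have hρ1 : ρ < 1 := Real.rpow_lt_one_of_one_lt_of_neg (by norm_num) (by linarith)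
  have hK0 : 0 ≤ C1 + |C0| * C2 := by positivity
  refine ⟨(C1 + |C0| * C2) + (C1 + |C0| * C2) * (1 - ρ)⁻¹, ?_, ?_⟩
  · have : 0 ≤ (1 - ρ)⁻¹ := inv_nonneg.mpr (by linarith)
    positivity
  intro y N hN hdec
  -- the symbols
  have hD : ∀ i : ℕ, FC L (fun c => (1 + c) ^ (-((δ + e) / 2)) *
      (sg M (4 * (4 : ℝ) ^ i) c - sg M ((4 : ℝ) ^ i) c)) ((S (i + 1) - S i) * T3) := fun i =>
    mG_fc_congr hL (mG_fc_mul hT3 (mG_fc_sub (hS (i + 1)) (hS i))) (fun c _ => by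
      rw [pow_succ' (4 : ℝ) i]; ring)
  have hD' : ∀ i : ℕ, FC L (fun c => (1 + c) ^ (s1 / 2 - (δ + e) / 2) *
      (sg M (4 * (4 : ℝ) ^ i) c - sg M ((4 : ℝ) ^ i) c)) (T1 * ((S (i + 1) - S i) * T3)) :=
    fun i => mG_fc_congr hL (mG_fc_mul (hD i) hT1) (fun c hc => by
      rw [sub_eq_add_neg (s1 / 2), Real.rpow_add (by linarith)]; ring)
  have hZ : FC L (fun c => (1 + c) ^ (-((δ + e) / 2)) * sg M 1 c) (S 0 * T3) :=
    mG_fc_congr hL (mG_fc_mul hT3 (hS 0)) (fun c _ => by rw [pow_zero]; ring)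
  have hZ' : FC L (fun c => (1 + c) ^ (s1 / 2 - (δ + e) / 2) * sg M 1 c) (T1 * (S 0 * T3)) :=
    mG_fc_congr hL (mG_fc_mul hZ hT1) (fun c hc => by
      rw [sub_eq_add_neg (s1 / 2), Real.rpow_add (by linarith)]; ring)
  have hC0' : ∀ v, ‖Jq v‖ ≤ |C0| * ‖Jp (T1 v)‖ := fun v =>
    (hC0 v).trans (mul_le_mul_of_nonneg_right (le_abs_self _) (norm_nonneg _))
  -- the bounds
  have bD : ∀ i : ℕ, ‖Jq ((S (i + 1) - S i) (T3 y))‖ ≤ (C1 + |C0| * C2) * N * ρ ^ i := by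
    intro i
    obtain ⟨a, ha⟩ := hdec i
    have hx : (0 : ℝ) < (2 : ℝ) ^ i := by positivity
    have n1 : 0 ≤ ((2 : ℝ) ^ i) ^ s1 * ‖Jp a‖ := by positivity
    have n2 : 0 ≤ ‖Jq (y - a)‖ := norm_nonneg _
    have a1 : ((2 : ℝ) ^ i) ^ s1 * ‖Jp a‖ ≤ ((2 : ℝ) ^ i) ^ δ * N := by linarith
    have a2 : ‖Jq (y - a)‖ ≤ ((2 : ℝ) ^ i) ^ δ * N := by linarith
    have l1 : (1 : ℝ) ≤ (4 : ℝ) ^ i := one_le_pow₀ (by norm_num)
    have e1 := (B1 V L hL Fq Jq hq _).1 _ l1 (hD i) (y - a)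
    have e2 := (B2 V L hL Fp Jp hp _).1 _ l1 (hD' i) a
    have e3 := hC0' (((S (i + 1) - S i) * T3) a)
    have p1 : ((4 : ℝ) ^ i) ^ (-((δ + e) / 2)) * ((2 : ℝ) ^ i) ^ δ = ρ ^ i := by
      rw [mG_pow4, ← Real.rpow_add hx, hρ, ← mG_pow2]
      congr 1
      ring
    have p2 : ((4 : ℝ) ^ i) ^ (s1 / 2 - (δ + e) / 2) =
        ((4 : ℝ) ^ i) ^ (-((δ + e) / 2)) * ((2 : ℝ) ^ i) ^ s1 := by
      rw [mG_pow4, mG_pow4, ← Real.rpow_add hx]
      congr 1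
      ring
    have q0 : 0 ≤ ((4 : ℝ) ^ i) ^ (-((δ + e) / 2)) := by positivity
    have f1 : ‖Jq (((S (i + 1) - S i) * T3) (y - a))‖ ≤ C1 * N * ρ ^ i := by
      calc _ ≤ C1 * ((4 : ℝ) ^ i) ^ (-((δ + e) / 2)) * ‖Jq (y - a)‖ := e1
        _ ≤ C1 * ((4 : ℝ) ^ i) ^ (-((δ + e) / 2)) * (((2 : ℝ) ^ i) ^ δ * N) :=
            mul_le_mul_of_nonneg_left a2 (by positivity)
        _ = C1 * N * (((4 : ℝ) ^ i) ^ (-((δ + e) / 2)) * ((2 : ℝ) ^ i) ^ δ) := by ring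
        _ = C1 * N * ρ ^ i := by rw [p1]
    have f2 : ‖Jq (((S (i + 1) - S i) * T3) a)‖ ≤ |C0| * C2 * N * ρ ^ i := by
      calc _ ≤ |C0| * ‖Jp ((T1 * ((S (i + 1) - S i) * T3)) a)‖ := e3
        _ ≤ |C0| * (C2 * ((4 : ℝ) ^ i) ^ (s1 / 2 - (δ + e) / 2) * ‖Jp a‖) :=
            mul_le_mul_of_nonneg_left e2 (abs_nonneg _)
        _ = |C0| * C2 * ((4 : ℝ) ^ i) ^ (-((δ + e) / 2)) * (((2 : ℝ) ^ i) ^ s1 * ‖Jp a‖) := by
            rw [p2]; ring
        _ ≤ |C0| * C2 * ((4 : ℝ) ^ i) ^ (-((δ + e) / 2)) * (((2 : ℝ) ^ i) ^ δ * N) :=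
            mul_le_mul_of_nonneg_left a1 (by positivity)
        _ = |C0| * C2 * N * (((4 : ℝ) ^ i) ^ (-((δ + e) / 2)) * ((2 : ℝ) ^ i) ^ δ) := by ring
        _ = |C0| * C2 * N * ρ ^ i := by rw [p1]
    have hy : (S (i + 1) - S i) (T3 y) =
        ((S (i + 1) - S i) * T3) (y - a) + ((S (i + 1) - S i) * T3) a := by
      rw [← map_add, sub_add_cancel]
      rfl
    rw [hy, map_add]
    refine (norm_add_le _ _).trans ?_
    calc _ ≤ C1 * N * ρ ^ i + |C0| * C2 * N * ρ ^ i := add_le_add f1 f2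
      _ = (C1 + |C0| * C2) * N * ρ ^ i := by ring
  have bZ : ‖Jq ((S 0) (T3 y))‖ ≤ (C1 + |C0| * C2) * N := by
    obtain ⟨a, ha⟩ := hdec 0
    simp only [pow_zero, Real.one_rpow, one_mul] at ha
    have n1 : 0 ≤ ‖Jp a‖ := norm_nonneg _
    have n2 : 0 ≤ ‖Jq (y - a)‖ := norm_nonneg _
    have e1 := (B1 V L hL Fq Jq hq _).2 hZ (y - a)
    have e2 := (B2 V L hL Fp Jp hp _).2 hZ' a
    have e3 := hC0' ((S 0 * T3) a)
    have f1 : ‖Jq ((S 0 * T3) (y - a))‖ ≤ C1 * N :=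
      e1.trans (mul_le_mul_of_nonneg_left (by linarith) hC1)
    have f2 : ‖Jq ((S 0 * T3) a)‖ ≤ |C0| * (C2 * N) :=
      e3.trans (mul_le_mul_of_nonneg_left
        (e2.trans (mul_le_mul_of_nonneg_left (by linarith) hC2)) (abs_nonneg _))
    have hy : (S 0) (T3 y) = (S 0 * T3) (y - a) + (S 0 * T3) a := by
      rw [← map_add, sub_add_cancel]
      rfl
    rw [hy, map_add]
    refine (norm_add_le _ _).trans ?_
    calc _ ≤ C1 * N + |C0| * (C2 * N) := add_le_add f1 f2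
      _ = (C1 + |C0| * C2) * N := by ring
  have tel : ∀ I : ℕ, T3 y = (T3 y - S I (T3 y)) + (S 0 (T3 y) +
      ∑ i ∈ Finset.range I, (S (i + 1) - S i) (T3 y)) := by
    intro I
    have : ∑ i ∈ Finset.range I, (S (i + 1) - S i) (T3 y) = S I (T3 y) - S 0 (T3 y) := by
      simp only [LinearMap.sub_apply]
      exact Finset.sum_range_sub (fun i => S i (T3 y)) I
    rw [this]
    abel
  have hfin : ∀ I : ℕ, ‖Jq (T3 y)‖ ≤ ‖Jq (T3 y - S I (T3 y))‖ +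
      ((C1 + |C0| * C2) + (C1 + |C0| * C2) * (1 - ρ)⁻¹) * N := by
    intro I
    have hs : ‖Jq (∑ i ∈ Finset.range I, (S (i + 1) - S i) (T3 y))‖ ≤
        (C1 + |C0| * C2) * (1 - ρ)⁻¹ * N := by
      rw [map_sum]
      refine (norm_sum_le _ _).trans ?_
      calc _ ≤ ∑ i ∈ Finset.range I, (C1 + |C0| * C2) * N * ρ ^ i :=
            Finset.sum_le_sum fun i _ => bD i
        _ = (C1 + |C0| * C2) * N * ∑ i ∈ Finset.range I, ρ ^ i := by rw [Finset.mul_sum]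
        _ ≤ (C1 + |C0| * C2) * N * (1 - ρ)⁻¹ := by
            refine mul_le_mul_of_nonneg_left ?_ (by positivity)
            rw [← tsum_geometric_of_lt_one hρ0 hρ1]
            exact (summable_geometric_of_lt_one hρ0 hρ1).sum_le_tsum _
              (fun i _ => pow_nonneg hρ0 i)
        _ = _ := by ring
    calc ‖Jq (T3 y)‖ = ‖Jq (T3 y - S I (T3 y)) + (Jq (S 0 (T3 y)) +
          Jq (∑ i ∈ Finset.range I, (S (i + 1) - S i) (T3 y)))‖ := by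
          rw [← map_add, ← map_add, ← tel I]
      _ ≤ ‖Jq (T3 y - S I (T3 y))‖ + (‖Jq (S 0 (T3 y))‖ +
          ‖Jq (∑ i ∈ Finset.range I, (S (i + 1) - S i) (T3 y))‖) :=
          (norm_add_le _ _).trans (add_le_add le_rfl (norm_add_le _ _))
      _ ≤ ‖Jq (T3 y - S I (T3 y))‖ + ((C1 + |C0| * C2) * N +
          (C1 + |C0| * C2) * (1 - ρ)⁻¹ * N) := by gcongr
      _ = _ := by ring
  -- the limit
  have hlim : Tendsto (fun I : ℕ => ‖Jq (T3 y - S I (T3 y))‖) atTop (𝓝 0) := by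
    obtain ⟨f, hf, hy⟩ := hL.2 y
    have key : ∀ I : ℕ, Jq (T3 y - S I (T3 y)) = ∑ c ∈ f.support,
        (((1 - sg M ((4 : ℝ) ^ I) c) * (1 + c) ^ (-((δ + e) / 2)) : ℝ) : ℂ) • Jq (f c) := by
      intro I
      rw [hy, Finsupp.sum]
      simp only [map_sum]
      rw [← Finset.sum_sub_distrib]
      simp only [map_sum]
      refine Finset.sum_congr rfl fun c _ => ?_
      rw [hT3 c _ (hf c), map_smul, hS I c _ (hf c), smul_smul, ← sub_smul, map_smul]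
      congr 1
      push_cast
      ring
    have t : Tendsto (fun I : ℕ => ∑ c ∈ f.support,
        (((1 - sg M ((4 : ℝ) ^ I) c) * (1 + c) ^ (-((δ + e) / 2)) : ℝ) : ℂ) • Jq (f c)) atTop
        (𝓝 (∑ c ∈ f.support, (0 : ℂ) • Jq (f c))) := by
      refine tendsto_finsetSum _ fun c _ => ?_
      refine Tendsto.smul_const ?_ _
      have t1 : Tendsto (fun I : ℕ => (1 - sg M ((4 : ℝ) ^ I) c) *
          (1 + c) ^ (-((δ + e) / 2))) atTop (𝓝 ((1 - 1) * (1 + c) ^ (-((δ + e) / 2)))) :=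
        (tendsto_const_nhds.sub (mG_sg_tendsto M hM0 c)).mul_const _
      rw [sub_self, zero_mul] at t1
      have t2 := (Complex.continuous_ofReal.tendsto 0).comp t1
      rw [Complex.ofReal_zero] at t2
      exact t2
    simp only [zero_smul, Finset.sum_const_zero] at t
    have t' := t.norm
    rw [norm_zero] at t'
    refine t'.congr fun I => ?_
    rw [key I]
  have hl := hlim.add_const
    (((C1 + |C0| * C2) + (C1 + |C0| * C2) * (1 - ρ)⁻¹) * N)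
  rw [zero_add] at hl
  exact ge_of_tendsto' hl hfin

end Pool.Agent.H913.AV
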