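import Pool.Agent.H913.AV.Stmts

open MeasureTheory Matrix NormedSpace Filter Topology
open scoped Matrix

universe u

namespace Pool.Agent.H913.AV

open Pool.Agent.H913.SG

/-- the cost of a decomposition -/
noncomputable def qA_cost {G : Type} [Group G] (w : G → ℝ) {E : Type u} [NormedAddCommGroup E] [NormedSpace ℂ E]
    (π : G →* (E →L[ℂ] E)) (P : Seminorm ℂ E) {m : ℕ} (g : Fin m → G) (u : Fin m → E) : ℝ :=
  ∑ i, w (g i)⁻¹ * P (π (g i) (u i))

/-- all costs of the decompositions of `x` -/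
def qA_set {G : Type} [Group G] (w : G → ℝ) {E : Type u} [NormedAddCommGroup E] [NormedSpace ℂ E]
    (π : G →* (E →L[ℂ] E)) (P : Seminorm ℂ E) (x : E) : Set ℝ :=
  {r : ℝ | ∃ (m : ℕ) (g : Fin m → G) (u : Fin m → E), x = ∑ i, u i ∧ r = qA_cost w π P g u}

section

variable {G : Type} [Group G] {w : G → ℝ} {E : Type u} [NormedAddCommGroup E] [NormedSpace ℂ E]
  {π : G →* (E →L[ℂ] E)} {P : Seminorm ℂ E}

theorem qA_cost_nonneg (hw : ∀ g, 0 < w g) {m : ℕ} (g : Fin m → G) (u : Fin m → E) :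
    0 ≤ qA_cost w π P g u :=
  Finset.sum_nonneg fun _ _ => mul_nonneg (hw _).le (apply_nonneg P _)

theorem qA_bdd (hw : ∀ g, 0 < w g) (x : E) : BddBelow (qA_set w π P x) := by
  refine ⟨0, ?_⟩
  rintro r ⟨m, g, u, -, rfl⟩
  exact qA_cost_nonneg hw g u

theorem qA_one (x : E) : w 1 * P x ∈ qA_set w π P x := by
  refine ⟨1, fun _ => 1, fun _ => x, by simp, ?_⟩
  unfold qA_cost
  simp

theorem qA_ne (x : E) : (qA_set w π P x).Nonempty := ⟨_, qA_one x⟩

theorem qA_le (hw : ∀ g, 0 < w g) {m : ℕ} (g : Fin m → G) (u : Fin m → E) {x : E} (hx : x = ∑ i, u i) :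
    sInf (qA_set w π P x) ≤ qA_cost w π P g u :=
  csInf_le (qA_bdd hw x) ⟨m, g, u, hx, rfl⟩

theorem qA_ex (x : E) {ε : ℝ} (hε : 0 < ε) :
    ∃ (m : ℕ) (g : Fin m → G) (u : Fin m → E), x = ∑ i, u i ∧
      qA_cost w π P g u < sInf (qA_set w π P x) + ε := by
  obtain ⟨r, ⟨m, g, u, hx, rfl⟩, hr⟩ := exists_lt_of_csInf_lt (qA_ne (w := w) (π := π) (P := P) x)
    (show sInf (qA_set w π P x) < sInf (qA_set w π P x) + ε by linarith)
  exact ⟨m, g, u, hx, hr⟩

theorem qA_nonneg (hw : ∀ g, 0 < w g) (x : E) : 0 ≤ sInf (qA_set w π P x) := by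
  apply le_csInf (qA_ne x)
  rintro r ⟨m, g, u, -, rfl⟩
  exact qA_cost_nonneg hw g u

theorem qA_zero (hw : ∀ g, 0 < w g) : sInf (qA_set w π P 0) = 0 := by
  apply le_antisymm _ (qA_nonneg hw 0)
  have := qA_le (π := π) (P := P) hw (fun _ : Fin 0 => (1 : G)) (fun _ : Fin 0 => (0 : E)) (x := 0) (by simp)
  refine this.trans (le_of_eq ?_)
  unfold qA_cost
  simp

theorem qA_add (hw : ∀ g, 0 < w g) (x y : E) :
    sInf (qA_set w π P (x + y)) ≤ sInf (qA_set w π P x) + sInf (qA_set w π P y) := by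
  apply le_of_forall_pos_le_add
  intro ε hε
  obtain ⟨m, g, u, hx, hu⟩ := qA_ex (w := w) (π := π) (P := P) x (half_pos hε)
  obtain ⟨n, g', u', hy, hu'⟩ := qA_ex (w := w) (π := π) (P := P) y (half_pos hε)
  have h1 : x + y = ∑ i, Fin.append u u' i := by
    rw [Fin.sum_univ_add]
    simp only [Fin.append_left, Fin.append_right]
    rw [← hx, ← hy]
  have h2 : qA_cost w π P (Fin.append g g') (Fin.append u u') = qA_cost w π P g u + qA_cost w π P g' u' := by
    unfold qA_cost
    rw [Fin.sum_univ_add]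
    simp only [Fin.append_left, Fin.append_right]
  have h3 := qA_le (π := π) (P := P) hw (Fin.append g g') (Fin.append u u') h1
  rw [h2] at h3
  linarith

theorem qA_smul (hw : ∀ g, 0 < w g) (a : ℂ) (x : E) :
    sInf (qA_set w π P (a • x)) ≤ ‖a‖ * sInf (qA_set w π P x) := by
  have key : ∀ ε : ℝ, 0 < ε → sInf (qA_set w π P (a • x)) ≤ ‖a‖ * sInf (qA_set w π P x) + ‖a‖ * ε := by
    intro ε hε
    obtain ⟨m, g, u, hx, hu⟩ := qA_ex (w := w) (π := π) (P := P) x hε
    have h1 : a • x = ∑ i, a • u i := by rw [hx, Finset.smul_sum]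
    have h2 : qA_cost w π P g (fun i => a • u i) = ‖a‖ * qA_cost w π P g u := by
      unfold qA_cost
      rw [Finset.mul_sum]
      apply Finset.sum_congr rfl
      intro i _
      rw [map_smul, map_smul_eq_mul]
      ring
    have h3 := qA_le (π := π) (P := P) hw g (fun i => a • u i) h1
    rw [h2] at h3
    have h4 := mul_le_mul_of_nonneg_left hu.le (norm_nonneg a)
    linarith
  apply le_of_forall_pos_le_add
  intro ε hε
  have h0 : 0 < ‖a‖ + 1 := by positivity
  have h1 := key (ε / (‖a‖ + 1)) (div_pos hε h0)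
  have h2 : ‖a‖ * (ε / (‖a‖ + 1)) ≤ ε := by
    rw [mul_div_assoc', div_le_iff₀ h0]
    nlinarith [norm_nonneg a]
  linarith

theorem qA_act (hw : ∀ g, 0 < w g) (hwm : ∀ g h, w (g * h) ≤ w g * w h) (g : G) (x : E) :
    sInf (qA_set w π P (π g x)) ≤ w g * sInf (qA_set w π P x) := by
  have key : ∀ ε : ℝ, 0 < ε → sInf (qA_set w π P (π g x)) ≤ w g * sInf (qA_set w π P x) + w g * ε := by
    intro ε hε
    obtain ⟨m, h, u, hx, hu⟩ := qA_ex (w := w) (π := π) (P := P) x hε
    have h1 : π g x = ∑ i, π g (u i) := by rw [hx, map_sum]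
    have h2 : qA_cost w π P (fun i => h i * g⁻¹) (fun i => π g (u i)) ≤ w g * qA_cost w π P h u := by
      unfold qA_cost
      rw [Finset.mul_sum]
      apply Finset.sum_le_sum
      intro i _
      have e1 : π (h i * g⁻¹) (π g (u i)) = π (h i) (u i) := by
        have : π (h i * g⁻¹) * π g = π (h i) := by rw [← map_mul, inv_mul_cancel_right]
        rw [← this]
        rfl
      rw [e1, _root_.mul_inv_rev, inv_inv, ← mul_assoc]
      exact mul_le_mul_of_nonneg_right (hwm _ _) (apply_nonneg P _)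
    have h3 := qA_le (π := π) (P := P) hw (fun i => h i * g⁻¹) (fun i => π g (u i)) h1
    have h4 := mul_le_mul_of_nonneg_left hu.le (hw g).le
    linarith
  apply le_of_forall_pos_le_add
  intro ε hε
  have h1 := key (ε / w g) (div_pos hε (hw g))
  have h2 : w g * (ε / w g) = ε := by
    have := (hw g).ne'
    field_simp
  linarith

end

/-- TARGET -/
theorem q_Q : S_Q.{u} := by
  intro G _ w hw hwm E _ _ π P C hC
  let Q : Seminorm ℂ E := Seminorm.ofSMulLE (fun x => sInf (qA_set w π P x)) (qA_zero hw)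
    (qA_add hw) (qA_smul hw)
  have hQ : ∀ x, Q x = sInf (qA_set w π P x) := fun x => rfl
  refine ⟨Q, ?_, ?_, ?_, ?_⟩
  · intro x
    rw [hQ]
    exact csInf_le (qA_bdd hw x) (qA_one x)
  · intro g x
    rw [hQ, hQ]
    exact qA_act hw hwm g x
  · intro q hq x
    rw [hQ]
    apply le_csInf (qA_ne x)
    rintro r ⟨m, g, u, hx, rfl⟩
    exact hq x m g u hx
  · intro D hD x hx
    rw [hQ]
    have hne : {r : ℝ | ∃ (m : ℕ) (g : Fin m → G) (u : Fin m → E), (∀ i, u i ∈ D) ∧
        x = ∑ i, u i ∧ r = ∑ i, w (g i)⁻¹ * P (π (g i) (u i))}.Nonempty :=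
      ⟨_, 1, fun _ => 1, fun _ => x, fun _ => hx, by simp, rfl⟩
    have hbdd : BddBelow {r : ℝ | ∃ (m : ℕ) (g : Fin m → G) (u : Fin m → E), (∀ i, u i ∈ D) ∧
        x = ∑ i, u i ∧ r = ∑ i, w (g i)⁻¹ * P (π (g i) (u i))} := by
      refine ⟨0, ?_⟩
      rintro r ⟨m, g, u, -, -, rfl⟩
      exact qA_cost_nonneg hw g u
    apply le_antisymm
    · apply le_csInf hne
      rintro r ⟨m, g, u, -, hxu, rfl⟩
      exact qA_le hw g u hxu
    · apply le_of_forall_pos_le_add
      intro ε hε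
      obtain ⟨m, g, u, hxu, hu⟩ := qA_ex (w := w) (π := π) (P := P) x (half_pos hε)
      set C' : ℝ := max C 0 with hC'
      have hC'0 : 0 ≤ C' := le_max_right _ _
      have hPC : ∀ y, P y ≤ C' * ‖y‖ := fun y =>
        (hC y).trans (mul_le_mul_of_nonneg_right (le_max_left _ _) (norm_nonneg _))
      let K : Fin m → ℝ := fun i => w (g i)⁻¹ * (C' * ‖π (g i)‖) + w 1 * C' + 1
      have hK0 : ∀ i, 0 < K i := by
        intro i
        have h1 := (hw (g i)⁻¹).le
        have h2 := (hw 1).le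
        change 0 < w (g i)⁻¹ * (C' * ‖π (g i)‖) + w 1 * C' + 1
        positivity
      have hm : (0 : ℝ) < 2 * (m + 1) := by positivity
      have hex : ∀ i, ∃ y ∈ D, ‖y - u i‖ ≤ ε / (2 * (m + 1)) / K i := by
        intro i
        obtain ⟨y, hy, hyd⟩ := hD.exists_dist_lt (u i) (div_pos (div_pos hε hm) (hK0 i))
        refine ⟨y, hy, ?_⟩
        rw [dist_eq_norm, norm_sub_rev] at hyd
        exact hyd.le
      choose v hvD hv using hex
      have hsum : x = ∑ i, (Fin.cons (x - ∑ i, v i) v : Fin (m + 1) → E) i := by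
        rw [Fin.sum_univ_succ]
        simp
      have hmem : ∀ i, (Fin.cons (x - ∑ i, v i) v : Fin (m + 1) → E) i ∈ D := by
        intro i
        refine Fin.cases ?_ ?_ i
        · rw [Fin.cons_zero]
          exact D.sub_mem hx (D.sum_mem fun i _ => hvD i)
        · intro j
          rw [Fin.cons_succ]
          exact hvD j
      have h1 := csInf_le hbdd (show (∑ i, w ((Fin.cons 1 g : Fin (m + 1) → G) i)⁻¹ *
        P (π ((Fin.cons 1 g : Fin (m + 1) → G) i) ((Fin.cons (x - ∑ i, v i) v : Fin (m + 1) → E) i))) ∈ _ from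
          ⟨m + 1, Fin.cons 1 g, Fin.cons (x - ∑ i, v i) v, hmem, hsum, rfl⟩)
      refine h1.trans ?_
      rw [Fin.sum_univ_succ]
      simp only [Fin.cons_zero, Fin.cons_succ, inv_one, map_one]
      have e0 : P ((1 : E →L[ℂ] E) (x - ∑ i, v i)) ≤ ∑ i, C' * ‖v i - u i‖ := by
        have : (1 : E →L[ℂ] E) (x - ∑ i, v i) = ∑ i, (u i - v i) := by
          rw [Finset.sum_sub_distrib, ← hxu]
          rfl
        rw [this]
        refine (Finset.le_sum_of_subadditive P (map_zero P).le (map_add_le_add P) _ _).trans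
          (Finset.sum_le_sum fun i _ => ?_)
        rw [norm_sub_rev]
        exact hPC _
      have e1 : ∀ i, w (g i)⁻¹ * P (π (g i) (v i)) ≤ w (g i)⁻¹ * P (π (g i) (u i)) +
          w (g i)⁻¹ * (C' * ‖π (g i)‖) * ‖v i - u i‖ := by
        intro i
        have h2 : P (π (g i) (v i)) ≤ P (π (g i) (u i)) + C' * ‖π (g i)‖ * ‖v i - u i‖ := by
          have h3 : π (g i) (v i) = π (g i) (u i) + π (g i) (v i - u i) := by
            rw [map_sub]; abel
          rw [h3]
          refine (map_add_le_add P _ _).trans ?_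
          have h4 : P (π (g i) (v i - u i)) ≤ C' * (‖π (g i)‖ * ‖v i - u i‖) :=
            (hPC _).trans (mul_le_mul_of_nonneg_left ((π (g i)).le_opNorm _) hC'0)
          linarith
        have h5 := mul_le_mul_of_nonneg_left h2 (hw (g i)⁻¹).le
        linarith
      have e2 : ∀ i, w 1 * (C' * ‖v i - u i‖) + w (g i)⁻¹ * (C' * ‖π (g i)‖) * ‖v i - u i‖ ≤
          ε / (2 * (m + 1)) := by
        intro i
        have h2 : K i * ‖v i - u i‖ ≤ ε / (2 * (m + 1)) := by
          have h3 := hv i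
          rw [le_div_iff₀ (hK0 i)] at h3
          linarith
        have h4 : K i = w (g i)⁻¹ * (C' * ‖π (g i)‖) + w 1 * C' + 1 := rfl
        rw [h4] at h2
        nlinarith [norm_nonneg (v i - u i)]
      have e3 : w 1 * P ((1 : E →L[ℂ] E) (x - ∑ i, v i)) + ∑ i, w (g i)⁻¹ * P (π (g i) (v i)) ≤
          ∑ i, (w (g i)⁻¹ * P (π (g i) (u i)) + ε / (2 * (m + 1))) := by
        have h2 : w 1 * P ((1 : E →L[ℂ] E) (x - ∑ i, v i)) ≤ ∑ i, w 1 * (C' * ‖v i - u i‖) := by
          rw [← Finset.mul_sum]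
          exact mul_le_mul_of_nonneg_left e0 (hw 1).le
        have h3 := Finset.sum_le_sum fun (i : Fin m) (_ : i ∈ Finset.univ) => e1 i
        have h4 := Finset.sum_le_sum fun (i : Fin m) (_ : i ∈ Finset.univ) => e2 i
        rw [Finset.sum_add_distrib] at h3 h4 ⊢
        linarith
      refine e3.trans ?_
      rw [Finset.sum_add_distrib, Finset.sum_const, Finset.card_univ, Fintype.card_fin, nsmul_eq_mul]
      have h5 : (m : ℝ) * (ε / (2 * (m + 1))) ≤ ε / 2 := by
        rw [mul_div_assoc', div_le_div_iff₀ hm (by norm_num)]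
        nlinarith
      have h6 : ∑ i, w (g i)⁻¹ * P (π (g i) (u i)) = qA_cost w π P g u := rfl
      rw [h6]
      linarith

end Pool.Agent.H913.AV
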