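import Pool.Agent.H913.AV.Rc
import Pool.Agent.H913.AV.MA
import Pool.Agent.H913.AV.MB
import Pool.Agent.H913.AV.MC
import Pool.Agent.H913.AV.MD
import Pool.Agent.H913.AV.ME
import Pool.Agent.H913.AV.MF
import Pool.Agent.H913.AV.MG
import Pool.Agent.H913.AV.QA
import Pool.Agent.H913.AV.GA
import Pool.Agent.H913.AV.GB
import Pool.Agent.H913.AV.GC
import Pool.Agent.H913.AV.GD
import Pool.Agent.H913.AV.GE
import Pool.Agent.H913.AV.GF
import Pool.Agent.H913.AV.GG
import Pool.Agent.H913.AV.GH
import Pool.Agent.H913.AV.GI
import Pool.Agent.H913.AV.GJ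
import Pool.Agent.H913.AV.GK
import Pool.Agent.H913.AV.GL
import Pool.Agent.H913.AV.GM
import Pool.Agent.H913.AV.GN
import Pool.Agent.H913.AV.GO
import Pool.Agent.H913.AV.GP
import Pool.Agent.H913.AV.GQ
import Pool.Agent.H913.AV.GR

/-! Assembly of the parts. -/

universe u

namespace Pool.Agent.H913.AV

open Pool.Agent.H913.SG

theorem all_neg : S_neg.{u} := m_neg m_fc

theorem all_mom : S_mom.{u} := m_mom m_fc

theorem all_mult : S_mult.{u} := m_mult m_fc all_mom

theorem all_mult2 : S_mult2.{u} := m_mult2 m_fc all_neg all_mult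

theorem all_int2 : S_int2.{u} := m_int2 m_fc all_mult

theorem all_int3 : S_int3.{u} := m_int3 m_fc all_mult2

theorem all_clo : S_clo.{u} := g_clo g_rc g_polar all_pack

theorem all_sm : S_sm.{u} := g_sm all_pack (krep inner_exists) all_kernel all_avgV all_Ufin

theorem all_kfin : S_kfin.{u} := g_kfin all_sm

theorem all_closable : S_closable.{u} := g_closable all_sm

theorem all_glob : S_glob.{u} := g_glob all_clo all_kfin

theorem all_ext : S_ext.{u} := g_ext all_clo

theorem all_base : S_base.{u} := g_base all_glob

theorem all_sum : S_sum.{u} := g_sum renorm all_glob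

theorem all_up : S_up.{u} := g_up renorm all_glob all_pack

theorem all_acc : S_acc.{u} := g_acc renorm all_pack

theorem all_comm : S_comm.{u} := g_comm all_eigA all_pack

theorem all_ups : S_ups.{u} := g_ups all_up renorm all_acc all_neg m_fc all_eigA all_pack

theorem all_val : S_val.{u} := g_val all_ext all_closable

theorem all_avgN : S_avgN.{u} :=
  g_avgN all_ups all_comm all_val q_Q all_base renorm all_ext all_acc all_neg m_fc all_eigA all_pack

theorem all_n : S_n.{u} := g_n renorm all_ext all_base

theorem all_key : S_key.{u} := g_key all_n all_acc all_int2 all_int3 m_fc all_eigA all_pack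

theorem all_lip1 : S_lip1.{u} :=
  g_lip1 all_key all_avgN all_sum all_acc all_neg m_fc all_eigA all_pack

end Pool.Agent.H913.AV
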