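import Pool.Agent.H913.AV.Stmts
import Pool.Agent.H913.SG.Main

/-! The closure of `V` is stable under the one-parameter groups. -/

universe u

namespace Pool.Agent.H913.AV

open Pool.Agent.H913.SG

theorem g_rc : S_rc.{u} := by
  intro G _ _ _ _ _ R P w hw V _ _ Mo E _ _ _ Gl
  obtain ⟨s, hT, -⟩ := krep inner_exists G R P V Mo
  have h := rec_closure all_approx all_casimir (bernU all_bern) all_U all_chart op_basic
    all_op_word mul_lin chi1_exists clos all_Ufin P s w hw Mo hT Gl
  intro g hg x hx
  have h1 := h g hg x (by rw [Gl.mem_clo]; exact hx)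
  rwa [Gl.mem_clo] at h1

end Pool.Agent.H913.AV
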