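import Pool.Agent.H913.SG.Stmts2

/-! Averaged Sobolev norms on Harish-Chandra modules: definitions and statements of the parts of the
proof (no proofs here). -/

open MeasureTheory Matrix NormedSpace Filter Topology
open scoped Matrix

universe u

namespace Pool.Agent.H913.AV

open Pool.Agent.H913.SG

/-! ### Abstract part: accretive diagonalizable operators -/

section Abs

variable {V : Type u} [AddCommGroup V] [Module ℂ V]

/-- `L` is diagonalizable with real eigenvalues `≥ 0`. -/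
def Diag (L : Module.End ℂ V) : Prop :=
  (∀ (c : ℝ) v, v ≠ 0 → L v = (c : ℂ) • v → 0 ≤ c) ∧
  ∀ v, ∃ f : ℝ →₀ V, (∀ c, L (f c) = (c : ℂ) • f c) ∧ v = f.sum fun _ x => x

/-- `T = φ(L)` -/
def FC (L : Module.End ℂ V) (φ : ℝ → ℝ) (T : Module.End ℂ V) : Prop :=
  ∀ (c : ℝ) v, L v = (c : ℂ) • v → T v = ((φ c : ℝ) : ℂ) • v

/-- `L` is accretive for the seminorm `‖J v‖`. -/
def Acc {F : Type u} [NormedAddCommGroup F] [NormedSpace ℂ F] (L : Module.End ℂ V)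
    (J : V →ₗ[ℂ] F) : Prop :=
  ∀ l : ℝ, 0 ≤ l → ∀ v, l * ‖J v‖ ≤ ‖J ((l : ℂ) • v + L v)‖

/-- the multiplier `1 - (1 - (l/(l+1+c))^M)^M` -/
noncomputable def sg (M : ℕ) (l c : ℝ) : ℝ := 1 - (1 - (l / (l + 1 + c)) ^ M) ^ M

end Abs

/-- M1: existence and uniqueness of the functional calculus. -/
def S_fc : Prop := ∀ (V : Type u) [AddCommGroup V] [Module ℂ V] (L : Module.End ℂ V), Diag L →
  (∀ φ : ℝ → ℝ, ∃ T, FC L φ T) ∧
  ∀ (φ ψ : ℝ → ℝ) (T T' : Module.End ℂ V), FC L φ T → FC L ψ T' → (∀ c, 0 ≤ c → φ c = ψ c) → T = T'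

/-- M2: the operators `(1+L)^(-g)` are contractions. -/
def S_neg : Prop := ∀ (V : Type u) [AddCommGroup V] [Module ℂ V] (L : Module.End ℂ V), Diag L →
  ∀ (F : Type u) [NormedAddCommGroup F] [NormedSpace ℂ F] (J : V →ₗ[ℂ] F), Acc L J →
  ∀ g : ℝ, 0 ≤ g → ∀ T : Module.End ℂ V, FC L (fun c => (1 + c) ^ (-g)) T → ∀ v, ‖J (T v)‖ ≤ ‖J v‖

/-- M3: the moment inequality. -/
def S_mom : Prop := ∀ g : ℝ, 0 < g → g < 1 → ∃ C : ℝ, 0 ≤ C ∧
  ∀ (V : Type u) [AddCommGroup V] [Module ℂ V] (L : Module.End ℂ V), Diag L →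
  ∀ (F : Type u) [NormedAddCommGroup F] [NormedSpace ℂ F] (J : V →ₗ[ℂ] F), Acc L J →
  ∀ T T' : Module.End ℂ V, FC L (fun c => (1 + c) ^ g) T → FC L (fun c => 1 + c) T' → ∀ v,
    ‖J (T v)‖ ≤ C * ‖J v‖ ^ (1 - g) * ‖J (T' v)‖ ^ g

/-- M4: bounds for the multipliers. -/
def S_mult : Prop := ∀ (M : ℕ) (g : ℝ), 0 ≤ g → g ≤ M → ∃ C : ℝ, 0 ≤ C ∧
  ∀ (V : Type u) [AddCommGroup V] [Module ℂ V] (L : Module.End ℂ V), Diag L →
  ∀ (F : Type u) [NormedAddCommGroup F] [NormedSpace ℂ F] (J : V →ₗ[ℂ] F), Acc L J →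
  ∀ l : ℝ, 1 ≤ l → ∀ T : Module.End ℂ V,
    (FC L (fun c => (1 + c) ^ g * sg M l c) T → ∀ v, ‖J (T v)‖ ≤ C * l ^ g * ‖J v‖) ∧
    (FC L (fun c => (1 + c) ^ (-g) * (1 - sg M l c)) T → ∀ v, ‖J (T v)‖ ≤ C * l ^ (-g) * ‖J v‖)

/-- M5: bounds for differences of multipliers. -/
def S_mult2 : Prop := ∀ (M : ℕ) (g : ℝ), -(M : ℝ) ≤ g → g ≤ M → ∃ C : ℝ, 0 ≤ C ∧
  ∀ (V : Type u) [AddCommGroup V] [Module ℂ V] (L : Module.End ℂ V), Diag L →
  ∀ (F : Type u) [NormedAddCommGroup F] [NormedSpace ℂ F] (J : V →ₗ[ℂ] F), Acc L J →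
  ∀ T : Module.End ℂ V,
    (∀ l : ℝ, 1 ≤ l → FC L (fun c => (1 + c) ^ g * (sg M (4 * l) c - sg M l c)) T →
      ∀ v, ‖J (T v)‖ ≤ C * l ^ g * ‖J v‖) ∧
    (FC L (fun c => (1 + c) ^ g * sg M 1 c) T → ∀ v, ‖J (T v)‖ ≤ C * ‖J v‖)

/-- M6: decompositions exist. -/
def S_int2 : Prop := ∀ s1 δ : ℝ, 0 < δ → δ ≤ s1 →
  ∀ (V : Type u) [AddCommGroup V] [Module ℂ V] (L : Module.End ℂ V), Diag L →
  ∀ (Fp Fq : Type u) [NormedAddCommGroup Fp] [NormedSpace ℂ Fp] [NormedAddCommGroup Fq]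
    [NormedSpace ℂ Fq] (Jp : V →ₗ[ℂ] Fp) (Jq : V →ₗ[ℂ] Fq), Acc L Jp → Acc L Jq →
  ∀ T1 T2 : Module.End ℂ V, FC L (fun c => (1 + c) ^ (s1 / 2)) T1 →
    FC L (fun c => (1 + c) ^ ((s1 - δ) / 2)) T2 →
  ∀ C0 : ℝ, (∀ v, ‖Jq v‖ ≤ C0 * ‖Jp (T1 v)‖) →
  ∃ C : ℝ, 0 ≤ C ∧ ∀ (i : ℕ) (v : V), ∃ a : V,
    ((2 : ℝ) ^ i) ^ s1 * ‖Jp a‖ + ‖Jq (v - a)‖ ≤ C * ((2 : ℝ) ^ i) ^ δ * ‖Jp (T2 v)‖

/-- M7: bounds from decompositions. -/
def S_int3 : Prop := ∀ s1 δ e : ℝ, 0 < δ → δ ≤ s1 → 0 < e →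
  ∀ (V : Type u) [AddCommGroup V] [Module ℂ V] (L : Module.End ℂ V), Diag L →
  ∀ (Fp Fq : Type u) [NormedAddCommGroup Fp] [NormedSpace ℂ Fp] [NormedAddCommGroup Fq]
    [NormedSpace ℂ Fq] (Jp : V →ₗ[ℂ] Fp) (Jq : V →ₗ[ℂ] Fq), Acc L Jp → Acc L Jq →
  ∀ T1 T3 : Module.End ℂ V, FC L (fun c => (1 + c) ^ (s1 / 2)) T1 →
    FC L (fun c => (1 + c) ^ (-((δ + e) / 2))) T3 →
  ∀ C0 : ℝ, (∀ v, ‖Jq v‖ ≤ C0 * ‖Jp (T1 v)‖) →
  ∃ C : ℝ, 0 ≤ C ∧ ∀ (y : V) (N : ℝ), 0 ≤ N →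
    (∀ i : ℕ, ∃ a : V, ((2 : ℝ) ^ i) ^ s1 * ‖Jp a‖ + ‖Jq (y - a)‖ ≤ ((2 : ℝ) ^ i) ^ δ * N) →
    ‖Jq (T3 y)‖ ≤ C * N

/-- Q1: the infimum over decompositions. -/
def S_Q : Prop := ∀ (G : Type) [Group G] (w : G → ℝ), (∀ g, 0 < w g) →
  (∀ g h, w (g * h) ≤ w g * w h) →
  ∀ (E : Type u) [NormedAddCommGroup E] [NormedSpace ℂ E] (π : G →* (E →L[ℂ] E))
    (P : Seminorm ℂ E) (C : ℝ), (∀ x, P x ≤ C * ‖x‖) →
  ∃ Q : Seminorm ℂ E, (∀ x, Q x ≤ w 1 * P x) ∧ (∀ g x, Q (π g x) ≤ w g * Q x) ∧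
    (∀ q : E → ℝ, (∀ (x : E) (m : ℕ) (g : Fin m → G) (u : Fin m → E), x = ∑ i, u i →
      q x ≤ ∑ i, w (g i)⁻¹ * P (π (g i) (u i))) → ∀ x, q x ≤ Q x) ∧
    ∀ D : Submodule ℂ E, Dense (D : Set E) → ∀ x ∈ D,
      Q x = sInf {r : ℝ | ∃ (m : ℕ) (g : Fin m → G) (u : Fin m → E), (∀ i, u i ∈ D) ∧
        x = ∑ i, u i ∧ r = ∑ i, w (g i)⁻¹ * P (π (g i) (u i))}

/-! ### Groups and modules -/

section Val

variable {G : Type} [Group G] [TopologicalSpace G] {R : RealReductive G} {V : Type u}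
  [AddCommGroup V] [Module ℂ V]

/-- `c` is the value at `g • v` of the Sobolev norm `p_s`, where `T = D_s`: the vector `g • v` lies in
the domain of the closure of the operator `T` on the completion for `p`, and `c` is the norm of its
image. -/
def IsVal (Mo : HCModule R V) (w : G → ℝ) (p : V → ℝ) (T : Module.End ℂ V) (g : G) (v : V)
    (c : ℝ) : Prop :=
  ∃ (E : Type u) (_ : NormedAddCommGroup E) (_ : NormedSpace ℂ E) (_ : CompleteSpace E)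
    (ι : V →ₗ[ℂ] E) (π : G →* (E →L[ℂ] E)),
    Function.Injective ι ∧ DenseRange ι ∧ (∀ v, p v = ‖ι v‖) ∧ IsContRep π ∧ RespectsK Mo ι π ∧
    RespectsLie Mo ι π ∧ HitsKFinite R ι π ∧ GrowthLE π w ∧
    ∃ y : E, (π g (ι v), y) ∈ closure (Set.range fun u => (ι u, ι (T u))) ∧ c = ‖y‖

/-- all sums `∑ w(gᵢ⁻¹) p_s(gᵢ • vᵢ)` with `v = ∑ vᵢ` -/
def avgSet (Mo : HCModule R V) (w : G → ℝ) (p : V → ℝ) (T : Module.End ℂ V) (v : V) : Set ℝ :=
  {r | ∃ (m : ℕ) (g : Fin m → G) (u : Fin m → V) (c : Fin m → ℝ), v = ∑ i, u i ∧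
    (∀ i, IsVal Mo w p T (g i) (u i) (c i)) ∧ r = ∑ i, w (g i)⁻¹ * c i}

/-- the averaged norm `p_s^G` -/
noncomputable def avgN (Mo : HCModule R V) (w : G → ℝ) (p : V → ℝ) (T : Module.End ℂ V) (v : V) :
    ℝ := sInf (avgSet Mo w p T v)

end Val

/-- G1: polar decomposition. -/
def S_polar : Prop := ∀ (G : Type) [Group G] [TopologicalSpace G] [IsTopologicalGroup G] [T2Space G]
  [SecondCountableTopology G] (R : RealReductive G) (P : Pack R) (g : G),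
  ∃ k ∈ R.K, ∃ X : R.lie, g = k * P.gam X 1

/-- G2: the closure of `V` is stable under the one-parameter groups. -/
def S_rc : Prop := ∀ (G : Type) [Group G] [TopologicalSpace G] [IsTopologicalGroup G] [T2Space G]
  [SecondCountableTopology G] (R : RealReductive G) (P : Pack R) (w : G → ℝ), IsWeight w →
  ∀ (V : Type u) [AddCommGroup V] [Module ℂ V] (Mo : HCModule R V)
    (E : Type u) [NormedAddCommGroup E] [NormedSpace ℂ E] [CompleteSpace E] (Gl : Glob Mo w E),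
    ∀ g ∈ P.Gp, ∀ x ∈ closure (Set.range Gl.ι), Gl.π g x ∈ closure (Set.range Gl.ι)

/-- G3: the closure of `V` is stable under `G`. -/
def S_clo : Prop := ∀ (G : Type) [Group G] [TopologicalSpace G] [IsTopologicalGroup G] [T2Space G]
  [SecondCountableTopology G] (R : RealReductive G) (w : G → ℝ), IsWeight w →
  ∀ (V : Type u) [AddCommGroup V] [Module ℂ V] (Mo : HCModule R V)
    (E : Type u) [NormedAddCommGroup E] [NormedSpace ℂ E] [CompleteSpace E] (Gl : Glob Mo w E),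
    ∀ g, ∀ x ∈ closure (Set.range Gl.ι), Gl.π g x ∈ closure (Set.range Gl.ι)

/-- G4: smoothing operators on `V`, acting on all globalizations. -/
def S_sm : Prop := ∀ (G : Type) [Group G] [TopologicalSpace G] [IsTopologicalGroup G] [T2Space G]
  [SecondCountableTopology G] (R : RealReductive G)
  (V : Type u) [AddCommGroup V] [Module ℂ V] (Mo : HCModule R V),
  ∃ (U : ℕ → Submodule ℂ V) (A : ℕ → V → V), (∀ j, FiniteDimensional ℂ (U j)) ∧
    (∀ j v, A j v ∈ U j) ∧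
    (∀ T : Module.End ℂ V, (∀ k, Mo.kact k * T = T * Mo.kact k) → ∀ j v, A j (T v) = T (A j v)) ∧
    ∀ (w : G → ℝ), IsWeight w → ∀ (E : Type u) [NormedAddCommGroup E] [NormedSpace ℂ E]
      [CompleteSpace E] (Gl : Glob Mo w E), ∃ Ah : ℕ → E →L[ℂ] E,
      (∀ j v, Ah j (Gl.ι v) = Gl.ι (A j v)) ∧
      (∀ x ∈ closure (Set.range Gl.ι), Tendsto (fun j => Ah j x) atTop (𝓝 x)) ∧
      ∀ (j : ℕ) (W : Submodule ℂ E), IsClosed (W : Set E) →
        (∀ k : R.K, ∀ x ∈ W, Gl.π k.1 x ∈ W) → ∀ x ∈ W, Ah j x ∈ W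

/-- G5: `K`-finite vectors in the closure of `V` lie in `V`. -/
def S_kfin : Prop := ∀ (G : Type) [Group G] [TopologicalSpace G] [IsTopologicalGroup G] [T2Space G]
  [SecondCountableTopology G] (R : RealReductive G) (w : G → ℝ), IsWeight w →
  ∀ (V : Type u) [AddCommGroup V] [Module ℂ V] (Mo : HCModule R V)
    (E : Type u) [NormedAddCommGroup E] [NormedSpace ℂ E] [CompleteSpace E] (Gl : Glob Mo w E),
    ∀ x ∈ closure (Set.range Gl.ι),
      FiniteDimensional ℂ (Submodule.span ℂ (Set.range fun k : R.K => Gl.π k.1 x)) →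
      x ∈ Set.range Gl.ι

/-- G6: operators on `V` commuting with `K` are closable. -/
def S_closable : Prop := ∀ (G : Type) [Group G] [TopologicalSpace G] [IsTopologicalGroup G]
  [T2Space G] [SecondCountableTopology G] (R : RealReductive G) (w : G → ℝ), IsWeight w →
  ∀ (V : Type u) [AddCommGroup V] [Module ℂ V] (Mo : HCModule R V)
    (E : Type u) [NormedAddCommGroup E] [NormedSpace ℂ E] [CompleteSpace E] (Gl : Glob Mo w E)
    (T : Module.End ℂ V), (∀ k, Mo.kact k * T = T * Mo.kact k) →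
    ∀ z : E, ((0 : E), z) ∈ closure (Set.range fun u => (Gl.ι u, Gl.ι (T u))) → z = 0

/-- G7: every globalization gives an element of `Norm(V, w)`. -/
def S_glob : Prop := ∀ (G : Type) [Group G] [TopologicalSpace G] [IsTopologicalGroup G] [T2Space G]
  [SecondCountableTopology G] (R : RealReductive G) (w : G → ℝ), IsWeight w →
  ∀ (V : Type u) [AddCommGroup V] [Module ℂ V] (Mo : HCModule R V)
    (E : Type u) [NormedAddCommGroup E] [NormedSpace ℂ E] [CompleteSpace E] (Gl : Glob Mo w E),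
    IsNormIn Mo w fun v => ‖Gl.ι v‖

/-- G8: comparison maps between globalizations are equivariant. -/
def S_ext : Prop := ∀ (G : Type) [Group G] [TopologicalSpace G] [IsTopologicalGroup G] [T2Space G]
  [SecondCountableTopology G] (R : RealReductive G) (w w' : G → ℝ), IsWeight w → IsWeight w' →
  ∀ (V : Type u) [AddCommGroup V] [Module ℂ V] (Mo : HCModule R V)
    (E E' : Type u) [NormedAddCommGroup E] [NormedSpace ℂ E] [CompleteSpace E]
    [NormedAddCommGroup E'] [NormedSpace ℂ E'] [CompleteSpace E']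
    (Gl : Glob Mo w E) (Gl' : Glob Mo w' E'), DenseRange Gl.ι →
    ∀ C : ℝ, (∀ v, ‖Gl'.ι v‖ ≤ C * ‖Gl.ι v‖) →
    ∃ Θ : E →L[ℂ] E', (∀ v, Θ (Gl.ι v) = Gl'.ι v) ∧ ∀ g x, Θ (Gl.π g x) = Gl'.π g (Θ x)

/-- G9: continuous seminorms on a globalization with growth at most `w`. -/
def S_base : Prop := ∀ (G : Type) [Group G] [TopologicalSpace G] [IsTopologicalGroup G] [T2Space G]
  [SecondCountableTopology G] (R : RealReductive G) (w w' : G → ℝ), IsWeight w → IsWeight w' →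
  ∀ (V : Type u) [AddCommGroup V] [Module ℂ V] (Mo : HCModule R V)
    (E : Type u) [NormedAddCommGroup E] [NormedSpace ℂ E] [CompleteSpace E] (Gl : Glob Mo w' E),
    DenseRange Gl.ι → ∀ (n : Seminorm ℂ E) (C : ℝ), (∀ x, n x ≤ C * ‖x‖) →
    (∀ g x, n (Gl.π g x) ≤ C * w g * n x) → (∀ v, n (Gl.ι v) = 0 → v = 0) →
    IsNormIn Mo w fun v => n (Gl.ι v)

/-- G10: sums of norms. -/
def S_sum : Prop := ∀ (G : Type) [Group G] [TopologicalSpace G] [IsTopologicalGroup G] [T2Space G]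
  [SecondCountableTopology G] (R : RealReductive G) (w : G → ℝ), IsWeight w →
  ∀ (V : Type u) [AddCommGroup V] [Module ℂ V] (Mo : HCModule R V) (p q : V → ℝ),
    IsNormIn Mo w p → IsNormIn Mo w q → ∃ r, IsNormIn Mo w r ∧ NormLE p r ∧ NormLE q r ∧
      NormLE r fun v => p v + q v

/-- G11: norms with one more derivative. -/
def S_up : Prop := ∀ (G : Type) [Group G] [TopologicalSpace G] [IsTopologicalGroup G] [T2Space G]
  [SecondCountableTopology G] (R : RealReductive G) (w : G → ℝ), IsWeight w →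
  ∀ (V : Type u) [AddCommGroup V] [Module ℂ V] (Mo : HCModule R V) (p : V → ℝ),
    IsNormIn Mo w p → ∃ w' : G → ℝ, IsWeight w' ∧ ∃ r, IsNormIn Mo w' r ∧ NormLE p r ∧
      ∀ X : R.lie, NormLE (fun v => p (Mo.act X v)) r

/-- G12: the Laplacian is accretive for an equivalent norm. -/
def S_acc : Prop := ∀ (G : Type) [Group G] [TopologicalSpace G] [IsTopologicalGroup G] [T2Space G]
  [SecondCountableTopology G] (R : RealReductive G) (B : R.InvBasis) (w : G → ℝ), IsWeight w →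
  ∀ (V : Type u) [AddCommGroup V] [Module ℂ V] (Mo : HCModule R V) (p : V → ℝ),
    IsNormIn Mo w p → ∃ (F : Type u) (_ : NormedAddCommGroup F) (_ : NormedSpace ℂ F)
      (J : V →ₗ[ℂ] F), Acc (lap Mo B) J ∧ NormLE p (fun v => ‖J v‖) ∧ NormLE (fun v => ‖J v‖) p

/-- G13: functions of the Laplacian commute with `K`. -/
def S_comm : Prop := ∀ (G : Type) [Group G] [TopologicalSpace G] [IsTopologicalGroup G] [T2Space G]
  [SecondCountableTopology G] (R : RealReductive G) (B : R.InvBasis)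
  (V : Type u) [AddCommGroup V] [Module ℂ V] (Mo : HCModule R V) (φ : ℝ → ℝ)
  (T : Module.End ℂ V), FC (lap Mo B) φ T → ∀ k, Mo.kact k * T = T * Mo.kact k

/-- G14: a globalization on which `p` and `p_s` are continuous. -/
def S_ups : Prop := ∀ (G : Type) [Group G] [TopologicalSpace G] [IsTopologicalGroup G] [T2Space G]
  [SecondCountableTopology G] (R : RealReductive G) (B : R.InvBasis) (w : G → ℝ), IsWeight w →
  ∀ (V : Type u) [AddCommGroup V] [Module ℂ V] (Mo : HCModule R V) (p : V → ℝ),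
    IsNormIn Mo w p → ∀ s : ℝ, 0 ≤ s → ∀ T : Module.End ℂ V, IsSobolevPow Mo B s T →
    ∃ w' : G → ℝ, IsWeight w' ∧ ∃ (E : Type u) (_ : NormedAddCommGroup E) (_ : NormedSpace ℂ E)
      (_ : CompleteSpace E) (Gl : Glob Mo w' E), DenseRange Gl.ι ∧
      ∃ C : ℝ, (∀ v, p v ≤ C * ‖Gl.ι v‖) ∧ ∀ v, p (T v) ≤ C * ‖Gl.ι v‖

/-- G15: the values of `p_s` at `g • v`. -/
def S_val : Prop := ∀ (G : Type) [Group G] [TopologicalSpace G] [IsTopologicalGroup G] [T2Space G]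
  [SecondCountableTopology G] (R : RealReductive G) (w w' : G → ℝ), IsWeight w → IsWeight w' →
  ∀ (V : Type u) [AddCommGroup V] [Module ℂ V] (Mo : HCModule R V) (p : V → ℝ),
    IsNormIn Mo w p → ∀ T : Module.End ℂ V, (∀ k, Mo.kact k * T = T * Mo.kact k) →
  ∀ (E : Type u) [NormedAddCommGroup E] [NormedSpace ℂ E] [CompleteSpace E] (Gl : Glob Mo w' E),
    DenseRange Gl.ι → ∀ C : ℝ, (∀ v, p v ≤ C * ‖Gl.ι v‖) → (∀ v, p (T v) ≤ C * ‖Gl.ι v‖) →
    ∃ P : Seminorm ℂ E, (∃ C' : ℝ, ∀ x, P x ≤ C' * ‖x‖) ∧ (∀ v, P (Gl.ι v) = p (T v)) ∧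
      ∀ g v c, IsVal Mo w p T g v c ↔ c = P (Gl.π g (Gl.ι v))

/-- G16: the averaged norm is the largest element of `Norm(V, w)` below `p_s`. -/
def S_avgN : Prop := ∀ (G : Type) [Group G] [TopologicalSpace G] [IsTopologicalGroup G] [T2Space G]
  [SecondCountableTopology G] (R : RealReductive G) (B : R.InvBasis) (w : G → ℝ), IsWeight w →
  ∀ (V : Type u) [AddCommGroup V] [Module ℂ V] (Mo : HCModule R V) (p : V → ℝ),
    IsNormIn Mo w p → ∀ s : ℝ, 0 ≤ s → ∀ T : Module.End ℂ V, IsSobolevPow Mo B s T →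
    (∀ g v, ∃! c, IsVal Mo w p T g v c) ∧
    IsNormIn Mo w (avgN Mo w p T) ∧ NormLE (avgN Mo w p T) (fun v => p (T v)) ∧
      ∀ q, IsNormIn Mo w q → NormLE q (fun v => p (T v)) → NormLE q (avgN Mo w p T)

/-- G17: the interpolated norm. -/
def S_n : Prop := ∀ (G : Type) [Group G] [TopologicalSpace G] [IsTopologicalGroup G] [T2Space G]
  [SecondCountableTopology G] (R : RealReductive G) (w : G → ℝ), IsWeight w →
  ∀ (V : Type u) [AddCommGroup V] [Module ℂ V] (Mo : HCModule R V) (p q : V → ℝ),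
    IsNormIn Mo w p → IsNormIn Mo w q → NormLE p q → ∀ s1 δ : ℝ, 0 < δ → δ ≤ s1 →
    ∃ n, IsNormIn Mo w n ∧ ∃ C : ℝ, 0 ≤ C ∧
      (∀ (v : V) (N : ℝ), 0 ≤ N →
        (∀ i : ℕ, ∃ a : V, ((2 : ℝ) ^ i) ^ s1 * p a + q (v - a) ≤ ((2 : ℝ) ^ i) ^ δ * N) →
        n v ≤ C * N) ∧
      ∀ (v : V) (i : ℕ), ∃ a : V,
        ((2 : ℝ) ^ i) ^ s1 * p a + q (v - a) ≤ ((2 : ℝ) ^ i) ^ δ * (C * n v)

/-- G18: the key step. -/
def S_key : Prop := ∀ (G : Type) [Group G] [TopologicalSpace G] [IsTopologicalGroup G] [T2Space G]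
  [SecondCountableTopology G] (R : RealReductive G) (B : R.InvBasis) (w : G → ℝ), IsWeight w →
  ∀ (V : Type u) [AddCommGroup V] [Module ℂ V] (Mo : HCModule R V) (p q : V → ℝ),
    IsNormIn Mo w p → IsNormIn Mo w q → NormLE p q → ∀ s1 δ e : ℝ, 0 < δ → δ ≤ s1 → 0 < e →
    ∀ T1 T2 T3 : Module.End ℂ V, IsSobolevPow Mo B s1 T1 → IsSobolevPow Mo B (s1 - δ) T2 →
    IsSobolevPow Mo B (δ + e) T3 → NormLE q (fun v => p (T1 v)) →
    ∃ n, IsNormIn Mo w n ∧ NormLE n (fun v => p (T2 v)) ∧ NormLE q fun v => n (T3 v)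

/-- the set of all `s ≥ 0` with `p ≲ q_s` -/
def dS {G : Type} [Group G] [TopologicalSpace G] {R : RealReductive G} {V : Type u}
    [AddCommGroup V] [Module ℂ V] (Mo : HCModule R V) (B : R.InvBasis) (p q : V → ℝ) : Set ℝ :=
  {s | 0 ≤ s ∧ ∃ T : Module.End ℂ V, IsSobolevPow Mo B s T ∧ NormLE p fun v => q (T v)}

/-- G19: the Lipschitz estimate, one direction. -/
def S_lip1 : Prop := ∀ (G : Type) [Group G] [TopologicalSpace G] [IsTopologicalGroup G] [T2Space G]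
  [SecondCountableTopology G] (R : RealReductive G) (B : R.InvBasis) (w : G → ℝ), IsWeight w →
  ∀ (V : Type u) [AddCommGroup V] [Module ℂ V] (Mo : HCModule R V) (p p' : V → ℝ),
    IsNormIn Mo w p → IsNormIn Mo w p' → ∀ s s' : ℝ, 0 ≤ s → 0 ≤ s' →
    ∀ T T' : Module.End ℂ V, IsSobolevPow Mo B s T → IsSobolevPow Mo B s' T' →
    ∀ h ∈ dS Mo B p p', ∀ e : ℝ, 0 < e →
      |s - s'| + h + e ∈ dS Mo B (avgN Mo w p T) (avgN Mo w p' T')

end Pool.Agent.H913.AV
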